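import Pool.Agent.X97.FM.Block

/-!
Superposition of blocks with lacunary frequencies.
-/

open MeasureTheory Set Filter Topology
open scoped Pointwise

namespace Pool.Agent.X97.FM

open H459R3.NS

lemma FS.summF {S : Finset K3} {g : K3 → ℝ → C3} (hg : FS S g) (t : ℝ) :
    Summable fun k => ‖(fun l => g l t) k‖ := hg.summ' t

namespace Blk

variable (ν : ℝ) (B : Blk) (n : ℕ)

/-- the frequencies of a block -/
def supp : Finset K3 :=
  {B.l, -B.l} ∪ ({B.kk n, -B.kk n} ∪ {B.kk n + B.l, -(B.kk n + B.l)})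

lemma uFS : FS (B.supp n) (B.uB ν n) :=
  (pr_FS B.hl _ _).mono Finset.subset_union_left

lemma wFS (hn : n ≠ 0) : FS (B.supp n) (B.wB ν n) :=
  (pr_FS (B.kk_ne n hn) _ _).mono (Finset.subset_union_left.trans Finset.subset_union_right)

lemma zFS : FS (B.supp n) (B.zB ν n) :=
  (pr_FS (B.kkl_ne n) _ _).mono (Finset.subset_union_right.trans Finset.subset_union_right)

lemma VFS (hn : n ≠ 0) : FS (B.supp n) (B.VB ν n) :=
  (B.uFS ν n).add ((B.wFS ν n hn).add (B.zFS ν n))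

lemma rFS : FS (B.supp n + B.supp n) (B.rB ν n) := by
  refine (pr_FS (B.kk2_ne n) _ _).mono ?_
  intro x hx
  simp only [Finset.mem_insert, Finset.mem_singleton] at hx
  rcases hx with h | h
  · rw [h]
    exact Finset.add_mem_add (by simp [supp]) (by simp [supp])
  · rw [h, neg_add]
    exact Finset.add_mem_add (by simp [supp]) (by simp [supp])

lemma VB_self (hn : n ≠ 0) (t : ℝ) (k : K3) :
    Bf (fun l => B.VB ν n l t) (fun l => B.VB ν n l t) k =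
      Bf (fun l => B.wB ν n l t) (fun l => B.zB ν n l t) k +
        Bf (fun l => B.wB ν n l t) (fun l => B.uB ν n l t) k := by
  have su := (B.uFS ν n).summ' t
  have sw := (B.wFS ν n hn).summ' t
  have sz := (B.zFS ν n).summ' t
  have swz := ((B.wFS ν n hn).add (B.zFS ν n)).summ' t
  have sV := (B.VFS ν n hn).summ' t
  have h1 : Bf (fun l => B.uB ν n l t) (fun l => B.VB ν n l t) k = 0 := by
    have e : (fun l => B.VB ν n l t) = fun l => B.uB ν n l t + (B.wB ν n l t + B.zB ν n l t) := rfl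
    rw [e, Bf_add_right su su swz, Bf_add_right su sw sz]
    unfold uB wB zB
    rw [B.Bf_a_zero B.hla B.hla, B.Bf_a_zero B.hla (B.kk_a n), B.Bf_a_zero B.hla (B.kkl_a n)]
    simp
  have h2 : Bf (fun l => B.zB ν n l t) (fun l => B.VB ν n l t) k = 0 := by
    have e : (fun l => B.VB ν n l t) = fun l => B.uB ν n l t + (B.wB ν n l t + B.zB ν n l t) := rfl
    rw [e, Bf_add_right sz su swz, Bf_add_right sz sw sz]
    unfold uB wB zB
    rw [B.Bf_a_zero (B.kkl_a n) B.hla, B.Bf_a_zero (B.kkl_a n) (B.kk_a n),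
      B.Bf_a_zero (B.kkl_a n) (B.kkl_a n)]
    simp
  have h3 : Bf (fun l => B.wB ν n l t) (fun l => B.VB ν n l t) k =
      Bf (fun l => B.wB ν n l t) (fun l => B.uB ν n l t) k +
        Bf (fun l => B.wB ν n l t) (fun l => B.zB ν n l t) k := by
    have e : (fun l => B.VB ν n l t) = fun l => B.uB ν n l t + (B.wB ν n l t + B.zB ν n l t) := rfl
    rw [e, Bf_add_right sw su swz, Bf_add_right sw sw sz, B.Bf_ww, zero_add]
  have e : Bf (fun l => B.VB ν n l t) (fun l => B.VB ν n l t) k =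
      Bf (fun l => B.uB ν n l t + (B.wB ν n l t + B.zB ν n l t)) (fun l => B.VB ν n l t) k := rfl
  rw [e, Bf_add_left su swz sV, Bf_add_left sw sz sV, h1, h2, h3]
  abel

/-- the residual of a single block -/
noncomputable def eB (k : K3) (t : ℝ) : C3 :=
  B.rB ν n k t + Bf (fun l => B.wB ν n l t) (fun l => B.uB ν n l t) k

lemma VB_deriv (hn : n ≠ 0) (k : K3) (t : ℝ) :
    HasDerivAt (B.VB ν n k) (-(lam ν k • B.VB ν n k t) -
      Bf (fun l => B.VB ν n l t) (fun l => B.VB ν n l t) k + B.eB ν n k t) t := by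
  have h1 := (pr_deriv B.l ((1 / 2 * B.A) • cz B.a) (B.Gam ν n) k t).add
    ((pr_deriv (B.kk n) ((n / 2 : ℂ) • cz B.l) (lam ν (B.kk n)) k t).add
      (pr_deriv (B.kk n + B.l) ((n / 2 * B.bet ν) • cz B.a) (lam ν (B.kk n + B.l)) k t))
  refine h1.congr_deriv ?_
  rw [B.VB_self ν n hn]
  unfold eB
  rw [← B.main_block ν n k t]
  have e : lam ν k • B.VB ν n k t = lam ν k • B.uB ν n k t +
      (lam ν (B.kk n) • B.wB ν n k t + lam ν (B.kk n + B.l) • B.zB ν n k t) := by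
    unfold VB
    rw [smul_add, smul_add]
    unfold wB zB
    rw [lam_pr, lam_pr]
  rw [e]
  unfold uB wB zB
  abel

lemma eFS (hn : n ≠ 0) : FS (B.supp n + B.supp n) (B.eB ν n) :=
  (B.rFS ν n).add (FS.Bf (B.wFS ν n hn) (B.uFS ν n))

/-- the constant of a block -/
noncomputable def C : ℝ :=
  ‖B.A‖ * N B.a + N B.l + ‖B.bet ν‖ * N B.a + ν * (4 * Real.pi ^ 2) * (sq B.l * sq B.a) * ‖B.A‖ * N B.a

/-- `4 π² ν` -/
noncomputable def cc : ℝ := ν * (4 * Real.pi ^ 2)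

variable {ν}

lemma cc_pos (hν : 0 < ν) : 0 < cc ν := by
  unfold cc
  have := Real.pi_pos
  positivity

lemma C_nonneg (hν : 0 < ν) : 0 ≤ B.C ν := by
  unfold C
  have h1 := sq_nonneg' B.l
  have h2 := sq_nonneg' B.a
  have := Real.pi_pos
  positivity

lemma C_parts (hν : 0 < ν) : ‖B.A‖ * N B.a ≤ B.C ν ∧ (N B.l : ℝ) ≤ B.C ν ∧
    ‖B.bet ν‖ * N B.a ≤ B.C ν ∧ cc ν * (sq B.l * sq B.a) * ‖B.A‖ * N B.a ≤ B.C ν := by
  unfold C cc
  have h1 := sq_nonneg' B.l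
  have h2 := sq_nonneg' B.a
  have := Real.pi_pos
  have a1 : 0 ≤ ‖B.A‖ * N B.a := by positivity
  have a2 : (0 : ℝ) ≤ N B.l := by positivity
  have a3 : 0 ≤ ‖B.bet ν‖ * N B.a := by positivity
  have a4 : 0 ≤ ν * (4 * Real.pi ^ 2) * (sq B.l * sq B.a) * ‖B.A‖ * N B.a := by positivity
  refine ⟨?_, ?_, ?_, ?_⟩ <;> linarith

lemma kk_rate (hν : 0 < ν) : cc ν * (n : ℝ) ^ 2 ≤ lam ν (B.kk n) := by
  rw [lam_kk, ← sq_kap]
  have := B.sq_kap_ge
  have h := cc_pos hν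
  unfold cc at h ⊢
  have h2 : 0 ≤ ν * (4 * Real.pi ^ 2) * (n : ℝ) ^ 2 := by positivity
  nlinarith

lemma kkl_rate (hν : 0 < ν) : cc ν * (n : ℝ) ^ 2 ≤ lam ν (B.kk n + B.l) := by
  rw [lam_kkl]
  have := B.kk_rate n hν
  have := lam_nonneg hν.le B.l
  linarith

lemma Gam_rate (hν : 0 < ν) : cc ν * (n : ℝ) ^ 2 ≤ B.Gam ν n := by
  unfold Gam
  have := B.kk_rate n hν
  have := B.kkl_rate n hν
  have := lam_nonneg hν.le (B.kk n)
  linarith

/-- the common decay -/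
noncomputable def ex (ν : ℝ) (n : ℕ) (t : ℝ) : ℝ := Real.exp (-(cc ν * (n : ℝ) ^ 2 * t))

lemma ex_pos (ν : ℝ) (n : ℕ) (t : ℝ) : 0 < ex ν n t := Real.exp_pos _

lemma ex_le_one (hν : 0 < ν) (n : ℕ) {t : ℝ} (ht : 0 ≤ t) : ex ν n t ≤ 1 := by
  unfold ex
  rw [Real.exp_le_one_iff, neg_nonpos]
  have := cc_pos hν
  positivity

lemma exp_le_ex {γ t : ℝ} (ht : 0 ≤ t) (h : cc ν * (n : ℝ) ^ 2 ≤ γ) :
    Real.exp (-(γ * t)) ≤ ex ν n t := by
  unfold ex
  apply Real.exp_le_exp.2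
  nlinarith

/-- the weight is at most two on the frequencies of the block -/
def Small (b : ℝ) : Prop := om b B.l ≤ 2 ∧ om b (B.kk n) ≤ 2 ∧ om b (B.kk n + B.l) ≤ 2

lemma pr_bd (m : K3) (v : C3) {γ t b D w : ℝ} (ht : 0 ≤ t) (hγ : cc ν * (n : ℝ) ^ 2 ≤ γ)
    (f : K3 → ℝ) (hf : ∀ k, 0 ≤ f k) (hfm : f (-m) = f m) (hw : f m ≤ w) (hv : ‖v‖ ≤ D) :
    ∑' k, f k * ‖pr m v γ k t‖ ≤ 2 * (w * (D * ex ν n t)) := by
  refine (tsum_pr_le m v γ t f hf hfm).trans ?_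
  have h1 := exp_le_ex n ht hγ
  have h2 := ex_pos ν n t
  have h3 := hf m
  have h4 := norm_nonneg v
  have h5 := Real.exp_pos (-(γ * t))
  have h6 : ‖v‖ * Real.exp (-(γ * t)) ≤ D * ex ν n t :=
    mul_le_mul hv h1 h5.le (h4.trans hv)
  have h7 : f m * (‖v‖ * Real.exp (-(γ * t))) ≤ w * (D * ex ν n t) :=
    mul_le_mul hw h6 (by positivity) (h3.trans hw)
  linarith

lemma norm_smul_cz_le (c : ℂ) (a : K3) : ‖c • cz a‖ ≤ ‖c‖ * N a := by
  rw [norm_smul]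
  exact mul_le_mul_of_nonneg_left (norm_cz_le a) (norm_nonneg _)

lemma uB_bd {b : ℝ} (hν : 0 < ν) (hs : B.Small n b) {t : ℝ} (ht : 0 ≤ t) :
    ∑' k, om b k * ‖B.uB ν n k t‖ ≤ 4 * B.C ν * ex ν n t := by
  have hv : ‖(1 / 2 * B.A) • cz B.a‖ ≤ B.C ν := by
    refine (norm_smul_cz_le _ _).trans (le_trans ?_ (B.C_parts hν).1)
    have : ‖(1 / 2 * B.A : ℂ)‖ ≤ ‖B.A‖ := by
      rw [norm_mul]
      have : ‖(1 / 2 : ℂ)‖ = 1 / 2 := by norm_num
      rw [this]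
      linarith [norm_nonneg B.A]
    gcongr
  refine (pr_bd (b := b) n B.l _ ht (B.Gam_rate n hν) (om b) (fun k => (om_pos b k).le)
    (om_neg b _) hs.1 hv).trans (le_of_eq (by ring))

lemma wB_bd {b : ℝ} (hν : 0 < ν) (hs : B.Small n b) {t : ℝ} (ht : 0 ≤ t) :
    ∑' k, om b k * ‖B.wB ν n k t‖ ≤ 4 * B.C ν * n * ex ν n t := by
  have hv : ‖(n / 2 : ℂ) • cz B.l‖ ≤ B.C ν * n := by
    refine (norm_smul_cz_le _ _).trans ?_
    have h1 : ‖(n / 2 : ℂ)‖ = n / 2 := by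
      rw [norm_div, Complex.norm_natCast]
      norm_num
    rw [h1]
    have := (B.C_parts hν).2.1
    have h2 : (0 : ℝ) ≤ n := by positivity
    have h3 : (0 : ℝ) ≤ N B.l := by positivity
    nlinarith [mul_nonneg h2 h3, mul_le_mul_of_nonneg_left this h2]
  refine (pr_bd (b := b) n (B.kk n) _ ht (B.kk_rate n hν) (om b) (fun k => (om_pos b k).le)
    (om_neg b _) hs.2.1 hv).trans (le_of_eq (by ring))

lemma zB_bd {b : ℝ} (hν : 0 < ν) (hs : B.Small n b) {t : ℝ} (ht : 0 ≤ t) :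
    ∑' k, om b k * ‖B.zB ν n k t‖ ≤ 4 * B.C ν * n * ex ν n t := by
  have hv : ‖(n / 2 * B.bet ν : ℂ) • cz B.a‖ ≤ B.C ν * n := by
    refine (norm_smul_cz_le _ _).trans ?_
    have h1 : ‖(n / 2 * B.bet ν : ℂ)‖ = n / 2 * ‖B.bet ν‖ := by
      rw [norm_mul, norm_div, Complex.norm_natCast]
      norm_num
    rw [h1]
    have := (B.C_parts hν).2.2.1
    have h2 : (0 : ℝ) ≤ n := by positivity
    have h3 : (0 : ℝ) ≤ ‖B.bet ν‖ * N B.a := by positivity
    nlinarith [mul_nonneg h2 h3, mul_le_mul_of_nonneg_left this h2]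
  refine (pr_bd (b := b) n (B.kk n + B.l) _ ht (B.kkl_rate n hν) (om b) (fun k => (om_pos b k).le)
    (om_neg b _) hs.2.2 hv).trans (le_of_eq (by ring))

lemma VB_bd {b : ℝ} (hν : 0 < ν) (hn : n ≠ 0) (hs : B.Small n b) {t : ℝ} (ht : 0 ≤ t) :
    ∑' k, om b k * ‖B.VB ν n k t‖ ≤ 12 * B.C ν * n * ex ν n t := by
  have hu := (B.uFS ν n).summ (om b) t
  have hw := (B.wFS ν n hn).summ (om b) t
  have hz := (B.zFS ν n).summ (om b) t
  have h := ((B.VFS ν n hn).summ (om b) t).tsum_le_tsum (fun k => (?_ : _ ≤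
    om b k * ‖B.uB ν n k t‖ + (om b k * ‖B.wB ν n k t‖ + om b k * ‖B.zB ν n k t‖)))
    (hu.add (hw.add hz))
  · rw [hu.tsum_add (hw.add hz), hw.tsum_add hz] at h
    have h1 := B.uB_bd n hν hs ht
    have h2 := B.wB_bd n hν hs ht
    have h3 := B.zB_bd n hν hs ht
    have h4 : (1 : ℝ) ≤ n := by exact_mod_cast Nat.one_le_iff_ne_zero.2 hn
    have h5 := mul_nonneg (B.C_nonneg hν) (ex_pos ν n t).le
    nlinarith
  · rw [← mul_add, ← mul_add]
    refine mul_le_mul_of_nonneg_left ?_ (om_pos b k).le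
    exact (norm_add_le _ _).trans (add_le_add le_rfl (norm_add_le _ _))

lemma rB_bd {b : ℝ} (hb : 0 ≤ b) (hν : 0 < ν) (hn : n ≠ 0) (hs : B.Small n b) {t : ℝ} (ht : 0 ≤ t) :
    ∑' k, FM.mk b k * ‖B.rB ν n k t‖ ≤ 8 * B.C ν * n * ex ν n t := by
  have hv : ‖(((lam ν (B.kk n) : ℝ) : ℂ) * B.A) • cz B.a‖ ≤ B.C ν * (n : ℝ) ^ 2 := by
    refine (norm_smul_cz_le _ _).trans ?_
    rw [norm_mul, Complex.norm_real, Real.norm_of_nonneg (lam_nonneg hν.le _), lam_kk]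
    have := (B.C_parts hν).2.2.2
    have h2 : (0 : ℝ) ≤ (n : ℝ) ^ 2 := by positivity
    have h3 := mul_le_mul_of_nonneg_right this h2
    unfold cc at h3
    refine le_trans (le_of_eq ?_) h3
    ring
  have hn0 : (0 : ℝ) < n := by exact_mod_cast Nat.pos_of_ne_zero hn
  have hm : FM.mk b (B.kk n + (B.kk n + B.l)) ≤ 4 / n := by
    unfold FM.mk
    have h1 : om b (B.kk n + (B.kk n + B.l)) ≤ om b (B.kk n) * om b (B.kk n + B.l) := by
      have := om_le hb (B.kk n + (B.kk n + B.l)) (B.kk n + B.l)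
      rwa [add_sub_cancel_right] at this
    have h2 : om b (B.kk n + (B.kk n + B.l)) ≤ 4 := by
      have := om_pos b (B.kk n)
      have := om_pos b (B.kk n + B.l)
      have := hs.2.1
      have := hs.2.2
      nlinarith
    have h3 := B.N_kk2 n
    exact div_le_div₀ (by norm_num) h2 hn0 h3
  refine (pr_bd (b := b) n _ _ ht (B.Gam_rate n hν) (FM.mk b) (fun k => mk_nonneg b k)
    (mk_neg b _) hm hv).trans (le_of_eq ?_)
  field_simp
  ring

lemma eB_bd {b : ℝ} (hb : 0 ≤ b) (hν : 0 < ν) (hn : n ≠ 0) (hs : B.Small n b) {t : ℝ} (ht : 0 ≤ t) :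
    ∑' k, FM.mk b k * ‖B.eB ν n k t‖ ≤ (8 * B.C ν + 1216 * B.C ν ^ 2) * n * ex ν n t := by
  have hu := (B.uFS ν n).summ (om b) t
  have hw := (B.wFS ν n hn).summ (om b) t
  have h1 := B.rB_bd n hb hν hn hs ht
  have h2 := tsum_mk_Bf hb hw hu
  have s1 := (B.rFS ν n).summ (FM.mk b) t
  have s2 := summable_mk_Bf hb hw hu
  have h := ((B.eFS ν n hn).summ (FM.mk b) t).tsum_le_tsum (fun k => (?_ : _ ≤
    FM.mk b k * ‖B.rB ν n k t‖ + FM.mk b k * ‖Bf (fun l => B.wB ν n l t) (fun l => B.uB ν n l t) k‖))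
    (s1.add s2)
  · rw [s1.tsum_add s2] at h
    have h3 := B.uB_bd n hν hs ht
    have h4 := B.wB_bd n hν hs ht
    have hC := B.C_nonneg hν
    have he := ex_pos ν n t
    have he1 := ex_le_one hν n ht
    have hn0 : (0 : ℝ) ≤ n := by positivity
    have u0 : 0 ≤ ∑' k, om b k * ‖B.uB ν n k t‖ :=
      tsum_nonneg fun k => mul_nonneg (om_pos b k).le (norm_nonneg _)
    have h5 : (∑' k, om b k * ‖B.wB ν n k t‖) * ∑' k, om b k * ‖B.uB ν n k t‖ ≤
        (4 * B.C ν * n * ex ν n t) * (4 * B.C ν * ex ν n t) :=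
      mul_le_mul h4 h3 u0 (by positivity)
    have h6 : (4 * B.C ν * n * ex ν n t) * (4 * B.C ν * ex ν n t) ≤
        16 * B.C ν ^ 2 * n * ex ν n t := by
      have : 0 ≤ 16 * B.C ν ^ 2 * n * ex ν n t := by positivity
      calc (4 * B.C ν * n * ex ν n t) * (4 * B.C ν * ex ν n t) =
          (16 * B.C ν ^ 2 * n * ex ν n t) * ex ν n t := by ring
        _ ≤ (16 * B.C ν ^ 2 * n * ex ν n t) * 1 := by gcongr
        _ = _ := mul_one _
    nlinarith
  · rw [← mul_add]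
    exact mul_le_mul_of_nonneg_left (norm_add_le _ _) (mk_nonneg b k)

end Blk

end Pool.Agent.X97.FM
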