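import Pool.Agent.H459R3.NS.Phys2

/-!
Bessel's inequality on the period cell.
-/

open MeasureTheory Set Filter Topology

namespace Pool.Agent.X97.FM

open H459R3.NS

lemma memLp_ee (k : K3) : MemLp (ee k) 2 (volume.restrict cube) := by
  have := cube_finite
  exact MemLp.of_bound (ee_continuous k).aestronglyMeasurable 1
    (Filter.Eventually.of_forall fun x => (norm_ee k x).le)

lemma inner_ee (k l : K3) : inner ℂ ((memLp_ee k).toLp (ee k)) ((memLp_ee l).toLp (ee l)) =
    if k = l then (1 : ℂ) else 0 := by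
  rw [L2.inner_def]
  have h : ∫ x, inner ℂ ((memLp_ee k).toLp (ee k) x) ((memLp_ee l).toLp (ee l) x)
      ∂(volume.restrict cube) = ∫ x in cube, ee (l - k) x := by
    refine integral_congr_ae ?_
    filter_upwards [(memLp_ee k).coeFn_toLp, (memLp_ee l).coeFn_toLp] with x h1 h2
    rw [h1, h2, RCLike.inner_apply, ← ee_neg, ← ee_add_left, sub_eq_add_neg]
  rw [h, integral_ee]
  by_cases hkl : k = l
  · simp [hkl]
  · rw [if_neg hkl, if_neg (fun h => hkl (sub_eq_zero.1 h).symm)]

lemma orth_ee : Orthonormal ℂ fun k : K3 => (memLp_ee k).toLp (ee k) := by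
  rw [orthonormal_iff_ite]
  exact fun k l => inner_ee k l

lemma bessel {f : V → ℝ} (hf : MemLp f 2 (volume.restrict cube)) :
    Summable fun k => ‖fr f k‖ ^ 2 := by
  have hF : MemLp (fun x => (f x : ℂ)) 2 (volume.restrict cube) := hf.ofReal
  have h := orth_ee.inner_products_summable (x := hF.toLp _)
  refine h.congr fun k => ?_
  congr 2
  rw [L2.inner_def]
  unfold fr fc
  refine integral_congr_ae ?_
  filter_upwards [(memLp_ee k).coeFn_toLp, hF.coeFn_toLp] with x h1 h2
  rw [h1, h2, RCLike.inner_apply, ← ee_neg, mul_comm]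

end Pool.Agent.X97.FM
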