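import Mathlib

/-!
Duhamel's integral with an exponentially decaying kernel, and its weighted `L¹` bounds.
-/

open MeasureTheory Set Filter Topology

namespace Pool.Agent.X97.FM

variable {E : Type*} [NormedAddCommGroup E] [NormedSpace ℝ E] [CompleteSpace E]

/-- Duhamel's integral -/
noncomputable def duh (lam : ℝ) (g : ℝ → E) (t : ℝ) : E :=
  ∫ s in (0:ℝ)..t, Real.exp (-(lam * (t - s))) • g s

omit [CompleteSpace E] in
lemma duh_eq (lam : ℝ) (g : ℝ → E) (t : ℝ) :
    duh lam g t = Real.exp (-(lam * t)) • ∫ s in (0:ℝ)..t, Real.exp (lam * s) • g s := by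
  unfold duh
  rw [← intervalIntegral.integral_smul]
  refine intervalIntegral.integral_congr fun s _ => ?_
  show Real.exp (-(lam * (t - s))) • g s = Real.exp (-(lam * t)) • Real.exp (lam * s) • g s
  rw [smul_smul, ← Real.exp_add]
  congr 2
  ring

omit [CompleteSpace E] in
lemma duh_zero (lam : ℝ) (g : ℝ → E) : duh lam g 0 = 0 := by
  unfold duh
  simp

lemma duh_hasDerivAt (lam : ℝ) {g : ℝ → E} (hg : Continuous g) (t : ℝ) :
    HasDerivAt (duh lam g) (-(lam • duh lam g t) + g t) t := by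
  have hc : Continuous fun s => Real.exp (lam * s) • g s := by fun_prop
  have h1 : HasDerivAt (fun t : ℝ => ∫ s in (0:ℝ)..t, Real.exp (lam * s) • g s)
      (Real.exp (lam * t) • g t) t :=
    intervalIntegral.integral_hasDerivAt_right (hc.intervalIntegrable _ _)
      (hc.stronglyMeasurableAtFilter _ _) hc.continuousAt
  have h2 : HasDerivAt (fun t : ℝ => Real.exp (-(lam * t))) (Real.exp (-(lam * t)) * (-lam)) t := by
    have := ((hasDerivAt_id t).const_mul lam).neg
    simpa using this.exp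
  have h3 := h2.smul h1
  have e : duh lam g = fun t => Real.exp (-(lam * t)) • ∫ s in (0:ℝ)..t, Real.exp (lam * s) • g s :=
    funext fun t => duh_eq lam g t
  rw [e]
  refine h3.congr_deriv ?_
  simp only
  rw [smul_smul, ← Real.exp_add, add_comm]
  have e2 : -(lam * t) + lam * t = 0 := by ring
  rw [e2, Real.exp_zero, one_smul]
  congr 1
  rw [smul_smul, ← neg_smul]
  congr 1
  ring

lemma duh_continuous (lam : ℝ) {g : ℝ → E} (hg : Continuous g) : Continuous (duh lam g) :=
  continuous_iff_continuousAt.2 fun t => (duh_hasDerivAt lam hg t).continuousAt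

omit [CompleteSpace E] in
lemma norm_duh_le (lam : ℝ) (g : ℝ → E) {t : ℝ} (ht : 0 ≤ t) :
    ‖duh lam g t‖ ≤ duh lam (fun s => ‖g s‖) t := by
  unfold duh
  refine (intervalIntegral.norm_integral_le_integral_norm ht).trans (le_of_eq ?_)
  refine intervalIntegral.integral_congr fun s _ => ?_
  simp only
  rw [norm_smul, Real.norm_of_nonneg (Real.exp_pos _).le, smul_eq_mul]

omit [CompleteSpace E] in
lemma duh_sub (lam : ℝ) {f g : ℝ → E} (hf : Continuous f) (hg : Continuous g) (t : ℝ) :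
    duh lam (fun s => f s - g s) t = duh lam f t - duh lam g t := by
  unfold duh
  rw [← intervalIntegral.integral_sub]
  · refine intervalIntegral.integral_congr fun s _ => ?_
    simp only
    rw [smul_sub]
  · exact Continuous.intervalIntegrable (by fun_prop) _ _
  · exact Continuous.intervalIntegrable (by fun_prop) _ _

omit [CompleteSpace E] in
lemma duh_nonneg (lam : ℝ) {g : ℝ → ℝ} (hg : ∀ s, 0 ≤ g s) {t : ℝ} (ht : 0 ≤ t) :
    0 ≤ duh lam g t := by
  unfold duh
  exact intervalIntegral.integral_nonneg ht fun s _ => smul_nonneg (Real.exp_pos _).le (hg s)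

/-- the weight `exp (- M ∫ φ)` -/
noncomputable def rho (M : ℝ) (φ : ℝ → ℝ) (t : ℝ) : ℝ := Real.exp (-(M * ∫ s in (0:ℝ)..t, φ s))

lemma rho_pos (M : ℝ) (φ : ℝ → ℝ) (t : ℝ) : 0 < rho M φ t := Real.exp_pos _

lemma rho_hasDerivAt (M : ℝ) {φ : ℝ → ℝ} (hφ : Continuous φ) (t : ℝ) :
    HasDerivAt (rho M φ) (-(M * φ t) * rho M φ t) t := by
  have h1 : HasDerivAt (fun t : ℝ => ∫ s in (0:ℝ)..t, φ s) (φ t) t :=
    intervalIntegral.integral_hasDerivAt_right (hφ.intervalIntegrable _ _)
      (hφ.stronglyMeasurableAtFilter _ _) hφ.continuousAt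
  have h2 := ((h1.const_mul M).fun_neg).exp
  refine h2.congr_deriv ?_
  unfold rho
  ring

lemma rho_continuous (M : ℝ) {φ : ℝ → ℝ} (hφ : Continuous φ) : Continuous (rho M φ) :=
  continuous_iff_continuousAt.2 fun t => (rho_hasDerivAt M hφ t).continuousAt

lemma rho_le_one {M : ℝ} (hM : 0 ≤ M) {φ : ℝ → ℝ} (h0 : ∀ t, 0 ≤ φ t) {t : ℝ} (ht : 0 ≤ t) :
    rho M φ t ≤ 1 := by
  unfold rho
  rw [Real.exp_le_one_iff, neg_nonpos]
  exact mul_nonneg hM (intervalIntegral.integral_nonneg ht fun s _ => h0 s)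

lemma duh_weight {M lam : ℝ} {φ G : ℝ → ℝ} (hφ : Continuous φ) (hG : Continuous G) (t : ℝ) :
    rho M φ t * duh lam G t + ∫ s in (0:ℝ)..t, (M * φ s + lam) * (rho M φ s * duh lam G s) =
      ∫ s in (0:ℝ)..t, rho M φ s * G s := by
  have hH := duh_continuous lam hG
  have hρ := rho_continuous M hφ
  have hd : ∀ s, HasDerivAt (fun s => rho M φ s * duh lam G s)
      (-((M * φ s + lam) * (rho M φ s * duh lam G s)) + rho M φ s * G s) s := by
    intro s
    refine ((rho_hasDerivAt M hφ s).mul (duh_hasDerivAt lam hG s)).congr_deriv ?_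
    simp only [smul_eq_mul]
    ring
  have h := intervalIntegral.integral_eq_sub_of_hasDerivAt (a := (0:ℝ)) (b := t) (fun s _ => hd s)
    (Continuous.intervalIntegrable (by fun_prop) _ _)
  rw [duh_zero, mul_zero, sub_zero, intervalIntegral.integral_add
    (Continuous.intervalIntegrable (by fun_prop) _ _)
    (Continuous.intervalIntegrable (by fun_prop) _ _), intervalIntegral.integral_neg] at h
  linarith

omit [CompleteSpace E] in
lemma duh_bd1 {M lam : ℝ} (hM : 0 ≤ M) (hlam : 0 ≤ lam) {φ : ℝ → ℝ} (hφ : Continuous φ)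
    (h0 : ∀ t, 0 ≤ φ t) {g : ℝ → E} (hg : Continuous g) {t : ℝ} (ht : 0 ≤ t) :
    rho M φ t * ‖duh lam g t‖ ≤ ∫ s in (0:ℝ)..t, rho M φ s * ‖g s‖ := by
  have h := duh_weight (M := M) (lam := lam) hφ hg.norm t
  have h1 : 0 ≤ ∫ s in (0:ℝ)..t, (M * φ s + lam) * (rho M φ s * duh lam (fun s => ‖g s‖) s) := by
    refine intervalIntegral.integral_nonneg ht fun s hs => ?_
    have := duh_nonneg lam (fun s => norm_nonneg (g s)) hs.1
    have := (rho_pos M φ s).le
    have := mul_nonneg hM (h0 s)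
    positivity
  have h2 := mul_le_mul_of_nonneg_left (norm_duh_le lam g ht) (rho_pos M φ t).le
  linarith

lemma duh_bd2 {M lam : ℝ} (hM : 0 ≤ M) (hlam : 0 ≤ lam) {φ : ℝ → ℝ} (hφ : Continuous φ)
    (h0 : ∀ t, 0 ≤ φ t) {g : ℝ → E} (hg : Continuous g) {t : ℝ} (ht : 0 ≤ t) :
    ∫ s in (0:ℝ)..t, (M * φ s + lam) * (rho M φ s * ‖duh lam g s‖) ≤
      ∫ s in (0:ℝ)..t, rho M φ s * ‖g s‖ := by
  have h := duh_weight (M := M) (lam := lam) hφ hg.norm t
  have hρ := rho_continuous M hφ
  have hc := duh_continuous lam hg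
  have hc' := duh_continuous lam hg.norm
  have h1 : ∫ s in (0:ℝ)..t, (M * φ s + lam) * (rho M φ s * ‖duh lam g s‖) ≤
      ∫ s in (0:ℝ)..t, (M * φ s + lam) * (rho M φ s * duh lam (fun s => ‖g s‖) s) := by
    refine intervalIntegral.integral_mono_on ht (Continuous.intervalIntegrable (by fun_prop) _ _)
      (Continuous.intervalIntegrable (by fun_prop) _ _) fun s hs => ?_
    have := norm_duh_le lam g hs.1
    have h3 := (rho_pos M φ s).le
    have h4 := mul_nonneg hM (h0 s)
    gcongr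
  have h2 : 0 ≤ rho M φ t * duh lam (fun s => ‖g s‖) t :=
    mul_nonneg (rho_pos M φ t).le (duh_nonneg lam (fun s => norm_nonneg _) ht)
  linarith

end Pool.Agent.X97.FM
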