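import Pool.Agent.H459R3.NS.Phys2
import Pool.Agent.X97.FM.Duh

/-!
The quadratic term of the Navier-Stokes equations for the Fourier coefficients.
-/

open MeasureTheory Set Filter Topology

namespace Pool.Agent.X97.FM

open H459R3.NS

/-- complex vectors with the maximum norm -/
abbrev C3 := Fin 3 → ℂ

/-- `k · v` -/
noncomputable def kdot (k : K3) (v : C3) : ℂ := ∑ j, (k j : ℂ) * v j

/-- `|k|²` -/
noncomputable def sq (k : K3) : ℝ := ∑ j, (k j : ℝ) ^ 2

/-- the orthogonal projection to the complement of `k` -/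
noncomputable def lp (k : K3) (v : C3) : C3 := fun i => v i - (k i : ℂ) * (kdot k v / (sq k : ℂ))

/-- the Fourier coefficients of `div (f ⊗ h) / (2 π i)` -/
noncomputable def Qf (f h : K3 → C3) (k : K3) : C3 := ∑' l, kdot k (f (k - l)) • h l

/-- the Fourier coefficients of the projection of `div (f ⊗ h)` to the divergence free fields -/
noncomputable def Bf (f h : K3 → C3) (k : K3) : C3 :=
  lp k ((2 * Real.pi * Complex.I : ℂ) • Qf f h k)

lemma abs_le_N' (k : K3) (m : Fin 3) : |(k m : ℝ)| ≤ N k := by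
  have h := (N_le_iff k (N k)).1 le_rfl m
  exact_mod_cast h

lemma N_add_le (k l : K3) : N (k + l) ≤ N k + N l := by
  rw [N_le_iff]
  intro j
  have h1 := (N_le_iff k (N k)).1 le_rfl j
  have h2 := (N_le_iff l (N l)).1 le_rfl j
  rw [Pi.add_apply]
  push_cast
  exact (abs_add_le _ _).trans (add_le_add h1 h2)

lemma N_le_sub (k l : K3) : (N k : ℝ) ≤ N (k - l) + N l := by
  have h := N_add_le (k - l) l
  rw [sub_add_cancel] at h
  exact_mod_cast h

lemma norm_kdot (k : K3) (v : C3) : ‖kdot k v‖ ≤ 3 * N k * ‖v‖ := by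
  unfold kdot
  refine (norm_sum_le _ _).trans ?_
  have h : ∀ j ∈ (Finset.univ : Finset (Fin 3)), ‖(k j : ℂ) * v j‖ ≤ N k * ‖v‖ := by
    intro j _
    rw [norm_mul]
    exact mul_le_mul (abs_le_N k j) (norm_le_pi_norm v j) (norm_nonneg _) (by positivity)
  refine (Finset.sum_le_sum h).trans (le_of_eq ?_)
  rw [Finset.sum_const, Finset.card_univ, Fintype.card_fin, nsmul_eq_mul]
  push_cast
  ring

lemma N_sq_le (k : K3) : (N k : ℝ) ^ 2 ≤ sq k := by
  have h := N_pow_le k 2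
  simpa [sq, sq_abs] using h

lemma sq_nonneg' (k : K3) : 0 ≤ sq k := Finset.sum_nonneg fun _ _ => sq_nonneg _

lemma sq_pos {k : K3} (hk : k ≠ 0) : 0 < sq k := by
  have h1 : N k ≠ 0 := fun h => hk (N_eq_zero.1 h)
  have h2 : (1 : ℝ) ≤ N k := by exact_mod_cast Nat.one_le_iff_ne_zero.2 h1
  have := N_sq_le k
  nlinarith

lemma kdot_add (k : K3) (v w : C3) : kdot k (v + w) = kdot k v + kdot k w := by
  unfold kdot
  rw [← Finset.sum_add_distrib]
  exact Finset.sum_congr rfl fun j _ => by rw [Pi.add_apply, mul_add]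

lemma kdot_smul (k : K3) (c : ℂ) (v : C3) : kdot k (c • v) = c * kdot k v := by
  unfold kdot
  rw [Finset.mul_sum]
  exact Finset.sum_congr rfl fun j _ => by rw [Pi.smul_apply, smul_eq_mul]; ring

lemma kdot_sub (k : K3) (v w : C3) : kdot k (v - w) = kdot k v - kdot k w := by
  have h := kdot_add k v ((-1 : ℂ) • w)
  rw [kdot_smul] at h
  have e : v + (-1 : ℂ) • w = v - w := by
    rw [neg_one_smul]; rfl
  rw [e] at h
  rw [h]; ring

lemma kdot_zero_left (v : C3) : kdot 0 v = 0 := by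
  unfold kdot
  simp

lemma lp_add (k : K3) (v w : C3) : lp k (v + w) = lp k v + lp k w := by
  funext i
  simp only [lp, Pi.add_apply, kdot_add]
  ring

lemma lp_smul (k : K3) (c : ℂ) (v : C3) : lp k (c • v) = c • lp k v := by
  funext i
  simp only [lp, Pi.smul_apply, kdot_smul, smul_eq_mul]
  ring

lemma lp_sub (k : K3) (v w : C3) : lp k (v - w) = lp k v - lp k w := by
  funext i
  simp only [lp, Pi.sub_apply, kdot_sub]
  ring

lemma kdot_lp (k : K3) (v : C3) : kdot k (lp k v) = 0 := by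
  by_cases hk : k = 0
  · subst hk; exact kdot_zero_left _
  have h0 : (sq k : ℂ) ≠ 0 := by exact_mod_cast (sq_pos hk).ne'
  have e : kdot k (lp k v) = kdot k v - (∑ j, (k j : ℂ) * (k j : ℂ)) * (kdot k v / (sq k : ℂ)) := by
    show ∑ j, (k j : ℂ) * (v j - (k j : ℂ) * (kdot k v / (sq k : ℂ))) = _
    rw [Finset.sum_mul]
    have : kdot k v = ∑ j, (k j : ℂ) * v j := rfl
    conv_rhs => rw [this]
    rw [← Finset.sum_sub_distrib]
    refine Finset.sum_congr rfl fun j _ => ?_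
    rw [← this]
    ring
  have e2 : (∑ j, (k j : ℂ) * (k j : ℂ)) = (sq k : ℂ) := by
    unfold sq
    push_cast
    exact Finset.sum_congr rfl fun j _ => by ring
  rw [e, e2]
  field_simp
  ring

lemma lp_of_kdot {k : K3} {v : C3} (h : kdot k v = 0) : lp k v = v := by
  funext i
  simp [lp, h]

lemma norm_lp (k : K3) (v : C3) : ‖lp k v‖ ≤ 4 * ‖v‖ := by
  rw [pi_norm_le_iff_of_nonneg (by positivity)]
  intro i
  have h1 : ‖(k i : ℂ) * (kdot k v / (sq k : ℂ))‖ ≤ 3 * ‖v‖ := by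
    by_cases hk : k = 0
    · subst hk
      simp
    have hs := sq_pos hk
    rw [norm_mul, norm_div, Complex.norm_real, Real.norm_of_nonneg hs.le, mul_div_assoc',
      div_le_iff₀ hs]
    calc ‖(k i : ℂ)‖ * ‖kdot k v‖ ≤ N k * (3 * N k * ‖v‖) :=
          mul_le_mul (abs_le_N k i) (norm_kdot k v) (norm_nonneg _) (by positivity)
      _ = 3 * ‖v‖ * (N k : ℝ) ^ 2 := by ring
      _ ≤ 3 * ‖v‖ * sq k := by
          gcongr
          exact N_sq_le k
  calc ‖lp k v i‖ ≤ ‖v i‖ + ‖(k i : ℂ) * (kdot k v / (sq k : ℂ))‖ := norm_sub_le _ _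
    _ ≤ ‖v‖ + 3 * ‖v‖ := add_le_add (norm_le_pi_norm v i) h1
    _ = _ := by ring

/-- `(k, l) ↦ (k - l, l)` -/
def shear : K3 × K3 ≃ K3 × K3 where
  toFun p := (p.1 - p.2, p.2)
  invFun p := (p.1 + p.2, p.2)
  left_inv p := by simp
  right_inv p := by simp

lemma conv_summable2 {a b : K3 → ℝ} (ha : Summable a) (hb : Summable b) (ha0 : ∀ k, 0 ≤ a k)
    (hb0 : ∀ k, 0 ≤ b k) : Summable fun p : K3 × K3 => a (p.1 - p.2) * b p.2 := by
  have h := ha.mul_of_nonneg hb ha0 hb0
  have h2 : Summable ((fun x : K3 × K3 => a x.1 * b x.2) ∘ shear) := (Equiv.summable_iff shear).2 h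
  exact h2

lemma conv_summable {a b : K3 → ℝ} (ha : Summable a) (hb : Summable b) (ha0 : ∀ k, 0 ≤ a k)
    (hb0 : ∀ k, 0 ≤ b k) (k : K3) : Summable fun l => a (k - l) * b l :=
  (conv_summable2 ha hb ha0 hb0).prod_factor k

lemma conv_summable1 {a b : K3 → ℝ} (ha : Summable a) (hb : Summable b) (ha0 : ∀ k, 0 ≤ a k)
    (hb0 : ∀ k, 0 ≤ b k) : Summable fun k => ∑' l, a (k - l) * b l :=
  (conv_summable2 ha hb ha0 hb0).prod

lemma conv_tsum {a b : K3 → ℝ} (ha : Summable a) (hb : Summable b) (ha0 : ∀ k, 0 ≤ a k)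
    (hb0 : ∀ k, 0 ≤ b k) : ∑' k, ∑' l, a (k - l) * b l = (∑' k, a k) * ∑' k, b k := by
  have h := conv_summable2 ha hb ha0 hb0
  rw [← h.tsum_prod]
  have h2 := ha.mul_of_nonneg hb ha0 hb0
  rw [ha.tsum_mul_tsum hb h2]
  exact shear.tsum_eq (fun p : K3 × K3 => a p.1 * b p.2)

/-- `exp (b |k|)` -/
noncomputable def om (b : ℝ) (k : K3) : ℝ := Real.exp (b * N k)

lemma om_pos (b : ℝ) (k : K3) : 0 < om b k := Real.exp_pos _

lemma one_le_om {b : ℝ} (hb : 0 ≤ b) (k : K3) : 1 ≤ om b k :=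
  Real.one_le_exp (by positivity)

lemma om_le {b : ℝ} (hb : 0 ≤ b) (k l : K3) : om b k ≤ om b (k - l) * om b l := by
  unfold om
  rw [← Real.exp_add]
  apply Real.exp_le_exp.2
  have := N_le_sub k l
  nlinarith

/-- `exp (b |k|) / |k|` -/
noncomputable def mk (b : ℝ) (k : K3) : ℝ := om b k / N k

lemma mk_nonneg (b : ℝ) (k : K3) : 0 ≤ mk b k := div_nonneg (om_pos b k).le (by positivity)

lemma mk_zero (b : ℝ) : mk b 0 = 0 := by
  unfold mk
  rw [N_eq_zero.2 rfl]
  simp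

lemma N_mul_mk {b : ℝ} {k : K3} (hk : k ≠ 0) : (N k : ℝ) * mk b k = om b k := by
  unfold mk
  have : (N k : ℝ) ≠ 0 := by exact_mod_cast fun h => hk (N_eq_zero.1 h)
  field_simp

lemma N_mk_le (b : ℝ) (k : K3) : (N k : ℝ) * mk b k ≤ om b k := by
  by_cases hk : k = 0
  · subst hk
    rw [mk_zero, mul_zero]
    exact (om_pos b _).le
  · exact (N_mul_mk hk).le

lemma summable_of_om {b : ℝ} (hb : 0 ≤ b) {f : K3 → C3} (hf : Summable fun k => om b k * ‖f k‖) :
    Summable fun k => ‖f k‖ := by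
  refine Summable.of_nonneg_of_le (fun k => norm_nonneg _) (fun k => ?_) hf
  have := one_le_om hb k
  nlinarith [norm_nonneg (f k)]

lemma Qf_summable {f h : K3 → C3} (hf : Summable fun k => ‖f k‖) (hh : Summable fun k => ‖h k‖)
    (k : K3) : Summable fun l => ‖kdot k (f (k - l)) • h l‖ := by
  refine Summable.of_nonneg_of_le (fun l => norm_nonneg _) (fun l => ?_)
    ((conv_summable hf hh (fun _ => norm_nonneg _) (fun _ => norm_nonneg _) k).mul_left (3 * (N k : ℝ)))
  rw [norm_smul]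
  calc ‖kdot k (f (k - l))‖ * ‖h l‖ ≤ (3 * N k * ‖f (k - l)‖) * ‖h l‖ := by
        gcongr
        exact norm_kdot _ _
    _ = _ := by ring

lemma norm_Qf {f h : K3 → C3} (hf : Summable fun k => ‖f k‖) (hh : Summable fun k => ‖h k‖)
    (k : K3) : ‖Qf f h k‖ ≤ 3 * N k * ∑' l, ‖f (k - l)‖ * ‖h l‖ := by
  have hs := Qf_summable hf hh k
  have hc := conv_summable hf hh (fun _ => norm_nonneg _) (fun _ => norm_nonneg _) k
  refine (norm_tsum_le_tsum_norm hs).trans ?_
  rw [← tsum_mul_left]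
  refine hs.tsum_le_tsum (fun l => ?_) (hc.mul_left _)
  rw [norm_smul]
  calc ‖kdot k (f (k - l))‖ * ‖h l‖ ≤ (3 * N k * ‖f (k - l)‖) * ‖h l‖ := by
        gcongr
        exact norm_kdot _ _
    _ = _ := by ring

lemma norm_Bf {f h : K3 → C3} (hf : Summable fun k => ‖f k‖) (hh : Summable fun k => ‖h k‖)
    (k : K3) : ‖Bf f h k‖ ≤ 76 * N k * ∑' l, ‖f (k - l)‖ * ‖h l‖ := by
  unfold Bf
  refine (norm_lp _ _).trans ?_
  rw [norm_smul]
  have h1 : ‖(2 * Real.pi * Complex.I : ℂ)‖ = 2 * Real.pi := by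
    rw [norm_mul, norm_mul, Complex.norm_I, mul_one, Complex.norm_real, Complex.norm_ofNat,
      Real.norm_of_nonneg Real.pi_pos.le]
  rw [h1]
  have h2 := norm_Qf hf hh k
  have h3 : 0 ≤ N k * ∑' l, ‖f (k - l)‖ * ‖h l‖ :=
    mul_nonneg (by positivity) (tsum_nonneg fun l => by positivity)
  have hp := Real.pi_lt_d2
  have hp0 := Real.pi_pos
  calc 4 * (2 * Real.pi * ‖Qf f h k‖) ≤ 4 * (2 * Real.pi * (3 * N k * ∑' l, ‖f (k - l)‖ * ‖h l‖)) := by
        gcongr
    _ = 24 * Real.pi * (N k * ∑' l, ‖f (k - l)‖ * ‖h l‖) := by ring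
    _ ≤ 76 * (N k * ∑' l, ‖f (k - l)‖ * ‖h l‖) := by
        gcongr
        linarith
    _ = _ := by ring

lemma mk_Bf_le {b : ℝ} (hb : 0 ≤ b) {f h : K3 → C3} (hf : Summable fun k => om b k * ‖f k‖)
    (hh : Summable fun k => om b k * ‖h k‖) (k : K3) :
    mk b k * ‖Bf f h k‖ ≤ 76 * ∑' l, (om b (k - l) * ‖f (k - l)‖) * (om b l * ‖h l‖) := by
  have hc := conv_summable hf hh (fun k => mul_nonneg (om_pos b k).le (norm_nonneg _))
    (fun k => mul_nonneg (om_pos b k).le (norm_nonneg _)) k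
  have hc' := conv_summable (summable_of_om hb hf) (summable_of_om hb hh) (fun _ => norm_nonneg _)
    (fun _ => norm_nonneg _) k
  calc mk b k * ‖Bf f h k‖ ≤ mk b k * (76 * N k * ∑' l, ‖f (k - l)‖ * ‖h l‖) := by
        gcongr
        · exact mk_nonneg b k
        · exact norm_Bf (summable_of_om hb hf) (summable_of_om hb hh) k
    _ = 76 * ((N k * mk b k) * ∑' l, ‖f (k - l)‖ * ‖h l‖) := by ring
    _ ≤ 76 * (om b k * ∑' l, ‖f (k - l)‖ * ‖h l‖) := by
        have : 0 ≤ ∑' l, ‖f (k - l)‖ * ‖h l‖ := tsum_nonneg fun l => by positivity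
        gcongr
        exact N_mk_le b k
    _ ≤ 76 * ∑' l, (om b (k - l) * ‖f (k - l)‖) * (om b l * ‖h l‖) := by
        rw [← tsum_mul_left (a := om b k)]
        refine mul_le_mul_of_nonneg_left ((hc'.mul_left _).tsum_le_tsum (fun l => ?_) hc) (by norm_num)
        have := om_le hb k l
        calc om b k * (‖f (k - l)‖ * ‖h l‖) ≤ (om b (k - l) * om b l) * (‖f (k - l)‖ * ‖h l‖) := by
              gcongr
          _ = _ := by ring

lemma summable_mk_Bf {b : ℝ} (hb : 0 ≤ b) {f h : K3 → C3} (hf : Summable fun k => om b k * ‖f k‖)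
    (hh : Summable fun k => om b k * ‖h k‖) : Summable fun k => mk b k * ‖Bf f h k‖ := by
  refine Summable.of_nonneg_of_le (fun k => mul_nonneg (mk_nonneg b k) (norm_nonneg _))
    (mk_Bf_le hb hf hh) ?_
  exact (conv_summable1 hf hh (fun k => mul_nonneg (om_pos b k).le (norm_nonneg _))
    (fun k => mul_nonneg (om_pos b k).le (norm_nonneg _))).mul_left 76

lemma tsum_mk_Bf {b : ℝ} (hb : 0 ≤ b) {f h : K3 → C3} (hf : Summable fun k => om b k * ‖f k‖)
    (hh : Summable fun k => om b k * ‖h k‖) :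
    ∑' k, mk b k * ‖Bf f h k‖ ≤ 76 * ((∑' k, om b k * ‖f k‖) * ∑' k, om b k * ‖h k‖) := by
  have h0f : ∀ k, 0 ≤ om b k * ‖f k‖ := fun k => mul_nonneg (om_pos b k).le (norm_nonneg _)
  have h0h : ∀ k, 0 ≤ om b k * ‖h k‖ := fun k => mul_nonneg (om_pos b k).le (norm_nonneg _)
  rw [← conv_tsum hf hh h0f h0h, ← tsum_mul_left]
  exact (summable_mk_Bf hb hf hh).tsum_le_tsum (mk_Bf_le hb hf hh)
    ((conv_summable1 hf hh h0f h0h).mul_left 76)

lemma Bf_zero_freq (f h : K3 → C3) : Bf f h 0 = 0 := by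
  unfold Bf
  have : Qf f h 0 = 0 := by
    unfold Qf
    simp [kdot_zero_left]
  rw [this, smul_zero]
  funext i
  simp [lp, kdot_zero_left]

lemma kdot_Bf (f h : K3 → C3) (k : K3) : kdot k (Bf f h k) = 0 := kdot_lp _ _

lemma Bf_sub_left {f f' h : K3 → C3} (hf : Summable fun k => ‖f k‖) (hf' : Summable fun k => ‖f' k‖)
    (hh : Summable fun k => ‖h k‖) (k : K3) :
    Bf (fun l => f l - f' l) h k = Bf f h k - Bf f' h k := by
  unfold Bf
  rw [← lp_sub, ← smul_sub]
  congr 2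
  unfold Qf
  rw [← (Qf_summable hf hh k).of_norm.tsum_sub (Qf_summable hf' hh k).of_norm]
  refine tsum_congr fun l => ?_
  rw [kdot_sub, sub_smul]

lemma Bf_sub_right {f h h' : K3 → C3} (hf : Summable fun k => ‖f k‖) (hh : Summable fun k => ‖h k‖)
    (hh' : Summable fun k => ‖h' k‖) (k : K3) :
    Bf f (fun l => h l - h' l) k = Bf f h k - Bf f h' k := by
  unfold Bf
  rw [← lp_sub, ← smul_sub]
  congr 2
  unfold Qf
  rw [← (Qf_summable hf hh k).of_norm.tsum_sub (Qf_summable hf hh' k).of_norm]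
  refine tsum_congr fun l => ?_
  rw [smul_sub]

lemma Bf_add_left {f f' h : K3 → C3} (hf : Summable fun k => ‖f k‖) (hf' : Summable fun k => ‖f' k‖)
    (hh : Summable fun k => ‖h k‖) (k : K3) :
    Bf (fun l => f l + f' l) h k = Bf f h k + Bf f' h k := by
  unfold Bf
  rw [← lp_add, ← smul_add]
  congr 2
  unfold Qf
  rw [← (Qf_summable hf hh k).of_norm.tsum_add (Qf_summable hf' hh k).of_norm]
  refine tsum_congr fun l => ?_
  rw [kdot_add, add_smul]

lemma Bf_add_right {f h h' : K3 → C3} (hf : Summable fun k => ‖f k‖) (hh : Summable fun k => ‖h k‖)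
    (hh' : Summable fun k => ‖h' k‖) (k : K3) :
    Bf f (fun l => h l + h' l) k = Bf f h k + Bf f h' k := by
  unfold Bf
  rw [← lp_add, ← smul_add]
  congr 2
  unfold Qf
  rw [← (Qf_summable hf hh k).of_norm.tsum_add (Qf_summable hf hh' k).of_norm]
  refine tsum_congr fun l => ?_
  rw [smul_add]

/-- conjugation of vectors -/
noncomputable def cj (v : C3) : C3 := fun i => (starRingEnd ℂ) (v i)

/-- the coefficients of a real field -/
def Herm (f : K3 → C3) : Prop := ∀ k, f (-k) = cj (f k)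

lemma kdot_neg_cj (k : K3) (v : C3) : kdot (-k) (cj v) = -(starRingEnd ℂ) (kdot k v) := by
  unfold kdot cj
  rw [map_sum, ← Finset.sum_neg_distrib]
  refine Finset.sum_congr rfl fun j _ => ?_
  rw [map_mul, map_intCast, Pi.neg_apply]
  push_cast
  ring

lemma sq_neg (k : K3) : sq (-k) = sq k := by
  unfold sq
  simp

lemma lp_neg_cj (k : K3) (v : C3) : lp (-k) (cj v) = cj (lp k v) := by
  funext i
  simp only [lp, cj, Pi.neg_apply]
  rw [kdot_neg_cj k v, sq_neg, map_sub, map_mul, map_div₀, map_intCast, Complex.conj_ofReal]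
  push_cast
  ring

lemma norm_cj (v : C3) : ‖cj v‖ = ‖v‖ := by
  refine le_antisymm ?_ ?_
  · rw [pi_norm_le_iff_of_nonneg (norm_nonneg _)]
    intro i
    rw [cj, RCLike.norm_conj]
    exact norm_le_pi_norm v i
  · rw [pi_norm_le_iff_of_nonneg (norm_nonneg _)]
    intro i
    have : ‖v i‖ = ‖cj v i‖ := by rw [cj, RCLike.norm_conj]
    rw [this]
    exact norm_le_pi_norm _ i

lemma Herm_Bf {f h : K3 → C3} (hf : Herm f) (hh : Herm h) (sf : Summable fun k => ‖f k‖)
    (sh : Summable fun k => ‖h k‖) : Herm (Bf f h) := by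
  intro k
  unfold Bf
  have hQ : Qf f h (-k) = -cj (Qf f h k) := by
    unfold Qf
    rw [← (Equiv.neg K3).tsum_eq (fun l => kdot (-k) (f (-k - l)) • h l)]
    funext i
    rw [Pi.neg_apply, cj, tsum_apply, tsum_apply (Qf_summable sf sh k).of_norm]
    · rw [Complex.conj_tsum, ← tsum_neg]
      refine tsum_congr fun l => ?_
      have e1 : f (-k - (Equiv.neg K3) l) = cj (f (k - l)) := by
        rw [← hf (k - l)]
        congr 1
        simp only [Equiv.neg_apply]
        abel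
      have e2 : h ((Equiv.neg K3) l) = cj (h l) := hh l
      rw [e1, e2, kdot_neg_cj, Pi.smul_apply, Pi.smul_apply, smul_eq_mul, smul_eq_mul, map_mul, cj]
      ring
    · have := (Equiv.neg K3).summable_iff.2 (Qf_summable sf sh (-k)).of_norm
      exact this
  rw [hQ, ← lp_neg_cj]
  congr 1
  funext i
  simp only [Pi.smul_apply, Pi.neg_apply, smul_eq_mul, cj, map_mul, Complex.conj_I,
    Complex.conj_ofReal]
  have : (starRingEnd ℂ) 2 = 2 := Complex.conj_ofNat 2
  rw [this]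
  ring

end Pool.Agent.X97.FM
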