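import Pool.Agent.X97.FM.Pair

/-!
The building block: two plane waves of high frequency whose interaction removes a slow mode.
-/

open MeasureTheory Set Filter Topology
open scoped Pointwise

namespace Pool.Agent.X97.FM

open H459R3.NS

/-- the complexification -/
def cz (a : K3) : C3 := fun i => (a i : ℂ)

/-- the inner product of frequencies -/
def ip (k l : K3) : ℤ := ∑ j, k j * l j

lemma kdot_cz (m : K3) (c : ℂ) (a : K3) : kdot m (c • cz a) = c * (ip m a : ℂ) := by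
  rw [kdot_smul]
  congr 1
  unfold kdot cz ip
  push_cast
  rfl

lemma ip_add (k l a : K3) : ip (k + l) a = ip k a + ip l a := by
  unfold ip
  rw [← Finset.sum_add_distrib]
  exact Finset.sum_congr rfl fun j _ => by rw [Pi.add_apply]; ring

lemma ip_neg (k a : K3) : ip (-k) a = -ip k a := by
  unfold ip
  rw [← Finset.sum_neg_distrib]
  exact Finset.sum_congr rfl fun j _ => by rw [Pi.neg_apply]; ring

lemma ip_smul (n : ℤ) (k a : K3) : ip (n • k) a = n * ip k a := by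
  unfold ip
  rw [Finset.mul_sum]
  exact Finset.sum_congr rfl fun j _ => by rw [Pi.smul_apply, smul_eq_mul]; ring

lemma ip_self (k : K3) : ((ip k k : ℤ) : ℝ) = sq k := by
  unfold ip sq
  push_cast
  exact Finset.sum_congr rfl fun j _ => by ring

lemma sq_add (k l : K3) (h : ip k l = 0) : sq (k + l) = sq k + sq l := by
  have h' : ((ip k l : ℤ) : ℝ) = 0 := by rw [h]; simp
  unfold ip at h'
  unfold sq
  push_cast at h'
  simp only [Fin.sum_univ_three, Pi.add_apply] at h' ⊢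
  push_cast
  linarith

lemma sq_zsmul (n : ℤ) (k : K3) : sq (n • k) = (n : ℝ) ^ 2 * sq k := by
  unfold sq
  rw [Finset.mul_sum]
  exact Finset.sum_congr rfl fun j _ => by rw [Pi.smul_apply, smul_eq_mul]; push_cast; ring

lemma cj_cz (c : ℂ) (a : K3) : cj (c • cz a) = (starRingEnd ℂ) c • cz a := by
  funext i
  simp [cj, cz]

lemma norm_cz_le (a : K3) : ‖cz a‖ ≤ N a := by
  rw [pi_norm_le_iff_of_nonneg (by positivity)]
  intro i
  rw [cz, Complex.norm_intCast]
  exact abs_le_N' a i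

lemma sq_le_N (k : K3) : sq k ≤ 3 * (N k : ℝ) ^ 2 := by
  unfold sq
  have h : ∀ j ∈ (Finset.univ : Finset (Fin 3)), (k j : ℝ) ^ 2 ≤ (N k : ℝ) ^ 2 := by
    intro j _
    have := abs_le_N' k j
    rw [← sq_abs]
    gcongr
  refine (Finset.sum_le_sum h).trans (le_of_eq ?_)
  simp

/-- the parameters of a block -/
structure Blk where
  /-- the slow frequency -/
  l : K3
  /-- the direction of the slow mode -/
  a : K3
  /-- the amplitude -/
  A : ℂ
  hl : l ≠ 0
  ha : a ≠ 0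
  hla : ip l a = 0

namespace Blk

variable (ν : ℝ) (B : Blk) (n : ℕ)

/-- the fast direction -/
def kap : K3 := ![B.l 1 * B.a 2 - B.l 2 * B.a 1, B.l 2 * B.a 0 - B.l 0 * B.a 2,
  B.l 0 * B.a 1 - B.l 1 * B.a 0]

lemma kap_l : ip B.kap B.l = 0 := by
  unfold ip kap
  simp [Fin.sum_univ_three]
  ring

lemma kap_a : ip B.kap B.a = 0 := by
  unfold ip kap
  simp [Fin.sum_univ_three]
  ring

lemma sq_kap : sq B.kap = sq B.l * sq B.a := by
  have h : ((ip B.l B.a : ℤ) : ℝ) = 0 := by rw [B.hla]; simp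
  unfold ip at h
  push_cast at h
  unfold sq kap
  simp only [Fin.sum_univ_three] at h ⊢
  simp
  linear_combination (-((B.l 0 : ℝ) * B.a 0 + B.l 1 * B.a 1 + B.l 2 * B.a 2)) * h

lemma sq_ge_one {k : K3} (hk : k ≠ 0) : 1 ≤ sq k := by
  have h1 : N k ≠ 0 := fun h => hk (N_eq_zero.1 h)
  have h2 : (1 : ℝ) ≤ N k := by exact_mod_cast Nat.one_le_iff_ne_zero.2 h1
  have h3 := N_sq_le k
  nlinarith

lemma sq_kap_ge : 1 ≤ sq B.kap := by
  rw [sq_kap]
  have h1 := sq_ge_one B.hl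
  have h2 := sq_ge_one B.ha
  nlinarith

/-- the fast frequency -/
def kk : K3 := (n : ℤ) • B.kap

lemma kk_l : ip (B.kk n) B.l = 0 := by unfold kk; rw [ip_smul, kap_l, mul_zero]

lemma kk_a : ip (B.kk n) B.a = 0 := by unfold kk; rw [ip_smul, kap_a, mul_zero]

lemma lam_kk : lam ν (B.kk n) = ν * (4 * Real.pi ^ 2) * (n : ℝ) ^ 2 * (sq B.l * sq B.a) := by
  unfold lam kk
  rw [sq_zsmul, sq_kap]
  push_cast
  ring

lemma lam_kkl : lam ν (B.kk n + B.l) = lam ν (B.kk n) + lam ν B.l := by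
  unfold lam
  rw [sq_add _ _ (B.kk_l n)]
  ring

/-- the rate of the slow mode -/
noncomputable def Gam : ℝ := lam ν (B.kk n) + lam ν (B.kk n + B.l)

/-- the amplitude of the second wave -/
noncomputable def bet : ℂ := -(8 * Real.pi * Complex.I * ν * sq B.a * B.A)

/-- the slow mode -/
noncomputable def uB : K3 → ℝ → C3 := pr B.l ((1 / 2 * B.A) • cz B.a) (B.Gam ν n)

/-- the first wave -/
noncomputable def wB : K3 → ℝ → C3 := pr (B.kk n) ((n / 2 : ℂ) • cz B.l) (lam ν (B.kk n))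

/-- the second wave -/
noncomputable def zB : K3 → ℝ → C3 :=
  pr (B.kk n + B.l) ((n / 2 * B.bet ν) • cz B.a) (lam ν (B.kk n + B.l))

/-- the remaining fast residual -/
noncomputable def rB : K3 → ℝ → C3 :=
  pr (B.kk n + (B.kk n + B.l)) (((lam ν (B.kk n) : ℝ) * B.A : ℂ) • cz B.a) (B.Gam ν n)

lemma bl_cz {m l a : K3} (h : ip m a = 0) (c d : ℂ) :
    bl m (c • cz l) (d • cz a) = (2 * Real.pi * Complex.I * (c * (ip m l : ℂ)) * d) • cz a := by
  unfold bl
  rw [kdot_cz, smul_smul, lp_of_kdot]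
  rw [kdot_cz, h]
  simp

lemma key_const : 2 * (Real.pi : ℂ) * Complex.I * ((n / 2 : ℂ) * ((ip B.l B.l : ℤ) : ℂ)) *
    (n / 2 * B.bet ν) = ((lam ν (B.kk n) : ℝ) : ℂ) * B.A := by
  rw [lam_kk]
  have h : ((ip B.l B.l : ℤ) : ℂ) = ((sq B.l : ℝ) : ℂ) := by
    rw [← ip_self]; push_cast; rfl
  rw [h]
  unfold bet
  push_cast
  linear_combination (-(4 * (ν : ℂ) * Real.pi ^ 2 * n ^ 2 * sq B.l * sq B.a * B.A)) * Complex.I_sq

lemma pr_zero (m : K3) (γ : ℝ) (k : K3) (t : ℝ) : pr m 0 γ k t = 0 := by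
  unfold pr sg
  rw [cj_zero]
  simp

lemma pr_add (m : K3) (v w : C3) (γ : ℝ) (k : K3) (t : ℝ) :
    pr m (v + w) γ k t = pr m v γ k t + pr m w γ k t := by
  unfold pr sg
  rw [cj_add]
  split_ifs <;> simp [smul_add]
  all_goals abel

lemma cj_real (c : ℝ) (a : K3) : cj ((c : ℂ) • cz a) = (c : ℂ) • cz a := by
  rw [cj_cz, Complex.conj_ofReal]

lemma Bf_wz (k : K3) (t : ℝ) :
    Bf (fun l => B.wB ν n l t) (fun l => B.zB ν n l t) k =
      B.rB ν n k t + pr B.l ((((lam ν (B.kk n) : ℝ) : ℂ) * B.A) • cz B.a) (B.Gam ν n) k t := by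
  unfold wB zB rB Gam
  rw [Bf_pr]
  have e1 : -B.kk n + (B.kk n + B.l) = B.l := by abel
  have e2 : cj ((n / 2 : ℂ) • cz B.l) = (n / 2 : ℂ) • cz B.l := by
    have := cj_real ((n : ℝ) / 2) B.l
    push_cast at this
    exact this
  have hk := B.kk_a n
  have hl := B.kk_l n
  have e3 : ip (B.kk n + (B.kk n + B.l)) B.l = ip B.l B.l := by
    rw [ip_add, ip_add, hl]; ring
  rw [e1, e2, bl_cz (by rw [ip_add, ip_add, hk, B.hla]; ring), bl_cz B.hla, e3, key_const]

lemma main_block (k : K3) (t : ℝ) :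
    (-(B.Gam ν n • B.uB ν n k t) + lam ν k • B.uB ν n k t) +
      Bf (fun l => B.wB ν n l t) (fun l => B.zB ν n l t) k = B.rB ν n k t := by
  rw [Bf_wz]
  have h : (-(B.Gam ν n • B.uB ν n k t) + lam ν k • B.uB ν n k t) +
      pr B.l ((((lam ν (B.kk n) : ℝ) : ℂ) * B.A) • cz B.a) (B.Gam ν n) k t = 0 := by
    unfold uB
    rw [lam_pr, ← neg_smul, ← add_smul, pr_smul, ← pr_add]
    have e : (-B.Gam ν n + lam ν B.l) • ((1 / 2 * B.A) • cz B.a) +
        (((lam ν (B.kk n) : ℝ) : ℂ) * B.A) • cz B.a = 0 := by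
      have : B.Gam ν n = 2 * lam ν (B.kk n) + lam ν B.l := by
        unfold Gam
        rw [lam_kkl]
        ring
      rw [this]
      funext i
      simp only [Pi.add_apply, Pi.smul_apply, Pi.zero_apply, smul_eq_mul, Complex.real_smul]
      push_cast
      ring
    rw [e, pr_zero]
  rw [add_comm (B.rB ν n k t), ← add_assoc, h, zero_add]

lemma Bf_zero_of {m m' : K3} {v v' : C3} {γ γ' : ℝ} (h1 : kdot (m + m') v = 0)
    (h2 : kdot (-m + m') (cj v) = 0) (t : ℝ) (k : K3) :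
    Bf (fun l => pr m v γ l t) (fun l => pr m' v' γ' l t) k = 0 := by
  rw [Bf_pr, bl_of_kdot h1, bl_of_kdot h2, pr_zero, pr_zero, add_zero]

lemma Bf_a_zero {m m' : K3} (h : ip m B.a = 0) (h' : ip m' B.a = 0) (c : ℂ) (v' : C3) (γ γ' : ℝ)
    (t : ℝ) (k : K3) :
    Bf (fun l => pr m (c • cz B.a) γ l t) (fun l => pr m' v' γ' l t) k = 0 := by
  refine Bf_zero_of ?_ ?_ t k
  · rw [kdot_cz, ip_add, h, h']; simp
  · rw [cj_cz, kdot_cz, ip_add, ip_neg, h, h']; simp

lemma kkl_a : ip (B.kk n + B.l) B.a = 0 := by rw [ip_add, kk_a, B.hla, add_zero]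

lemma Bf_ww (t : ℝ) (k : K3) : Bf (fun l => B.wB ν n l t) (fun l => B.wB ν n l t) k = 0 := by
  unfold wB
  refine Bf_zero_of ?_ ?_ t k
  · rw [kdot_cz, ip_add, kk_l]; simp
  · rw [cj_cz, kdot_cz, ip_add, ip_neg, kk_l]; simp

/-- the block -/
noncomputable def VB (k : K3) (t : ℝ) : C3 := B.uB ν n k t + (B.wB ν n k t + B.zB ν n k t)

lemma kk_ne (hn : n ≠ 0) : B.kk n ≠ 0 := by
  intro h
  have h1 : sq (B.kk n) = 0 := by rw [h]; simp [sq]
  unfold kk at h1
  rw [sq_zsmul] at h1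
  have h2 := B.sq_kap_ge
  have h3 : (0:ℝ) < n := by exact_mod_cast Nat.pos_of_ne_zero hn
  have : 0 < ((n : ℤ) : ℝ) ^ 2 * sq B.kap := by push_cast; positivity
  linarith

lemma kkl_ne : B.kk n + B.l ≠ 0 := by
  intro h
  have h1 : sq (B.kk n + B.l) = 0 := by rw [h]; simp [sq]
  rw [sq_add _ _ (B.kk_l n)] at h1
  have h2 := sq_ge_one B.hl
  have h3 := sq_nonneg' (B.kk n)
  linarith

lemma kk2_ip : ip (B.kk n) (B.kk n + B.l) = ip (B.kk n) (B.kk n) := by
  have : ∀ a b c : K3, ip a (b + c) = ip a b + ip a c := by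
    intro a b c
    unfold ip
    rw [← Finset.sum_add_distrib]
    exact Finset.sum_congr rfl fun j _ => by rw [Pi.add_apply]; ring
  rw [this, kk_l, add_zero]

lemma sq_kk2 : sq (B.kk n + (B.kk n + B.l)) = 4 * sq (B.kk n) + sq B.l := by
  have e : B.kk n + (B.kk n + B.l) = (2 : ℤ) • B.kk n + B.l := by
    funext i; simp; ring
  rw [e, sq_add _ _ (by rw [ip_smul, kk_l, mul_zero]), sq_zsmul]
  norm_num

lemma kk2_ne : B.kk n + (B.kk n + B.l) ≠ 0 := by
  intro h
  have h1 : sq (B.kk n + (B.kk n + B.l)) = 0 := by rw [h]; simp [sq]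
  rw [sq_kk2] at h1
  have h2 := sq_ge_one B.hl
  have h3 := sq_nonneg' (B.kk n)
  linarith

lemma N_kk2 : (n : ℝ) ≤ N (B.kk n + (B.kk n + B.l)) := by
  have h1 := sq_le_N (B.kk n + (B.kk n + B.l))
  rw [sq_kk2] at h1
  have h2 : (n : ℝ) ^ 2 ≤ sq (B.kk n) := by
    unfold kk
    rw [sq_zsmul]
    have := B.sq_kap_ge
    push_cast
    nlinarith [sq_nonneg (n : ℝ)]
  have h3 := sq_nonneg' B.l
  have h4 : (n : ℝ) ^ 2 ≤ (N (B.kk n + (B.kk n + B.l)) : ℝ) ^ 2 := by nlinarith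
  exact le_of_sq_le_sq' h4
where
  le_of_sq_le_sq' {x y : ℕ} (h : (x : ℝ) ^ 2 ≤ (y : ℝ) ^ 2) : (x : ℝ) ≤ y :=
    (sq_le_sq₀ (by positivity) (by positivity)).1 h

lemma N_kk : (n : ℝ) ≤ N (B.kk n) := by
  have h2 : N (B.kk n) = n * N B.kap := by
    refine le_antisymm ?_ ?_
    · rw [N_le_iff]
      intro j
      have h := (N_le_iff B.kap (N B.kap)).1 le_rfl j
      unfold kk
      rw [Pi.smul_apply, smul_eq_mul, abs_mul]
      push_cast
      have : |(n : ℤ)| = n := by simp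
      rw [this]
      gcongr
    · obtain ⟨j, -, hj⟩ := Finset.exists_mem_eq_sup (Finset.univ : Finset (Fin 3))
        ⟨0, Finset.mem_univ 0⟩ (fun j => (B.kap j).natAbs)
      have h3 : N B.kap = (B.kap j).natAbs := hj
      have h4 := (N_le_iff (B.kk n) (N (B.kk n))).1 le_rfl j
      unfold kk at h4
      rw [Pi.smul_apply, smul_eq_mul, abs_mul] at h4
      rw [h3]
      have h5 : ((n * (B.kap j).natAbs : ℕ) : ℤ) ≤ N (B.kk n) := by
        push_cast
        simpa [kk] using h4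
      exact_mod_cast h5
  rw [h2]
  have h3 : N B.kap ≠ 0 := fun h => by
    have := N_eq_zero.1 h
    have h4 := B.sq_kap_ge
    rw [this] at h4
    simp [sq] at h4
    linarith
  have h4 : (1 : ℝ) ≤ N B.kap := by exact_mod_cast Nat.one_le_iff_ne_zero.2 h3
  push_cast
  have h5 : (0:ℝ) ≤ n := by positivity
  nlinarith

end Blk

end Pool.Agent.X97.FM
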