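import Pool.Agent.X97.FM.Bil

/-!
The contraction estimate for the sources of the perturbation.
-/

open MeasureTheory Set Filter Topology

namespace Pool.Agent.X97.FM

open H459R3.NS

/-- continuous families with finitely many frequencies, without mean -/
structure FS (S : Finset K3) (g : K3 → ℝ → C3) : Prop where
  cont : ∀ k, Continuous (g k)
  supp : ∀ k, k ∉ S → ∀ t, g k t = 0
  zero : ∀ t, g 0 t = 0

lemma FS.mono {S S' : Finset K3} (h : S ⊆ S') {g : K3 → ℝ → C3} (hg : FS S g) : FS S' g :=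
  ⟨hg.cont, fun k hk => hg.supp k fun h' => hk (h h'), hg.zero⟩

lemma FS.sub {S : Finset K3} {g g' : K3 → ℝ → C3} (hg : FS S g) (hg' : FS S g') :
    FS S (fun k t => g k t - g' k t) :=
  ⟨fun k => (hg.cont k).sub (hg'.cont k), fun k hk t => by rw [hg.supp k hk, hg'.supp k hk, sub_zero],
    fun t => by rw [hg.zero, hg'.zero, sub_zero]⟩

lemma FS.add {S : Finset K3} {g g' : K3 → ℝ → C3} (hg : FS S g) (hg' : FS S g') :
    FS S (fun k t => g k t + g' k t) :=
  ⟨fun k => (hg.cont k).add (hg'.cont k), fun k hk t => by rw [hg.supp k hk, hg'.supp k hk, add_zero],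
    fun t => by rw [hg.zero, hg'.zero, add_zero]⟩

lemma FS.summ {S : Finset K3} {g : K3 → ℝ → C3} (hg : FS S g) (w : K3 → ℝ) (t : ℝ) :
    Summable fun k => w k * ‖g k t‖ :=
  summable_of_ne_finset_zero (s := S) fun k hk => by rw [hg.supp k hk, norm_zero, mul_zero]

lemma FS.summ' {S : Finset K3} {g : K3 → ℝ → C3} (hg : FS S g) (t : ℝ) :
    Summable fun k => ‖g k t‖ :=
  summable_of_ne_finset_zero (s := S) fun k hk => by rw [hg.supp k hk, norm_zero]

lemma tsum_int {F : K3 → ℝ → ℝ} {S : Finset K3} (hF : ∀ k, Continuous (F k))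
    (hS : ∀ k, k ∉ S → ∀ s, F k s = 0) (t : ℝ) :
    ∫ s in (0:ℝ)..t, ∑' k, F k s = ∑' k, ∫ s in (0:ℝ)..t, F k s := by
  have e1 : ∀ s, ∑' k, F k s = ∑ k ∈ S, F k s := fun s => tsum_eq_sum fun k hk => hS k hk s
  have e2 : ∑' k, ∫ s in (0:ℝ)..t, F k s = ∑ k ∈ S, ∫ s in (0:ℝ)..t, F k s :=
    tsum_eq_sum fun k hk => by simp [hS k hk]
  simp only [e1]
  rw [e2, intervalIntegral.integral_finsetSum fun k _ => (hF k).intervalIntegrable _ _]

lemma tsum_cont {F : K3 → ℝ → ℝ} {S : Finset K3} (hF : ∀ k, Continuous (F k))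
    (hS : ∀ k, k ∉ S → ∀ s, F k s = 0) : Continuous fun s => ∑' k, F k s := by
  have e1 : (fun s => ∑' k, F k s) = fun s => ∑ k ∈ S, F k s :=
    funext fun s => tsum_eq_sum fun k hk => hS k hk s
  rw [e1]
  exact continuous_finsetSum _ fun k _ => hF k

lemma summ_fin {F : K3 → ℝ} {S : Finset K3} (hS : ∀ k, k ∉ S → F k = 0) : Summable F :=
  summable_of_ne_finset_zero (s := S) hS

/-- product of sums by the arithmetic-geometric mean inequality -/
lemma amgm {a c : K3 → ℝ} {S : Finset K3} {b : ℝ} (ha : ∀ k, 0 ≤ a k) (hc : ∀ k, 0 ≤ c k)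
    (hS : ∀ k, k ∉ S → a k = 0) (hS' : ∀ k, k ∉ S → c k = 0) (ha0 : a 0 = 0) (hc0 : c 0 = 0) :
    (∑' k, om b k * a k) * (∑' k, om b k * c k) ≤
      ((∑' k, (N k : ℝ) ^ 2 * mk b k * a k) * (∑' k, mk b k * c k) +
        (∑' k, mk b k * a k) * (∑' k, (N k : ℝ) ^ 2 * mk b k * c k)) / 2 := by
  have e1 : ∑' k, om b k * a k = ∑ k ∈ S, (N k : ℝ) * mk b k * a k := by
    rw [tsum_eq_sum (s := S) fun k hk => by rw [hS k hk, mul_zero]]
    refine Finset.sum_congr rfl fun k _ => ?_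
    by_cases hk : k = 0
    · rw [hk, ha0]; simp
    · rw [N_mul_mk hk]
  have e2 : ∑' k, om b k * c k = ∑ k ∈ S, (N k : ℝ) * mk b k * c k := by
    rw [tsum_eq_sum (s := S) fun k hk => by rw [hS' k hk, mul_zero]]
    refine Finset.sum_congr rfl fun k _ => ?_
    by_cases hk : k = 0
    · rw [hk, hc0]; simp
    · rw [N_mul_mk hk]
  rw [e1, e2, tsum_eq_sum (s := S) (f := fun k => (N k : ℝ) ^ 2 * mk b k * a k)
      fun k hk => by rw [hS k hk, mul_zero],
    tsum_eq_sum (s := S) (f := fun k => mk b k * c k) fun k hk => by rw [hS' k hk, mul_zero],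
    tsum_eq_sum (s := S) (f := fun k => mk b k * a k) fun k hk => by rw [hS k hk, mul_zero],
    tsum_eq_sum (s := S) (f := fun k => (N k : ℝ) ^ 2 * mk b k * c k)
      fun k hk => by rw [hS' k hk, mul_zero],
    Finset.sum_mul_sum, Finset.sum_mul_sum, Finset.sum_mul_sum, ← Finset.sum_add_distrib,
    le_div_iff₀ (by norm_num : (0:ℝ) < 2), Finset.sum_mul]
  refine Finset.sum_le_sum fun k _ => ?_
  rw [← Finset.sum_add_distrib, Finset.sum_mul]
  refine Finset.sum_le_sum fun l _ => ?_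
  have h1 : 0 ≤ mk b k * a k * (mk b l * c l) :=
    mul_nonneg (mul_nonneg (mk_nonneg b k) (ha k)) (mul_nonneg (mk_nonneg b l) (hc l))
  have h2 := mul_nonneg (sq_nonneg ((N k : ℝ) - N l)) h1
  nlinarith

/-- `ν |2 π k|²` -/
noncomputable def lam (ν : ℝ) (k : K3) : ℝ := ν * (4 * Real.pi ^ 2 * sq k)

lemma lam_ge {ν : ℝ} (hν : 0 ≤ ν) (k : K3) : 39 * ν * (N k : ℝ) ^ 2 ≤ lam ν k := by
  unfold lam
  have h1 := N_sq_le k
  have h2 : 39 ≤ 4 * Real.pi ^ 2 := by
    have := Real.pi_gt_d2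
    nlinarith
  calc 39 * ν * (N k : ℝ) ^ 2 = ν * (39 * (N k : ℝ) ^ 2) := by ring
    _ ≤ ν * (4 * Real.pi ^ 2 * sq k) := by gcongr

lemma lam_nonneg {ν : ℝ} (hν : 0 ≤ ν) (k : K3) : 0 ≤ lam ν k := by
  have := lam_ge hν k
  have : 0 ≤ 39 * ν * (N k : ℝ) ^ 2 := by positivity
  linarith

/-- the solution of the linear equation with the source `-g` -/
noncomputable def Tm (ν : ℝ) (g : K3 → ℝ → C3) (k : K3) (t : ℝ) : C3 := -duh (lam ν k) (g k) t

lemma FS.Tm {S : Finset K3} {g : K3 → ℝ → C3} (hg : FS S g) (ν : ℝ) : FS S (Tm ν g) := by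
  refine ⟨fun k => (duh_continuous _ (hg.cont k)).neg, fun k hk t => ?_, fun t => ?_⟩
  · unfold FM.Tm duh
    simp [hg.supp k hk]
  · unfold FM.Tm duh
    simp [hg.zero]

lemma Tm_sub {S : Finset K3} {g g' : K3 → ℝ → C3} (hg : FS S g) (hg' : FS S g') (ν : ℝ) (k : K3)
    (t : ℝ) : Tm ν (fun k t => g k t - g' k t) k t = Tm ν g k t - Tm ν g' k t := by
  unfold Tm
  rw [duh_sub _ (hg.cont k) (hg'.cont k)]
  abel

/-- the weighted `L¹` norm of the source -/
noncomputable def DD (b M : ℝ) (φ : ℝ → ℝ) (t : ℝ) (g : K3 → ℝ → C3) : ℝ :=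
  ∑' k, mk b k * ∫ s in (0:ℝ)..t, rho M φ s * ‖g k s‖

section
variable {b M ν : ℝ} {φ : ℝ → ℝ} {S : Finset K3}

lemma DD_summ {g : K3 → ℝ → C3} (hg : FS S g) (t : ℝ) :
    Summable fun k => mk b k * ∫ s in (0:ℝ)..t, rho M φ s * ‖g k s‖ :=
  summ_fin (S := S) fun k hk => by simp [hg.supp k hk]

lemma DD_int (hφ : Continuous φ) {g : K3 → ℝ → C3} (hg : FS S g) (t : ℝ) :
    DD b M φ t g = ∫ s in (0:ℝ)..t, rho M φ s * ∑' k, mk b k * ‖g k s‖ := by
  have hρ := rho_continuous M hφ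
  have h := tsum_int (S := S) (F := fun k s => mk b k * (rho M φ s * ‖g k s‖))
    (fun k => by have := hg.cont k; fun_prop) (fun k hk s => by rw [hg.supp k hk]; simp) t
  unfold DD
  simp only [intervalIntegral.integral_const_mul] at h
  rw [← h]
  refine intervalIntegral.integral_congr fun s _ => ?_
  rw [← tsum_mul_left]
  exact tsum_congr fun k => by ring

lemma DD_nonneg {g : K3 → ℝ → C3} {t : ℝ} (ht : 0 ≤ t) : 0 ≤ DD b M φ t g :=
  tsum_nonneg fun k => mul_nonneg (mk_nonneg b k)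
    (intervalIntegral.integral_nonneg ht fun s _ => mul_nonneg (rho_pos M φ s).le (norm_nonneg _))

lemma DD_mono (hφ : Continuous φ) {g : K3 → ℝ → C3} (hg : FS S g) {s t : ℝ} (hs : 0 ≤ s)
    (hst : s ≤ t) : DD b M φ s g ≤ DD b M φ t g := by
  have hρ := rho_continuous M hφ
  unfold DD
  refine (DD_summ hg s).tsum_le_tsum (fun k => ?_) (DD_summ hg t)
  refine mul_le_mul_of_nonneg_left ?_ (mk_nonneg b k)
  refine intervalIntegral.integral_mono_interval le_rfl hs hst ?_ ?_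
  · exact Filter.Eventually.of_forall fun s => mul_nonneg (rho_pos M φ s).le (norm_nonneg _)
  · have := hg.cont k
    exact Continuous.intervalIntegrable (by fun_prop) _ _

lemma DD_single {g : K3 → ℝ → C3} (hg : FS S g) {t : ℝ} (ht : 0 ≤ t) (k : K3) :
    mk b k * ∫ s in (0:ℝ)..t, rho M φ s * ‖g k s‖ ≤ DD b M φ t g :=
  (DD_summ hg t).le_tsum k fun j _ => mul_nonneg (mk_nonneg b j)
    (intervalIntegral.integral_nonneg ht fun s _ => mul_nonneg (rho_pos M φ s).le (norm_nonneg _))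

lemma DD_add (hφ : Continuous φ) {g g' : K3 → ℝ → C3} (hg : FS S g) (hg' : FS S g') {t : ℝ}
    (ht : 0 ≤ t) : DD b M φ t (fun k t => g k t + g' k t) ≤ DD b M φ t g + DD b M φ t g' := by
  have hρ := rho_continuous M hφ
  unfold DD
  rw [← (DD_summ hg t).tsum_add (DD_summ hg' t)]
  refine (DD_summ (hg.add hg') t).tsum_le_tsum (fun k => ?_)
    ((DD_summ hg t).add (DD_summ hg' t))
  have h1 := hg.cont k
  have h2 := hg'.cont k
  rw [← mul_add, ← intervalIntegral.integral_add (Continuous.intervalIntegrable (by fun_prop) _ _)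
    (Continuous.intervalIntegrable (by fun_prop) _ _)]
  refine mul_le_mul_of_nonneg_left ?_ (mk_nonneg b k)
  refine intervalIntegral.integral_mono_on ht (Continuous.intervalIntegrable (by fun_prop) _ _)
    (Continuous.intervalIntegrable (by fun_prop) _ _) fun s _ => ?_
  rw [← mul_add]
  exact mul_le_mul_of_nonneg_left (norm_add_le _ _) (rho_pos M φ s).le

/-- first bound for the solution of the linear equation -/
lemma Tm_bd1 (hM : 0 ≤ M) (hν : 0 ≤ ν) (hφ : Continuous φ) (h0 : ∀ t, 0 ≤ φ t)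
    {g : K3 → ℝ → C3} (hg : FS S g) {t : ℝ} (ht : 0 ≤ t) :
    rho M φ t * ∑' k, mk b k * ‖Tm ν g k t‖ ≤ DD b M φ t g := by
  rw [← tsum_mul_left]
  unfold DD
  refine Summable.tsum_le_tsum (fun k => ?_) (((hg.Tm ν).summ (mk b) t).mul_left _) (DD_summ hg t)
  have h := duh_bd1 hM (lam_nonneg hν k) hφ h0 (hg.cont k) ht
  unfold Tm
  rw [norm_neg]
  calc rho M φ t * (mk b k * ‖duh (lam ν k) (g k) t‖) =
      mk b k * (rho M φ t * ‖duh (lam ν k) (g k) t‖) := by ring
    _ ≤ _ := mul_le_mul_of_nonneg_left h (mk_nonneg b k)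

/-- second bound for the solution of the linear equation -/
lemma Tm_bd2 (hM : 0 ≤ M) (hν : 0 ≤ ν) (hφ : Continuous φ) (h0 : ∀ t, 0 ≤ φ t)
    {g : K3 → ℝ → C3} (hg : FS S g) {t : ℝ} (ht : 0 ≤ t) :
    ∫ s in (0:ℝ)..t, rho M φ s * ∑' k, mk b k * ((M * φ s + lam ν k) * ‖Tm ν g k s‖) ≤
      DD b M φ t g := by
  have hρ := rho_continuous M hφ
  have e : ∫ s in (0:ℝ)..t, rho M φ s * ∑' k, mk b k * ((M * φ s + lam ν k) * ‖Tm ν g k s‖) =
      ∑' k, mk b k * ∫ s in (0:ℝ)..t, (M * φ s + lam ν k) * (rho M φ s * ‖Tm ν g k s‖) := by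
    have h := tsum_int (S := S)
      (F := fun k s => mk b k * ((M * φ s + lam ν k) * (rho M φ s * ‖Tm ν g k s‖)))
      (fun k => by have := (hg.Tm ν).cont k; fun_prop)
      (fun k hk s => by rw [(hg.Tm ν).supp k hk]; simp) t
    simp only [intervalIntegral.integral_const_mul] at h
    rw [← h]
    refine intervalIntegral.integral_congr fun s _ => ?_
    rw [← tsum_mul_left]
    exact tsum_congr fun k => by ring
  rw [e]
  unfold DD
  refine Summable.tsum_le_tsum (fun k => ?_) (summ_fin (S := S) fun k hk => by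
    simp [(hg.Tm ν).supp k hk]) (DD_summ hg t)
  have h := duh_bd2 hM (lam_nonneg hν k) hφ h0 (hg.cont k) ht
  have e2 : ∀ s, ‖Tm ν g k s‖ = ‖duh (lam ν k) (g k) s‖ := fun s => by unfold Tm; rw [norm_neg]
  simp only [e2]
  exact mul_le_mul_of_nonneg_left h (mk_nonneg b k)

/-- the bound of the strong norm -/
lemma Tm_bd3 (hM : 0 ≤ M) (hν : 0 < ν) (hφ : Continuous φ) (h0 : ∀ t, 0 ≤ φ t)
    {g : K3 → ℝ → C3} (hg : FS S g) {t : ℝ} (ht : 0 ≤ t) :
    ∫ s in (0:ℝ)..t, rho M φ s * ∑' k, (N k : ℝ) ^ 2 * mk b k * ‖Tm ν g k s‖ ≤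
      DD b M φ t g / (39 * ν) := by
  have hρ := rho_continuous M hφ
  rw [le_div_iff₀ (by positivity), ← intervalIntegral.integral_mul_const]
  refine le_trans ?_ (Tm_bd2 hM hν.le hφ h0 hg ht)
  have c1 : Continuous fun s => ∑' k, (N k : ℝ) ^ 2 * mk b k * ‖Tm ν g k s‖ :=
    tsum_cont (S := S) (fun k => by have := (hg.Tm ν).cont k; fun_prop)
      (fun k hk s => by rw [(hg.Tm ν).supp k hk]; simp)
  have c2 : Continuous fun s => ∑' k, mk b k * ((M * φ s + lam ν k) * ‖Tm ν g k s‖) :=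
    tsum_cont (S := S) (fun k => by have := (hg.Tm ν).cont k; fun_prop)
      (fun k hk s => by rw [(hg.Tm ν).supp k hk]; simp)
  refine intervalIntegral.integral_mono_on ht (Continuous.intervalIntegrable (by fun_prop) _ _)
    (Continuous.intervalIntegrable (by fun_prop) _ _) fun s _ => ?_
  rw [mul_assoc]
  refine mul_le_mul_of_nonneg_left ?_ (rho_pos M φ s).le
  rw [← tsum_mul_right]
  refine Summable.tsum_le_tsum (fun k => ?_) (summ_fin (S := S) fun k hk => by
    simp [(hg.Tm ν).supp k hk]) (summ_fin (S := S) fun k hk => by simp [(hg.Tm ν).supp k hk])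
  have h1 := lam_ge hν.le k
  have h2 := mul_nonneg hM (h0 s)
  have h3 := mk_nonneg b k
  calc (N k : ℝ) ^ 2 * mk b k * ‖Tm ν g k s‖ * (39 * ν) =
      mk b k * ((39 * ν * (N k : ℝ) ^ 2) * ‖Tm ν g k s‖) := by ring
    _ ≤ _ := by
        gcongr
        linarith

end

end Pool.Agent.X97.FM
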