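import Pool.Agent.X97.FM.Time

/-!
The choice of the parameters.
-/

open MeasureTheory Set Filter Topology
open scoped Pointwise

namespace Pool.Agent.X97.FM

open H459R3.NS Blk

lemma wv_bd (B : Blk) (n : ℕ) {ν : ℝ} (hν : 0 < ν) : ‖(n / 2 : ℂ) • cz B.l‖ ≤ B.C ν * n := by
  refine (norm_smul_cz_le _ _).trans ?_
  have h1 : ‖(n / 2 : ℂ)‖ = n / 2 := by
    rw [norm_div, Complex.norm_natCast]
    norm_num
  rw [h1]
  have := (B.C_parts hν).2.1
  have h2 : (0 : ℝ) ≤ n := by positivity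
  have h3 : (0 : ℝ) ≤ N B.l := by positivity
  nlinarith [mul_nonneg h2 h3, mul_le_mul_of_nonneg_left this h2]

lemma zv_bd (B : Blk) (n : ℕ) {ν : ℝ} (hν : 0 < ν) :
    ‖(n / 2 * B.bet ν : ℂ) • cz B.a‖ ≤ B.C ν * n := by
  refine (norm_smul_cz_le _ _).trans ?_
  have h1 : ‖(n / 2 * B.bet ν : ℂ)‖ = n / 2 * ‖B.bet ν‖ := by
    rw [norm_mul, norm_div, Complex.norm_natCast]
    norm_num
  rw [h1]
  have := (B.C_parts hν).2.2.1
  have h2 : (0 : ℝ) ≤ n := by positivity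
  have h3 : (0 : ℝ) ≤ ‖B.bet ν‖ * N B.a := by positivity
  nlinarith [mul_nonneg h2 h3, mul_le_mul_of_nonneg_left this h2]

/-- the weight of `H^(-s)` -/
noncomputable def gw (s : ℝ) (k : K3) : ℝ := (1 + sq k) ^ (-(s / 2))

lemma gw_nonneg (s : ℝ) (k : K3) : 0 ≤ gw s k :=
  Real.rpow_nonneg (by have := sq_nonneg' k; linarith) _

lemma gw_neg (s : ℝ) (k : K3) : gw s (-k) = gw s k := by unfold gw; rw [sq_neg]

lemma gw_le {s : ℝ} (hs : 0 ≤ s) {k : K3} {n : ℕ} (hn : n ≠ 0) (h : (n : ℝ) ^ 2 ≤ sq k) :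
    gw s k ≤ (n : ℝ) ^ (-s) := by
  have hn0 : (0 : ℝ) < n := by exact_mod_cast Nat.pos_of_ne_zero hn
  have h1 : gw s k ≤ ((n : ℝ) ^ 2) ^ (-(s / 2)) := by
    unfold gw
    exact Real.rpow_le_rpow_of_nonpos (by positivity) (by linarith) (by linarith)
  refine h1.trans (le_of_eq ?_)
  rw [← Real.rpow_natCast, ← Real.rpow_mul hn0.le]
  congr 1
  push_cast
  ring

lemma sq_kk_ge (B : Blk) (n : ℕ) : (n : ℝ) ^ 2 ≤ sq (B.kk n) := by
  unfold kk
  rw [sq_zsmul]
  have := B.sq_kap_ge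
  push_cast
  nlinarith [sq_nonneg (n : ℝ)]

lemma sq_kkl_ge (B : Blk) (n : ℕ) : (n : ℝ) ^ 2 ≤ sq (B.kk n + B.l) := by
  rw [sq_add _ _ (B.kk_l n)]
  have := sq_kk_ge B n
  have := sq_nonneg' B.l
  linarith

lemma ex_zero (ν : ℝ) (n : ℕ) : ex ν n 0 = 1 := by
  unfold ex
  simp

lemma fast_bd (B : Blk) {ν s : ℝ} (hν : 0 < ν) (hs : 1 ≤ s) {n : ℕ} (hn : n ≠ 0) {R : ℝ}
    (hR : 0 < R) (hRn : R ≤ n) :
    ∑' k, gw s k * ‖B.wB ν n k 0‖ ≤ 2 * (B.C ν * R ^ (1 - s)) ∧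
      ∑' k, gw s k * ‖B.zB ν n k 0‖ ≤ 2 * (B.C ν * R ^ (1 - s)) := by
  have hn0 : (0 : ℝ) < n := by exact_mod_cast Nat.pos_of_ne_zero hn
  have hC := B.C_nonneg hν
  have h3 : (n : ℝ) ^ (-s) * ((B.C ν * n) * ex ν n 0) ≤ B.C ν * R ^ (1 - s) := by
    rw [ex_zero, mul_one]
    have e : (n : ℝ) ^ (-s) * (B.C ν * n) = B.C ν * (n : ℝ) ^ (1 - s) := by
      have : (n : ℝ) ^ (1 - s) = (n : ℝ) ^ (-s) * n := by
        rw [show (1 - s) = -s + 1 by ring, Real.rpow_add hn0, Real.rpow_one]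
      rw [this]
      ring
    rw [e]
    exact mul_le_mul_of_nonneg_left (Real.rpow_le_rpow_of_nonpos hR hRn (by linarith)) hC
  constructor
  · refine (pr_bd (b := 0) n (B.kk n) _ le_rfl (B.kk_rate n hν) (gw s) (gw_nonneg s)
      (gw_neg s _) (gw_le (by linarith) hn (sq_kk_ge B n)) (wv_bd B n hν)).trans ?_
    linarith
  · refine (pr_bd (b := 0) n (B.kk n + B.l) _ le_rfl (B.kkl_rate n hν) (gw s) (gw_nonneg s)
      (gw_neg s _) (gw_le (by linarith) hn (sq_kkl_ge B n)) (zv_bd B n hν)).trans ?_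
    linarith

lemma wB_zero_low (B : Blk) (ν : ℝ) {n K : ℕ} (hK : K < n) {k : K3} (hk : N k ≤ K) (t : ℝ) :
    B.wB ν n k t = 0 := by
  have h := B.N_kk n
  have h' : n ≤ N (B.kk n) := by exact_mod_cast h
  unfold wB pr
  rw [sg_zero_of_ne, sg_zero_of_ne, add_zero]
  · intro e
    have : N k = N (B.kk n) := by rw [e, N_neg]
    omega
  · intro e
    have : N k = N (B.kk n) := by rw [e]
    omega

lemma zB_zero_low (B : Blk) (ν : ℝ) {n K : ℕ} (hK : 2 * K < n) (hl : N B.l ≤ K) {k : K3}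
    (hk : N k ≤ K) (t : ℝ) : B.zB ν n k t = 0 := by
  have h := B.N_kk n
  have h' : n ≤ N (B.kk n) := by exact_mod_cast h
  have h2 : N (B.kk n) ≤ N (B.kk n + B.l) + N B.l := by
    have := N_add_le (B.kk n + B.l) (-B.l)
    rwa [N_neg, add_neg_cancel_right] at this
  unfold zB pr
  rw [sg_zero_of_ne, sg_zero_of_ne, add_zero]
  · intro e
    have : N k = N (B.kk n + B.l) := by rw [e, N_neg]
    omega
  · intro e
    have : N k = N (B.kk n + B.l) := by rw [e]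
    omega

theorem core {ν : ℝ} (hν : 0 < ν) {c : K3 → C3} (hh : Herm c) (h0 : c 0 = 0)
    (hdiv : ∀ k, kdot k (c k) = 0) (K : ℕ) {s δ τ : ℝ} (hs : 1 < s) (hδ : 0 < δ) (hτ : 0 < τ) :
    ∃ w : K3 → ℝ → C3, FSol ν w ∧ (∀ k, N k ≤ K → w k 0 = c k) ∧
      (∃ X : K3 → C3, (Summable fun k => gw s k * ‖X k‖) ∧ ∑' k, gw s k * ‖X k‖ ≤ δ ∧
        ∀ k, w k 0 = (if N k ≤ K then c k else 0) + X k) ∧
      ∃ t ∈ Icc (τ / 2) τ, ∑' k, ‖w k t‖ ≤ δ := by
  classical
  obtain ⟨B, hB⟩ := exists_blocks c hdiv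
  set J := JJ K with hJ
  obtain ⟨e, he⟩ := exists_injective_nat (K3 × Bool)
  set C : ℝ := ∑ i ∈ J, (B i).C ν with hCdef
  have hC0 : 0 ≤ C := Finset.sum_nonneg fun i _ => (B i).C_nonneg hν
  have hC : ∀ i ∈ J, (B i).C ν ≤ C := fun i hi =>
    Finset.single_le_sum (f := fun i => (B i).C ν) (fun i _ => (B i).C_nonneg hν) hi
  set m := J.card with hm
  have hc := cc_pos hν
  have hrin : 0 < rin m C ν := Real.exp_pos _
  have cast := tendsto_natCast_atTop_atTop (R := ℝ)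
  have t1 : Tendsto (fun R : ℕ => eta m C ν R) atTop (𝓝 0) := by
    unfold eta
    exact tendsto_const_nhds.div_atTop (cast.const_mul_atTop hc)
  have t2 : Tendsto (fun R : ℕ => 4 * eta m C ν R / (39 * ν * rin m C ν * τ)) atTop (𝓝 0) := by
    have := (t1.const_mul 4).div_const (39 * ν * rin m C ν * τ)
    simpa using this
  have t3 : Tendsto (fun R : ℕ => (m : ℝ) * (12 * C * (1 / (cc ν * (τ / 2) * R)))) atTop (𝓝 0) := by
    have h1 : Tendsto (fun R : ℕ => 1 / (cc ν * (τ / 2) * R)) atTop (𝓝 0) :=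
      tendsto_const_nhds.div_atTop (cast.const_mul_atTop (by positivity))
    simpa using (h1.const_mul (12 * C)).const_mul (m : ℝ)
  have t4 : Tendsto (fun R : ℕ => (m : ℝ) * (4 * (C * (R : ℝ) ^ (1 - s)))) atTop (𝓝 0) := by
    have h1 : Tendsto (fun R : ℕ => (R : ℝ) ^ (1 - s)) atTop (𝓝 0) := by
      have := (tendsto_rpow_neg_atTop (y := s - 1) (by linarith)).comp cast
      refine this.congr fun R => ?_
      show (R : ℝ) ^ (-(s - 1)) = _
      rw [neg_sub]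
    simpa using ((h1.const_mul C).const_mul 4).const_mul (m : ℝ)
  have v1 : 0 < ν * rin m C ν / 32 := by positivity
  obtain ⟨R, r1, r2, r3, r4, r5⟩ := ((t1.eventually (gt_mem_nhds v1)).and
    ((t2.eventually (gt_mem_nhds (by positivity : (0:ℝ) < δ / 4))).and
    ((t3.eventually (gt_mem_nhds (by positivity : (0:ℝ) < δ / 4))).and
    ((t4.eventually (gt_mem_nhds hδ)).and (eventually_gt_atTop (2 * K)))))).exists
  have hR1 : 1 ≤ R := by omega
  have hR0 : (0 : ℝ) < R := by exact_mod_cast hR1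
  set n : K3 × Bool → ℕ := fun i => R ^ (e i + 1) with hn'
  have hn : ∀ i ∈ J, n i ≠ 0 := fun i _ => pow_ne_zero _ (by omega)
  have hRn' : ∀ i, R ≤ n i := fun i => by
    calc R = R ^ 1 := (pow_one R).symm
      _ ≤ R ^ (e i + 1) := Nat.pow_le_pow_right (by omega) (by omega)
  have hRn : ∀ i ∈ J, (R : ℝ) ≤ n i := fun i _ => by exact_mod_cast hRn' i
  have lac1 : ∀ i j, e i < e j → (R : ℝ) * ((n i : ℝ) * n j) ≤ (n j : ℝ) ^ 2 := by
    intro i j hij
    have h1 : R * n i ≤ n j := by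
      calc R * R ^ (e i + 1) = R ^ (e i + 1 + 1) := by rw [pow_succ]; ring
        _ ≤ R ^ (e j + 1) := Nat.pow_le_pow_right (by omega) (by omega)
    have h2 : (R : ℝ) * n i ≤ n j := by exact_mod_cast h1
    have h3 : (0 : ℝ) ≤ n j := by positivity
    nlinarith
  have hlac : ∀ i ∈ J, ∀ j ∈ J, i ≠ j →
      (R : ℝ) * ((n i : ℝ) * n j) ≤ (n i : ℝ) ^ 2 + (n j : ℝ) ^ 2 := by
    intro i _ j _ hij
    have hne : e i ≠ e j := fun h => hij (he h)
    rcases lt_or_gt_of_ne hne with h | h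
    · have := lac1 i j h
      have := sq_nonneg (n i : ℝ)
      linarith
    · have := lac1 j i h
      have := sq_nonneg (n j : ℝ)
      have e5 : (R : ℝ) * ((n i : ℝ) * n j) = (R : ℝ) * ((n j : ℝ) * n i) := by ring
      linarith
  set D : ℝ := 1 + ∑ i ∈ J, ((N (B i).l : ℝ) + N ((B i).kk (n i)) + N ((B i).kk (n i) + (B i).l))
    with hD
  have hDs : 0 ≤ ∑ i ∈ J, ((N (B i).l : ℝ) + N ((B i).kk (n i)) + N ((B i).kk (n i) + (B i).l)) :=
    Finset.sum_nonneg fun _ _ => by positivity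
  have hD0 : 0 < D := by linarith
  set b : ℝ := Real.log 2 / D with hb'
  have hlog : 0 < Real.log 2 := Real.log_pos (by norm_num)
  have hb : 0 < b := by positivity
  have hom : ∀ x : K3, (N x : ℝ) ≤ D → om b x ≤ 2 := by
    intro x hx
    unfold om
    rw [← Real.exp_log (by norm_num : (0:ℝ) < 2)]
    apply Real.exp_le_exp.2
    rw [hb', div_mul_eq_mul_div, div_le_iff₀ hD0]
    gcongr
  have hsm : ∀ i ∈ J, (B i).Small (n i) b := by
    intro i hi
    have h1 := Finset.single_le_sum (f := fun i => ((N (B i).l : ℝ) + N ((B i).kk (n i)) +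
      N ((B i).kk (n i) + (B i).l))) (fun _ _ => by positivity) hi
    have p1 : (0 : ℝ) ≤ N (B i).l := by positivity
    have p2 : (0 : ℝ) ≤ N ((B i).kk (n i)) := by positivity
    have p3 : (0 : ℝ) ≤ N ((B i).kk (n i) + (B i).l) := by positivity
    exact ⟨hom _ (by linarith), hom _ (by linarith), hom _ (by linarith)⟩
  have h := setup (J := J) (B := B) (n := n) hb hν hn hC0 hC hsm hR0 hRn hlac r1.le
  have hF := FSol_of_setup h (VV_deriv hn)
  have hlowl : ∀ i ∈ J, N (B i).l ≤ K := by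
    intro i hi
    have hi' := mem_JJ.1 hi
    obtain ⟨k, y⟩ := i
    obtain ⟨a1, a2, -⟩ := hB k hi'.1
    cases y
    · rw [a2]; exact hi'.2
    · rw [a1]; exact hi'.2
  set X : K3 → C3 := fun k => ∑ i ∈ J, ((B i).wB ν (n i) k 0 + (B i).zB ν (n i) k 0) with hX
  have hVV : ∀ k, VV J B n ν k 0 = (if N k ≤ K then c k else 0) + X k := by
    intro k
    rw [← low_sum hh h0 hB ν n k, hX, ← Finset.sum_add_distrib]
    rfl
  have hX0 : ∀ k, N k ≤ K → X k = 0 := by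
    intro k hk
    refine Finset.sum_eq_zero fun i hi => ?_
    have := hRn' i
    rw [wB_zero_low (B i) ν (by omega) hk, zB_zero_low (B i) ν (by omega) (hlowl i hi) hk, add_zero]
  have hw0 : ∀ k, VV J B n ν k 0 + zf ν (VV J B n ν) (EE J B n ν) k 0 =
      (if N k ≤ K then c k else 0) + X k := by
    intro k
    rw [zf_zero, add_zero, hVV]
  have fw : ∀ i ∈ J, FS (S0 J B n) ((B i).wB ν (n i)) := fun i hi =>
    ((B i).wFS ν (n i) (hn i hi)).mono (supp_sub hi)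
  have fz : ∀ i ∈ J, FS (S0 J B n) ((B i).zB ν (n i)) := fun i hi =>
    ((B i).zFS ν (n i)).mono (supp_sub hi)
  have fwz : ∀ i ∈ J, FS (S0 J B n) (fun k t => (B i).wB ν (n i) k t + (B i).zB ν (n i) k t) :=
    fun i hi => (fw i hi).add (fz i hi)
  refine ⟨fun k t => VV J B n ν k t + zf ν (VV J B n ν) (EE J B n ν) k t, hF, ?_,
    ⟨X, (FS.fsum J fwz).summ (gw s) 0, ?_, hw0⟩, ?_⟩
  · intro k hk
    show VV J B n ν k 0 + zf ν (VV J B n ν) (EE J B n ν) k 0 = c k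
    rw [hw0, if_pos hk, hX0 k hk, add_zero]
  · refine (tsum_norm_sum_le J fwz (gw s) (gw_nonneg s) 0).trans ?_
    have : ∀ i ∈ J, ∑' k, gw s k * ‖(B i).wB ν (n i) k 0 + (B i).zB ν (n i) k 0‖ ≤
        4 * (C * (R : ℝ) ^ (1 - s)) := by
      intro i hi
      have q1 := (fw i hi).summ (gw s) 0
      have q2 := (fz i hi).summ (gw s) 0
      have q3 := ((fwz i hi).summ (gw s) 0).tsum_le_tsum (fun k => (?_ : _ ≤
        gw s k * ‖(B i).wB ν (n i) k 0‖ + gw s k * ‖(B i).zB ν (n i) k 0‖)) (q1.add q2)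
      · rw [q1.tsum_add q2] at q3
        obtain ⟨q4, q5⟩ := fast_bd (B i) hν hs.le (hn i hi) hR0 (hRn i hi)
        have q6 : (B i).C ν * (R : ℝ) ^ (1 - s) ≤ C * (R : ℝ) ^ (1 - s) :=
          mul_le_mul_of_nonneg_right (hC i hi) (Real.rpow_nonneg hR0.le _)
        linarith
      · rw [← mul_add]
        exact mul_le_mul_of_nonneg_left (norm_add_le _ _) (gw_nonneg s k)
    refine (Finset.sum_le_sum this).trans ?_
    rw [Finset.sum_const, nsmul_eq_mul]
    exact r4.le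
  · obtain ⟨t, ht, hz⟩ := h.z_time hτ (by positivity : (0:ℝ) < δ / 4)
    refine ⟨t, ht, ?_⟩
    have ht0 : 0 < t := by linarith [ht.1]
    have hVF := (VV_FS (B := B) (ν := ν) hn)
    have sV : Summable fun k => ‖VV J B n ν k t‖ := hVF.summ' t
    have sz : Summable fun k => ‖zf ν (VV J B n ν) (EE J B n ν) k t‖ :=
      Summable.of_nonneg_of_le (fun _ => norm_nonneg _) (fun k => h.zf_bd k ht0.le)
        (h.cB_summ.mul_left 2)
    have s1 : Summable fun k => ‖VV J B n ν k t + zf ν (VV J B n ν) (EE J B n ν) k t‖ :=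
      Summable.of_nonneg_of_le (fun _ => norm_nonneg _) (fun _ => norm_add_le _ _) (sV.add sz)
    have q1 := s1.tsum_le_tsum (fun k => norm_add_le _ _) (sV.add sz)
    rw [sV.tsum_add sz] at q1
    have q2 : ∑' k, ‖VV J B n ν k t‖ ≤ ∑ i ∈ J, xx n ν C i t := by
      refine le_trans ?_ (VV_le hν hn hC hsm ht0.le)
      refine sV.tsum_le_tsum (fun k => ?_) (hVF.summ (om b) t)
      have := one_le_om hb.le k
      have := norm_nonneg (VV J B n ν k t)
      nlinarith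
    have q3 : ∑ i ∈ J, xx n ν C i t ≤ (m : ℝ) * (12 * C * (1 / (cc ν * (τ / 2) * R))) := by
      have : ∀ i ∈ J, xx n ν C i t ≤ 12 * C * (1 / (cc ν * (τ / 2) * R)) := by
        intro i hi
        unfold xx
        have a1 := nex_le hν (hn i hi) hR0 (hRn i hi) ht0
        have a2 : 1 / (cc ν * t * R) ≤ 1 / (cc ν * (τ / 2) * R) := by
          apply one_div_le_one_div_of_le (by positivity)
          have := ht.1
          gcongr
        calc 12 * C * n i * ex ν (n i) t = 12 * C * (n i * ex ν (n i) t) := by ring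
          _ ≤ 12 * C * (1 / (cc ν * (τ / 2) * R)) := by
            gcongr
            exact a1.trans a2
      refine (Finset.sum_le_sum this).trans (le_of_eq ?_)
      rw [Finset.sum_const, nsmul_eq_mul]
    show ∑' k, ‖VV J B n ν k t + zf ν (VV J B n ν) (EE J B n ν) k t‖ ≤ δ
    linarith

end Pool.Agent.X97.FM
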