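import Pool.Agent.X97.FM.Src

/-!
Summability of exponentials over the frequencies.
-/

open MeasureTheory Set Filter Topology
open scoped Pointwise

namespace Pool.Agent.X97.FM

open H459R3.NS

lemma pow_exp_le {b : ℝ} (hb : 0 < b) (p : ℕ) : ∃ C : ℝ, 0 < C ∧ ∀ x : ℝ, 0 ≤ x →
    x ^ p * Real.exp (-(b * x)) ≤ C * Real.exp (-(b / 2 * x)) := by
  refine ⟨(p.factorial : ℝ) * (2 / b) ^ p, by positivity, fun x hx => ?_⟩
  have h1 := Real.pow_div_factorial_le_exp (b / 2 * x) (by positivity) p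
  rw [div_le_iff₀ (by positivity)] at h1
  have e1 : x ^ p = (2 / b) ^ p * (b / 2 * x) ^ p := by
    rw [← mul_pow]
    congr 1
    field_simp
  have e2 : Real.exp (-(b / 2 * x)) = Real.exp (b / 2 * x) * Real.exp (-(b * x)) := by
    rw [← Real.exp_add]; congr 1; ring
  rw [e1, e2]
  calc (2 / b) ^ p * (b / 2 * x) ^ p * Real.exp (-(b * x)) ≤
      (2 / b) ^ p * (Real.exp (b / 2 * x) * (p.factorial : ℝ)) * Real.exp (-(b * x)) := by gcongr
    _ = _ := by ring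

lemma summable_exp {b : ℝ} (hb : 0 < b) : Summable fun k : K3 => Real.exp (-(b * N k)) := by
  obtain ⟨C, hC, h⟩ := pow_exp_le hb 6
  refine Summable.of_nonneg_of_le (fun k => (Real.exp_pos _).le) (fun k => ?_)
    (summable_K3.mul_left (64 * (C + 1)))
  have hN : (0 : ℝ) ≤ N k := by positivity
  have h1 := h (N k) hN
  have h2 : Real.exp (-(b / 2 * N k)) ≤ 1 := by
    rw [Real.exp_le_one_iff]
    have : 0 ≤ b / 2 * N k := by positivity
    linarith
  have h3 : Real.exp (-(b * N k)) ≤ 1 := by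
    rw [Real.exp_le_one_iff]
    have : 0 ≤ b * N k := by positivity
    linarith
  have h6 : (1 + (N k : ℝ)) ^ 6 * Real.exp (-(b * N k)) ≤ 64 * (C + 1) := by
    rcases le_or_gt (N k : ℝ) 1 with hc | hc
    · have : (1 + (N k : ℝ)) ^ 6 ≤ 2 ^ 6 := by
        gcongr
        linarith
      calc (1 + (N k : ℝ)) ^ 6 * Real.exp (-(b * N k)) ≤ 2 ^ 6 * 1 := by gcongr
        _ ≤ _ := by nlinarith
    · have h8 : (1 + (N k : ℝ)) ^ 6 ≤ (2 * N k) ^ 6 := by
        gcongr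
        linarith
      have h9 : (N k : ℝ) ^ 6 * Real.exp (-(b * N k)) ≤ C := by nlinarith
      calc (1 + (N k : ℝ)) ^ 6 * Real.exp (-(b * N k)) ≤ (2 * N k) ^ 6 * Real.exp (-(b * N k)) :=
            mul_le_mul_of_nonneg_right h8 (Real.exp_pos _).le
        _ = 64 * ((N k : ℝ) ^ 6 * Real.exp (-(b * N k))) := by ring
        _ ≤ _ := by linarith
  have h7 : (1 + (k 0 : ℝ) ^ 2) * ((1 + (k 1 : ℝ) ^ 2) * (1 + (k 2 : ℝ) ^ 2)) ≤
      (1 + (N k : ℝ)) ^ 6 := by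
    calc (1 + (k 0 : ℝ) ^ 2) * ((1 + (k 1 : ℝ) ^ 2) * (1 + (k 2 : ℝ) ^ 2)) ≤
        (1 + (N k : ℝ)) ^ 2 * ((1 + (N k : ℝ)) ^ 2 * (1 + (N k : ℝ)) ^ 2) := by
          gcongr
          · exact one_add_sq_le k 0
          · exact one_add_sq_le k 1
          · exact one_add_sq_le k 2
      _ = _ := by ring
  have e : 1 / (1 + (k 0 : ℝ) ^ 2) * (1 / (1 + (k 1 : ℝ) ^ 2) * (1 / (1 + (k 2 : ℝ) ^ 2))) =
      1 / ((1 + (k 0 : ℝ) ^ 2) * ((1 + (k 1 : ℝ) ^ 2) * (1 + (k 2 : ℝ) ^ 2))) := by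
    field_simp
  rw [e, mul_one_div, le_div_iff₀ (by positivity)]
  calc Real.exp (-(b * N k)) * ((1 + (k 0 : ℝ) ^ 2) * ((1 + (k 1 : ℝ) ^ 2) * (1 + (k 2 : ℝ) ^ 2))) ≤
      Real.exp (-(b * N k)) * (1 + (N k : ℝ)) ^ 6 := by gcongr
    _ ≤ _ := by linarith

lemma summable_pow_exp {b : ℝ} (hb : 0 < b) (p : ℕ) :
    Summable fun k : K3 => (N k : ℝ) ^ p * Real.exp (-(b * N k)) := by
  obtain ⟨C, hC, h⟩ := pow_exp_le hb p
  exact Summable.of_nonneg_of_le (fun k => by positivity) (fun k => h (N k) (by positivity))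
    ((summable_exp (half_pos hb)).mul_left C)

lemma norm_Bf' {f h : K3 → C3} {a c : K3 → ℝ} (hf : ∀ k, ‖f k‖ ≤ a k) (hh : ∀ k, ‖h k‖ ≤ c k)
    (ha : Summable a) (hc : Summable c) (k : K3) :
    ‖Bf f h k‖ ≤ 76 * N k * ∑' l, a (k - l) * c l := by
  have a0 : ∀ k, 0 ≤ a k := fun k => (norm_nonneg _).trans (hf k)
  have c0 : ∀ k, 0 ≤ c k := fun k => (norm_nonneg _).trans (hh k)
  have sf : Summable fun k => ‖f k‖ := Summable.of_nonneg_of_le (fun _ => norm_nonneg _) hf ha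
  have sh : Summable fun k => ‖h k‖ := Summable.of_nonneg_of_le (fun _ => norm_nonneg _) hh hc
  refine (norm_Bf sf sh k).trans ?_
  refine mul_le_mul_of_nonneg_left ?_ (by positivity)
  refine (conv_summable sf sh (fun _ => norm_nonneg _) (fun _ => norm_nonneg _) k).tsum_le_tsum
    (fun l => ?_) (conv_summable ha hc a0 c0 k)
  exact mul_le_mul (hf _) (hh _) (norm_nonneg _) (a0 _)

lemma duh_le_sup {E : Type*} [NormedAddCommGroup E] [NormedSpace ℝ E] {lam : ℝ} (hlam : 0 ≤ lam)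
    {g : ℝ → E} {t C : ℝ} (ht : 0 ≤ t) (hg : ∀ s, 0 ≤ s → s ≤ t → ‖g s‖ ≤ C) :
    ‖duh lam g t‖ ≤ C * t := by
  unfold duh
  have h := intervalIntegral.norm_integral_le_of_norm_le_const (a := (0:ℝ)) (b := t) (C := C)
    (f := fun s => Real.exp (-(lam * (t - s))) • g s) (fun s hs => by
      rw [uIoc_of_le ht] at hs
      rw [norm_smul, Real.norm_of_nonneg (Real.exp_pos _).le]
      have h1 := hg s hs.1.le hs.2
      have h2 : Real.exp (-(lam * (t - s))) ≤ 1 := by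
        rw [Real.exp_le_one_iff]
        have := mul_nonneg hlam (by linarith [hs.2] : 0 ≤ t - s)
        linarith
      have h3 := norm_nonneg (g s)
      calc Real.exp (-(lam * (t - s))) * ‖g s‖ ≤ 1 * ‖g s‖ := mul_le_mul_of_nonneg_right h2 h3
        _ ≤ C := by rw [one_mul]; exact h1)
  rwa [sub_zero, abs_of_nonneg ht] at h

end Pool.Agent.X97.FM
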