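import Pool.Agent.X97.FM.Asm2

/-!
The solution of the equations for the Fourier coefficients; prescribed low modes.
-/

open MeasureTheory Set Filter Topology
open scoped Pointwise

namespace Pool.Agent.X97.FM

open H459R3.NS Blk

lemma zf_zero (ν : ℝ) (V E : K3 → ℝ → C3) (k : K3) : zf ν V E k 0 = 0 := by
  unfold zf
  rw [duh_zero, neg_zero]

theorem FSol_of_setup {ν b M rinf η CV : ℝ} {φ : ℝ → ℝ} {S : Finset K3} {V E : K3 → ℝ → C3}
    (h : Setup ν b M rinf η CV φ S V E)
    (hd : ∀ k t, HasDerivAt (V k) (-(lam ν k • V k t) - Bf (fun l => V l t) (fun l => V l t) k +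
      E k t) t) : FSol ν (fun k t => V k t + zf ν V E k t) where
  deriv := by
    intro k t ht
    refine ((hd k t).add (h.zf_deriv k ht)).congr_deriv ?_
    unfold src
    rw [smul_add]
    abel
  bd := by
    obtain ⟨D, hD, hDx⟩ := pow_exp_le h.hb 1
    have hη := h.hη0
    have hr := h.hr
    have hCV : 0 ≤ CV := (norm_nonneg _).trans (h.hCV 0 0 le_rfl)
    have hb := h.hb
    refine ⟨CV * Real.exp (b / 2 * ∑ k ∈ S, (N k : ℝ)) + 2 * (η / rinf * D), b / 2, by positivity,
      half_pos h.hb, fun k t ht => ?_⟩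
    refine (norm_add_le _ _).trans ?_
    rw [add_mul]
    refine add_le_add ?_ ?_
    · refine (h.V_le k ht).trans ?_
      split_ifs with hk
      · have h1 : (N k : ℝ) ≤ ∑ k ∈ S, (N k : ℝ) :=
          Finset.single_le_sum (f := fun k => (N k : ℝ)) (fun _ _ => by positivity) hk
        have h2 : 1 ≤ Real.exp (b / 2 * ∑ k ∈ S, (N k : ℝ)) * Real.exp (-(b / 2 * N k)) := by
          rw [← Real.exp_add]
          apply Real.one_le_exp
          have : 0 ≤ b / 2 * (∑ k ∈ S, (N k : ℝ) - N k) := mul_nonneg (by positivity) (by linarith)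
          linarith
        calc CV = CV * 1 := (mul_one _).symm
          _ ≤ CV * (Real.exp (b / 2 * ∑ k ∈ S, (N k : ℝ)) * Real.exp (-(b / 2 * N k))) := by gcongr
          _ = _ := by ring
      · positivity
    · refine (h.zf_bd k ht).trans ?_
      have h1 := hDx (N k) (by positivity)
      rw [pow_one] at h1
      unfold cB
      calc 2 * (η / rinf * (N k * Real.exp (-(b * N k)))) ≤
          2 * (η / rinf * (D * Real.exp (-(b / 2 * N k)))) := by gcongr
        _ = _ := by ring
  div := fun k t _ => by rw [kdot_add, h.divV, h.zf_div, add_zero]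
  herm := fun t ht => by
    have h1 := h.hermV t
    have h2 := h.zf_herm ht
    intro k
    have a := h1 k
    have b := h2 k
    simp only at a b
    show V (-k) t + zf ν V E (-k) t = cj (V k t + zf ν V E k t)
    rw [a, b, cj_add]

/-! ### decomposition of a divergence free mode -/

lemma exists_coord {k : K3} (hk : k ≠ 0) : k 0 ≠ 0 ∨ k 1 ≠ 0 ∨ k 2 ≠ 0 := by
  by_contra h
  push Not at h
  apply hk
  funext i
  fin_cases i
  · exact h.1
  · exact h.2.1
  · exact h.2.2

lemma decomp {k : K3} (hk : k ≠ 0) {u : C3} (hu : kdot k u = 0) :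
    ∃ B B' : Blk, B.l = k ∧ B'.l = k ∧ B.A • cz B.a + B'.A • cz B'.a = u := by
  have hu' : (k 0 : ℂ) * u 0 + (k 1 : ℂ) * u 1 + (k 2 : ℂ) * u 2 = 0 := by
    have := hu
    unfold kdot at this
    rwa [Fin.sum_univ_three] at this
  rcases exists_coord hk with h | h | h
  · have h' : (k 0 : ℂ) ≠ 0 := by exact_mod_cast h
    refine ⟨⟨k, ![-k 1, k 0, 0], u 1 / k 0, hk, fun e => h (by simpa using congrFun e 1), ?_⟩,
      ⟨k, ![-k 2, 0, k 0], u 2 / k 0, hk, fun e => h (by simpa using congrFun e 2), ?_⟩, rfl, rfl, ?_⟩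
    · simp [ip, Fin.sum_univ_three]; ring
    · simp [ip, Fin.sum_univ_three]; ring
    · funext i
      fin_cases i
      · simp [cz]
        field_simp
        linear_combination (-1) * hu'
      · simp [cz]
        field_simp
      · simp [cz]
        field_simp
  · have h' : (k 1 : ℂ) ≠ 0 := by exact_mod_cast h
    refine ⟨⟨k, ![k 1, -k 0, 0], u 0 / k 1, hk, fun e => h (by simpa using congrFun e 0), ?_⟩,
      ⟨k, ![0, -k 2, k 1], u 2 / k 1, hk, fun e => h (by simpa using congrFun e 2), ?_⟩, rfl, rfl, ?_⟩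
    · simp [ip, Fin.sum_univ_three]; ring
    · simp [ip, Fin.sum_univ_three]; ring
    · funext i
      fin_cases i
      · simp [cz]
        field_simp
      · simp [cz]
        field_simp
        linear_combination (-1) * hu'
      · simp [cz]
        field_simp
  · have h' : (k 2 : ℂ) ≠ 0 := by exact_mod_cast h
    refine ⟨⟨k, ![k 2, 0, -k 0], u 0 / k 2, hk, fun e => h (by simpa using congrFun e 0), ?_⟩,
      ⟨k, ![0, k 2, -k 1], u 1 / k 2, hk, fun e => h (by simpa using congrFun e 1), ?_⟩, rfl, rfl, ?_⟩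
    · simp [ip, Fin.sum_univ_three]; ring
    · simp [ip, Fin.sum_univ_three]; ring
    · funext i
      fin_cases i
      · simp [cz]
        field_simp
      · simp [cz]
        field_simp
      · simp [cz]
        field_simp
        linear_combination (-1) * hu'

/-- some block -/
lemma blk_nonempty : Nonempty Blk := by
  have hk : (![1, 0, 0] : K3) ≠ 0 := fun h => by simpa using congrFun h 0
  obtain ⟨B, -, -⟩ := decomp hk (u := 0) (kdot_zero _)
  exact ⟨B⟩

lemma exists_blocks (c : K3 → C3) (hc : ∀ k, kdot k (c k) = 0) : ∃ B : K3 × Bool → Blk,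
    ∀ k, k ≠ 0 → (B (k, true)).l = k ∧ (B (k, false)).l = k ∧
      (B (k, true)).A • cz (B (k, true)).a + (B (k, false)).A • cz (B (k, false)).a = c k := by
  have h : ∀ k : K3, ∃ B : Bool → Blk, k ≠ 0 → (B true).l = k ∧ (B false).l = k ∧
      (B true).A • cz (B true).a + (B false).A • cz (B false).a = c k := by
    intro k
    by_cases hk : k = 0
    · obtain ⟨B⟩ := blk_nonempty
      exact ⟨fun _ => B, fun h => absurd hk h⟩
    · obtain ⟨B, B', h1, h2, h3⟩ := decomp hk (hc k)
      exact ⟨fun b => if b then B else B', fun _ => by simp [h1, h2, h3]⟩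
  choose B hB using h
  exact ⟨fun p => B p.1 p.2, hB⟩

/-- the frequencies `k ≠ 0` with `|k_j| ≤ K`, twice -/
noncomputable def JJ (K : ℕ) : Finset (K3 × Bool) :=
  ((Finset.Icc (fun _ => -(K : ℤ)) (fun _ => (K : ℤ))).erase 0) ×ˢ Finset.univ

lemma mem_box {K : ℕ} {k : K3} :
    k ∈ Finset.Icc (fun _ => -(K : ℤ)) (fun _ => (K : ℤ)) ↔ N k ≤ K := by
  rw [Finset.mem_Icc, N_le_iff]
  constructor
  · intro h j
    exact abs_le.2 ⟨h.1 j, h.2 j⟩
  · intro h
    exact ⟨fun j => (abs_le.1 (h j)).1, fun j => (abs_le.1 (h j)).2⟩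

lemma mem_JJ {K : ℕ} {p : K3 × Bool} : p ∈ JJ K ↔ p.1 ≠ 0 ∧ N p.1 ≤ K := by
  unfold JJ
  rw [Finset.mem_product, Finset.mem_erase, mem_box]
  simp

lemma uB_zero (B : Blk) (ν : ℝ) (n : ℕ) (k : K3) : B.uB ν n k 0 =
    (if k = B.l then (1 / 2 : ℂ) • (B.A • cz B.a) else 0) +
      (if k = -B.l then (1 / 2 : ℂ) • cj (B.A • cz B.a) else 0) := by
  unfold uB pr sg
  have e : cj ((1 / 2 * B.A : ℂ) • cz B.a) = (1 / 2 : ℂ) • cj (B.A • cz B.a) := by
    rw [mul_smul]
    funext i
    simp [cj]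
    exact Or.inl (map_ofNat _ _)
  rw [e, mul_smul]
  simp

lemma low_sum {K : ℕ} {c : K3 → C3} (hh : Herm c) (h0 : c 0 = 0) {B : K3 × Bool → Blk}
    (hB : ∀ k, k ≠ 0 → (B (k, true)).l = k ∧ (B (k, false)).l = k ∧
      (B (k, true)).A • cz (B (k, true)).a + (B (k, false)).A • cz (B (k, false)).a = c k)
    (ν : ℝ) (n : K3 × Bool → ℕ) (k : K3) :
    ∑ p ∈ JJ K, (B p).uB ν (n p) k 0 = if N k ≤ K then c k else 0 := by
  classical
  unfold JJ
  rw [Finset.sum_product]
  have h1 : ∀ x ∈ (Finset.Icc (fun _ => -(K : ℤ)) (fun _ => (K : ℤ))).erase (0 : K3),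
      ∑ y, (B (x, y)).uB ν (n (x, y)) k 0 =
        (if k = x then (1 / 2 : ℂ) • c x else 0) + (if k = -x then (1 / 2 : ℂ) • cj (c x) else 0) := by
    intro x hx
    have hx0 : x ≠ 0 := Finset.ne_of_mem_erase hx
    obtain ⟨a1, a2, a3⟩ := hB x hx0
    rw [Fintype.sum_bool, uB_zero, uB_zero, a1, a2, ← a3]
    split_ifs
    · rw [smul_add, cj_add, smul_add]; abel
    · rw [smul_add]; abel
    · rw [cj_add, smul_add]; abel
    · simp
  rw [Finset.sum_congr rfl h1, Finset.sum_add_distrib]
  have e1 : ∑ x ∈ (Finset.Icc (fun _ => -(K : ℤ)) (fun _ => (K : ℤ))).erase (0 : K3),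
      (if k = x then (1 / 2 : ℂ) • c x else 0) = if N k ≤ K then (1 / 2 : ℂ) • c k else 0 := by
    rw [Finset.sum_ite_eq]
    by_cases hk : k = 0
    · subst hk
      simp [h0]
    · by_cases hN : N k ≤ K
      · rw [if_pos (Finset.mem_erase.2 ⟨hk, mem_box.2 hN⟩), if_pos hN]
      · rw [if_neg (fun h => hN (mem_box.1 (Finset.mem_of_mem_erase h))), if_neg hN]
  have e2 : ∑ x ∈ (Finset.Icc (fun _ => -(K : ℤ)) (fun _ => (K : ℤ))).erase (0 : K3),
      (if k = -x then (1 / 2 : ℂ) • cj (c x) else 0) = if N k ≤ K then (1 / 2 : ℂ) • c k else 0 := by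
    have e3 : ∀ x : K3, (if k = -x then (1 / 2 : ℂ) • cj (c x) else 0) =
        if -k = x then (1 / 2 : ℂ) • cj (c x) else 0 := by
      intro x
      have : (k = -x) ↔ (-k = x) := by
        constructor
        · intro h; rw [h, neg_neg]
        · intro h; rw [← h, neg_neg]
      simp only [this]
    simp only [e3]
    rw [Finset.sum_ite_eq]
    have e4 : cj (c (-k)) = c k := by
      have := hh k
      rw [this, cj_cj]
    by_cases hk : k = 0
    · subst hk
      simp [h0]
    · by_cases hN : N k ≤ K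
      · rw [if_pos (Finset.mem_erase.2 ⟨neg_ne_zero.2 hk, mem_box.2 (by rwa [N_neg])⟩), if_pos hN, e4]
      · rw [if_neg (fun h => hN (by
          have := mem_box.1 (Finset.mem_of_mem_erase h)
          rwa [N_neg] at this)), if_neg hN]
  rw [e1, e2]
  split_ifs
  · rw [← add_smul]
    norm_num
  · simp

end Pool.Agent.X97.FM
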