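import Pool.Agent.X97.FM.Expo

/-!
The iteration and its limit.
-/

open MeasureTheory Set Filter Topology
open scoped Pointwise

namespace Pool.Agent.X97.FM

open H459R3.NS

/-- the hypotheses of the perturbation theorem -/
structure Setup (ν b M rinf η CV : ℝ) (φ : ℝ → ℝ) (S : Finset K3) (V E : K3 → ℝ → C3) : Prop where
  hν : 0 < ν
  hb : 0 < b
  hMν : M * ν = 2400
  hφ : Continuous φ
  h0 : ∀ t, 0 ≤ φ t
  hr : 0 < rinf
  hrt : ∀ t, 0 ≤ t → rinf ≤ rho M φ t
  hV : FS S V
  hE : FS S E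
  hVφ : ∀ s, 0 ≤ s → ∑' k, om b k * ‖V k s‖ ≤ Real.sqrt (φ s)
  hCV : ∀ k s, 0 ≤ s → ‖V k s‖ ≤ CV
  hη : ∀ t, 0 ≤ t → DD b M φ t E ≤ η
  hη2 : η ≤ ν * rinf / 32
  divV : ∀ k s, kdot k (V k s) = 0
  divE : ∀ k s, kdot k (E k s) = 0
  hermV : ∀ s, Herm fun k => V k s
  hermE : ∀ s, Herm fun k => E k s

/-- the iterates of the source -/
noncomputable def gs (ν : ℝ) (V E : K3 → ℝ → C3) : ℕ → K3 → ℝ → C3
  | 0 => fun _ _ => 0
  | n + 1 => src V E (Tm ν (gs ν V E n))

/-- the supports of the iterates -/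
def Sn (S : Finset K3) : ℕ → Finset K3
  | 0 => S
  | n + 1 => (Sn S n + Sn S n) ∪ Sn S n

lemma Sn_mono (S : Finset K3) (n : ℕ) : Sn S n ⊆ Sn S (n + 1) := Finset.subset_union_right

lemma Sn_base (S : Finset K3) (n : ℕ) : S ⊆ Sn S n := by
  induction n with
  | zero => exact Finset.Subset.refl _
  | succ n ih => exact ih.trans (Sn_mono S n)

section
variable {ν b M rinf η CV : ℝ} {φ : ℝ → ℝ} {S : Finset K3} {V E : K3 → ℝ → C3}

lemma Setup.fs (h : Setup ν b M rinf η CV φ S V E) (n : ℕ) : FS (Sn S n) (gs ν V E n) := by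
  induction n with
  | zero => exact ⟨fun _ => continuous_const, fun _ _ _ => rfl, fun _ => rfl⟩
  | succ n ih =>
    exact FS.src (h.hV.mono (Sn_base S n)) (h.hE.mono (Sn_base S n)) (ih.Tm ν)

lemma Setup.hM (h : Setup ν b M rinf η CV φ S V E) : 0 ≤ M := by
  have h1 := h.hν
  have h2 := h.hMν
  have : M = 2400 / ν := by field_simp; linarith
  rw [this]; positivity

lemma Setup.hη0 (h : Setup ν b M rinf η CV φ S V E) : 0 ≤ η :=
  le_trans (DD_nonneg le_rfl) (h.hη 0 le_rfl)

lemma Tm_zero (ν : ℝ) (k : K3) (t : ℝ) : Tm ν (fun _ _ => 0) k t = 0 := by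
  unfold Tm duh
  simp

lemma gs_one (ν : ℝ) (V E : K3 → ℝ → C3) : gs ν V E 1 = E := by
  show src V E (Tm ν (gs ν V E 0)) = E
  funext k s
  unfold src
  have : ∀ l s, Tm ν (gs ν V E 0) l s = 0 := fun l s => Tm_zero ν l s
  simp [this]

lemma DD_gs_zero (ν b M t : ℝ) (φ : ℝ → ℝ) (V E : K3 → ℝ → C3) : DD b M φ t (gs ν V E 0) = 0 := by
  unfold DD gs
  simp

lemma Setup.step (h : Setup ν b M rinf η CV φ S V E) {t : ℝ} (ht : 0 ≤ t) (n : ℕ) :
    DD b M φ t (fun k s => gs ν V E (n + 1) k s - gs ν V E n k s) ≤ (1 / 2) ^ n * η ∧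
      DD b M φ t (gs ν V E (n + 1)) ≤ 2 * η - (1 / 2) ^ n * η ∧
      DD b M φ t (gs ν V E n) ≤ 2 * η := by
  have hη0 := h.hη0
  induction n with
  | zero =>
    have e1 : (fun k s => gs ν V E (0 + 1) k s - gs ν V E 0 k s) = E := by
      funext k s
      rw [zero_add, gs_one]
      show E k s - 0 = E k s
      rw [sub_zero]
    rw [e1, zero_add, gs_one, DD_gs_zero]
    have := h.hη t ht
    refine ⟨?_, ?_, ?_⟩ <;> simp <;> linarith
  | succ n ih =>
    obtain ⟨i1, i2, i3⟩ := ih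
    have hp : 0 ≤ (1 / 2 : ℝ) ^ n * η := by positivity
    have hη2 := h.hη2
    have hk1 : DD b M φ t (gs ν V E (n + 1)) ≤ ν * rinf / 16 := by linarith
    have hk0 : DD b M φ t (gs ν V E n) ≤ ν * rinf / 16 := by linarith
    have f1 := (h.fs n).mono (Sn_mono S n)
    have f2 := h.fs (n + 1)
    have c := contr h.hb.le h.hν h.hMν h.hφ h.h0 h.hr ht (fun s hs _ => h.hrt s hs) rfl
      (h.hV.mono (Sn_base S (n + 1))) (h.hE.mono (Sn_base S (n + 1))) f2 f1 h.hVφ hk1 hk0
    have e4 : (fun k s => gs ν V E (n + 1 + 1) k s - gs ν V E (n + 1) k s) =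
        fun k s => src V E (Tm ν (gs ν V E (n + 1))) k s - src V E (Tm ν (gs ν V E n)) k s := rfl
    have c2 : DD b M φ t (fun k s => gs ν V E (n + 1 + 1) k s - gs ν V E (n + 1) k s) ≤
        (1 / 2) ^ (n + 1) * η := by
      rw [e4, pow_succ]
      linarith
    have e : gs ν V E (n + 1 + 1) = fun k s => gs ν V E (n + 1) k s +
        (gs ν V E (n + 1 + 1) k s - gs ν V E (n + 1) k s) := by
      funext k s
      exact (add_sub_cancel _ _).symm
    have g1 := (h.fs (n + 1)).mono (Sn_mono S (n + 1))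
    have g2 := h.fs (n + 1 + 1)
    have a := DD_add h.hφ g1 (g2.sub g1) ht (b := b) (M := M)
    rw [← e] at a
    have e5 : (1 / 2 : ℝ) ^ n * η = 2 * ((1 / 2) ^ (n + 1) * η) := by rw [pow_succ]; ring
    refine ⟨c2, ?_, ?_⟩ <;> linarith

lemma Setup.DDle (h : Setup ν b M rinf η CV φ S V E) {t : ℝ} (ht : 0 ≤ t) (n : ℕ) :
    DD b M φ t (gs ν V E n) ≤ 2 * η := (h.step ht n).2.2

/-- the iterates of the perturbation -/
noncomputable def zn (ν : ℝ) (V E : K3 → ℝ → C3) (n : ℕ) : K3 → ℝ → C3 := Tm ν (gs ν V E n)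

/-- the geometric bound -/
noncomputable def cB (η rinf b : ℝ) (k : K3) : ℝ := η / rinf * (N k * Real.exp (-(b * N k)))

lemma Setup.cB_nonneg (h : Setup ν b M rinf η CV φ S V E) (k : K3) : 0 ≤ cB η rinf b k := by
  have := h.hη0
  have := h.hr
  unfold cB
  positivity

lemma Setup.zn_diff (h : Setup ν b M rinf η CV φ S V E) (n : ℕ) (k : K3) {t : ℝ} (ht : 0 ≤ t) :
    ‖zn ν V E (n + 1) k t - zn ν V E n k t‖ ≤ cB η rinf b k * (1 / 2) ^ n := by
  have f1 := (h.fs n).mono (Sn_mono S n)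
  have f2 := h.fs (n + 1)
  by_cases hk : k = 0
  · subst hk
    have e1 : zn ν V E (n + 1) 0 t = 0 := (f2.Tm ν).zero t
    have e2 : zn ν V E n 0 t = 0 := (f1.Tm ν).zero t
    rw [e1, e2, sub_zero, norm_zero]
    exact mul_nonneg (h.cB_nonneg 0) (by positivity)
  have fd := f2.sub f1
  have e : zn ν V E (n + 1) k t - zn ν V E n k t =
      Tm ν (fun k s => gs ν V E (n + 1) k s - gs ν V E n k s) k t := (Tm_sub f2 f1 ν k t).symm
  rw [e]
  have h1 := duh_bd1 h.hM (lam_nonneg h.hν.le k) h.hφ h.h0 (fd.cont k) ht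
  have h2 := DD_single fd ht k (b := b) (M := M) (φ := φ)
  have h3 := (h.step ht n).1
  have e2 : ‖Tm ν (fun k s => gs ν V E (n + 1) k s - gs ν V E n k s) k t‖ =
      ‖duh (lam ν k) (fun s => gs ν V E (n + 1) k s - gs ν V E n k s) t‖ := by
    unfold Tm; rw [norm_neg]
  rw [e2]
  set x := ‖duh (lam ν k) (fun s => gs ν V E (n + 1) k s - gs ν V E n k s) t‖
  have hx : 0 ≤ x := norm_nonneg _
  have hr := h.hr
  have hm : FM.mk b k = om b k / N k := rfl
  have hN : (0 : ℝ) < N k := by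
    have : N k ≠ 0 := fun h => hk (N_eq_zero.1 h)
    positivity
  have hom := om_pos b k
  have h4 : rinf * x ≤ ∫ s in (0:ℝ)..t, rho M φ s * ‖gs ν V E (n + 1) k s - gs ν V E n k s‖ :=
    (mul_le_mul_of_nonneg_right (h.hrt t ht) hx).trans h1
  have h5 : FM.mk b k * (rinf * x) ≤ (1 / 2) ^ n * η :=
    (mul_le_mul_of_nonneg_left h4 (mk_nonneg b k)).trans (h2.trans h3)
  have e3 : cB η rinf b k * (1 / 2) ^ n = ((1 / 2) ^ n * η) / (FM.mk b k * rinf) := by
    unfold cB
    rw [hm]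
    have : Real.exp (-(b * N k)) = 1 / om b k := by
      unfold om
      rw [Real.exp_neg, one_div]
    rw [this]
    field_simp
  rw [e3, le_div_iff₀ (by rw [hm]; positivity)]
  linarith

/-- the limit -/
noncomputable def zl (ν : ℝ) (V E : K3 → ℝ → C3) (k : K3) (t : ℝ) : C3 :=
  limUnder atTop fun n => zn ν V E n k t

lemma Setup.tends (h : Setup ν b M rinf η CV φ S V E) (k : K3) {t : ℝ} (ht : 0 ≤ t) :
    Tendsto (fun n => zn ν V E n k t) atTop (𝓝 (zl ν V E k t)) := by
  have hc : CauchySeq fun n => zn ν V E n k t := by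
    refine cauchySeq_of_le_geometric (1 / 2) (cB η rinf b k) (by norm_num) fun n => ?_
    rw [dist_comm, dist_eq_norm]
    exact h.zn_diff n k ht
  exact hc.tendsto_limUnder

lemma Setup.zn_zl (h : Setup ν b M rinf η CV φ S V E) (n : ℕ) (k : K3) {t : ℝ} (ht : 0 ≤ t) :
    ‖zn ν V E n k t - zl ν V E k t‖ ≤ 2 * cB η rinf b k * (1 / 2) ^ n := by
  have := dist_le_of_le_geometric_of_tendsto (1 / 2) (cB η rinf b k) (by norm_num)
    (f := fun n => zn ν V E n k t) (fun n => by
      rw [dist_comm, dist_eq_norm]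
      exact h.zn_diff n k ht) (h.tends k ht) n
  rw [dist_eq_norm] at this
  refine this.trans (le_of_eq ?_)
  norm_num
  ring

lemma Setup.zl_bd (h : Setup ν b M rinf η CV φ S V E) (k : K3) {t : ℝ} (ht : 0 ≤ t) :
    ‖zl ν V E k t‖ ≤ 2 * cB η rinf b k := by
  have := h.zn_zl 0 k ht
  have e : zn ν V E 0 k t = 0 := Tm_zero ν k t
  rw [e, zero_sub, norm_neg, pow_zero, mul_one] at this
  exact this

lemma Setup.zn_bd (h : Setup ν b M rinf η CV φ S V E) (n : ℕ) (k : K3) {t : ℝ} (ht : 0 ≤ t) :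
    ‖zn ν V E n k t‖ ≤ 4 * cB η rinf b k := by
  have h1 := h.zn_zl n k ht
  have h2 := h.zl_bd k ht
  have h3 : (1 / 2 : ℝ) ^ n ≤ 1 := pow_le_one₀ (by norm_num) (by norm_num)
  have h4 := h.cB_nonneg k
  have h5 : 2 * cB η rinf b k * (1 / 2) ^ n ≤ 2 * cB η rinf b k * 1 := by gcongr
  have := norm_le_norm_add_norm_sub' (zn ν V E n k t) (zl ν V E k t)
  linarith

/-- majorant of the approximations -/
noncomputable def mj (η rinf b CV : ℝ) (S : Finset K3) (k : K3) : ℝ :=
  (if k ∈ S then CV else 0) + 4 * cB η rinf b k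

lemma Setup.cB_summ (h : Setup ν b M rinf η CV φ S V E) : Summable (cB η rinf b) := by
  have := (summable_pow_exp h.hb 1).mul_left (η / rinf)
  refine this.congr fun k => ?_
  unfold cB
  rw [pow_one]

lemma Setup.mj_summ (h : Setup ν b M rinf η CV φ S V E) : Summable (mj η rinf b CV S) := by
  refine Summable.add ?_ (h.cB_summ.mul_left 4)
  exact summable_of_ne_finset_zero (s := S) fun k hk => if_neg hk

lemma Setup.V_le (h : Setup ν b M rinf η CV φ S V E) (k : K3) {t : ℝ} (ht : 0 ≤ t) :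
    ‖V k t‖ ≤ if k ∈ S then CV else 0 := by
  split_ifs with hk
  · exact h.hCV k t ht
  · rw [h.hV.supp k hk, norm_zero]

lemma Setup.un_le (h : Setup ν b M rinf η CV φ S V E) (n : ℕ) (k : K3) {t : ℝ} (ht : 0 ≤ t) :
    ‖V k t + zn ν V E n k t‖ ≤ mj η rinf b CV S k :=
  (norm_add_le _ _).trans (add_le_add (h.V_le k ht) (h.zn_bd n k ht))

lemma Setup.ul_le (h : Setup ν b M rinf η CV φ S V E) (k : K3) {t : ℝ} (ht : 0 ≤ t) :
    ‖V k t + zl ν V E k t‖ ≤ mj η rinf b CV S k := by
  have := h.cB_nonneg k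
  exact (norm_add_le _ _).trans (add_le_add (h.V_le k ht) ((h.zl_bd k ht).trans (by linarith)))

/-- constant in the convergence of the sources -/
noncomputable def Kc (η rinf b CV : ℝ) (S : Finset K3) (k : K3) : ℝ :=
  76 * N k * (∑' l, mj η rinf b CV S (k - l) * (2 * cB η rinf b l)) +
    76 * N k * (∑' l, (2 * cB η rinf b (k - l)) * mj η rinf b CV S l)

lemma Setup.src_conv (h : Setup ν b M rinf η CV φ S V E) (n : ℕ) (k : K3) {t : ℝ} (ht : 0 ≤ t) :
    ‖src V E (zn ν V E n) k t - src V E (zl ν V E) k t‖ ≤ Kc η rinf b CV S k * (1 / 2) ^ n := by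
  have hd : ∀ l, ‖(V l t + zn ν V E n l t) - (V l t + zl ν V E l t)‖ ≤
      (1 / 2) ^ n * (2 * cB η rinf b l) := by
    intro l
    rw [add_sub_add_left_eq_sub]
    refine (h.zn_zl n l ht).trans (le_of_eq (by ring))
  have su : Summable fun l => ‖V l t + zn ν V E n l t‖ :=
    Summable.of_nonneg_of_le (fun _ => norm_nonneg _) (fun l => h.un_le n l ht) h.mj_summ
  have sl : Summable fun l => ‖V l t + zl ν V E l t‖ :=
    Summable.of_nonneg_of_le (fun _ => norm_nonneg _) (fun l => h.ul_le l ht) h.mj_summ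
  have hcs : Summable fun l => (1 / 2 : ℝ) ^ n * (2 * cB η rinf b l) :=
    (h.cB_summ.mul_left 2).mul_left _
  have e : src V E (zn ν V E n) k t - src V E (zl ν V E) k t =
      Bf (fun l => V l t + zn ν V E n l t)
        (fun l => (V l t + zn ν V E n l t) - (V l t + zl ν V E l t)) k +
      Bf (fun l => (V l t + zn ν V E n l t) - (V l t + zl ν V E l t))
        (fun l => V l t + zl ν V E l t) k := by
    rw [Bf_sub_right su su sl, Bf_sub_left su sl sl]
    unfold src
    abel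
  rw [e]
  have b1 := norm_Bf' (fun l => h.un_le n l ht) hd h.mj_summ hcs k
  have b2 := norm_Bf' hd (fun l => h.ul_le l ht) hcs h.mj_summ k
  refine (norm_add_le _ _).trans ((add_le_add b1 b2).trans (le_of_eq ?_))
  unfold Kc
  have e1 : ∑' l, mj η rinf b CV S (k - l) * ((1 / 2) ^ n * (2 * cB η rinf b l)) =
      (1 / 2) ^ n * ∑' l, mj η rinf b CV S (k - l) * (2 * cB η rinf b l) := by
    rw [← tsum_mul_left]
    exact tsum_congr fun l => by ring
  have e2 : ∑' l, ((1 / 2) ^ n * (2 * cB η rinf b (k - l))) * mj η rinf b CV S l =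
      (1 / 2) ^ n * ∑' l, (2 * cB η rinf b (k - l)) * mj η rinf b CV S l := by
    rw [← tsum_mul_left]
    exact tsum_congr fun l => by ring
  rw [e1, e2]
  ring

/-- the limit source, extended to negative times -/
noncomputable def gl (ν : ℝ) (V E : K3 → ℝ → C3) (k : K3) (s : ℝ) : C3 :=
  src V E (zl ν V E) k (max s 0)

lemma half_tendsto : Tendsto (fun n : ℕ => (1 / 2 : ℝ) ^ n) atTop (𝓝 0) :=
  tendsto_pow_atTop_nhds_zero_of_lt_one (by norm_num) (by norm_num)

lemma Setup.gl_cont (h : Setup ν b M rinf η CV φ S V E) (k : K3) : Continuous (gl ν V E k) := by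
  have hu : TendstoUniformly (fun (n : ℕ) (s : ℝ) => src V E (zn ν V E n) k (max s 0)) (gl ν V E k)
      atTop := by
    rw [Metric.tendstoUniformly_iff]
    intro ε hε
    have h1 : Tendsto (fun n : ℕ => Kc η rinf b CV S k * (1 / 2 : ℝ) ^ n) atTop (𝓝 0) := by
      simpa using half_tendsto.const_mul (Kc η rinf b CV S k)
    filter_upwards [h1.eventually (gt_mem_nhds hε)] with n hn s
    rw [dist_comm, dist_eq_norm]
    exact lt_of_le_of_lt (h.src_conv n k (le_max_right s 0)) hn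
  refine hu.continuous (Filter.Frequently.of_forall fun n => ?_)
  have := (h.fs (n + 1)).cont k
  have e : gs ν V E (n + 1) = src V E (zn ν V E n) := rfl
  rw [e] at this
  exact this.comp (continuous_id.max continuous_const)

/-- the perturbation -/
noncomputable def zf (ν : ℝ) (V E : K3 → ℝ → C3) (k : K3) (t : ℝ) : C3 :=
  -duh (lam ν k) (gl ν V E k) t

lemma Setup.zf_eq (h : Setup ν b M rinf η CV φ S V E) (k : K3) {t : ℝ} (ht : 0 ≤ t) :
    zf ν V E k t = zl ν V E k t := by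
  have h1 := (h.tends k ht).comp (tendsto_add_atTop_nat 1)
  refine tendsto_nhds_unique ?_ h1
  rw [tendsto_iff_norm_sub_tendsto_zero]
  have h2 : Tendsto (fun n : ℕ => Kc η rinf b CV S k * (1 / 2 : ℝ) ^ n * t) atTop (𝓝 0) := by
    simpa using (half_tendsto.const_mul (Kc η rinf b CV S k)).mul_const t
  refine squeeze_zero (fun n => norm_nonneg _) (fun n => ?_) h2
  have f2 := (h.fs (n + 1)).cont k
  have e : (fun n => zn ν V E n k t) (n + 1) - zf ν V E k t =
      duh (lam ν k) (fun s => gl ν V E k s - gs ν V E (n + 1) k s) t := by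
    rw [duh_sub _ (h.gl_cont k) f2]
    show -duh (lam ν k) (gs ν V E (n + 1) k) t - -duh (lam ν k) (gl ν V E k) t = _
    abel
  show ‖(fun n => zn ν V E n k t) (n + 1) - zf ν V E k t‖ ≤ _
  rw [e]
  refine duh_le_sup (lam_nonneg h.hν.le k) ht fun s hs _ => ?_
  rw [norm_sub_rev]
  have e3 : gl ν V E k s = src V E (zl ν V E) k s := by
    unfold gl
    rw [max_eq_left hs]
  rw [e3]
  exact h.src_conv n k hs

lemma src_congr {V E z z' : K3 → ℝ → C3} {t : ℝ} (h : ∀ k, z k t = z' k t) (k : K3) :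
    src V E z k t = src V E z' k t := by
  unfold src
  simp only [h]

lemma Setup.zf_deriv (h : Setup ν b M rinf η CV φ S V E) (k : K3) {t : ℝ} (ht : 0 ≤ t) :
    HasDerivAt (zf ν V E k) (-(lam ν k • zf ν V E k t) - src V E (zf ν V E) k t) t := by
  have h1 := (duh_hasDerivAt (lam ν k) (h.gl_cont k) t).neg
  refine h1.congr_deriv ?_
  have e : gl ν V E k t = src V E (zf ν V E) k t := by
    unfold gl
    rw [max_eq_left ht]
    exact src_congr (fun k => (h.zf_eq k ht).symm) k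
  rw [e]
  unfold zf
  rw [smul_neg]
  abel

lemma Setup.zf_cont (h : Setup ν b M rinf η CV φ S V E) (k : K3) : Continuous (zf ν V E k) :=
  (duh_continuous _ (h.gl_cont k)).neg

/-- `v ↦ k · v` as a continuous linear map -/
noncomputable def kdotL (k : K3) : C3 →L[ℝ] ℂ :=
  LinearMap.toContinuousLinearMap
    { toFun := kdot k
      map_add' := kdot_add k
      map_smul' := fun c v => by
        have := kdot_smul k (c : ℂ) v
        simpa using this }

lemma duh_clm {E F : Type*} [NormedAddCommGroup E] [NormedSpace ℝ E] [CompleteSpace E]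
    [NormedAddCommGroup F] [NormedSpace ℝ F] [CompleteSpace F] (L : E →L[ℝ] F) (lam : ℝ)
    {g : ℝ → E} (hg : Continuous g) (t : ℝ) :
    L (duh lam g t) = duh lam (fun s => L (g s)) t := by
  unfold duh
  rw [← ContinuousLinearMap.intervalIntegral_comp_comm L
    (Continuous.intervalIntegrable (by fun_prop) _ _)]
  refine intervalIntegral.integral_congr fun s _ => ?_
  simp only
  rw [L.map_smul]

lemma Setup.zf_div (h : Setup ν b M rinf η CV φ S V E) (k : K3) (t : ℝ) :
    kdot k (zf ν V E k t) = 0 := by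
  have e : kdot k (zf ν V E k t) = -(kdotL k (duh (lam ν k) (gl ν V E k) t)) := by
    rw [← map_neg]
    rfl
  rw [e, duh_clm (kdotL k) _ (h.gl_cont k)]
  have e2 : ∀ s, kdotL k (gl ν V E k s) = 0 := by
    intro s
    show kdot k (gl ν V E k s) = 0
    unfold gl src
    rw [kdot_add, kdot_sub, kdot_Bf, kdot_Bf, h.divE]
    ring
  simp only [e2]
  unfold duh
  simp

/-- conjugation as a continuous linear map -/
noncomputable def cjL : C3 →L[ℝ] C3 :=
  LinearMap.toContinuousLinearMap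
    { toFun := cj
      map_add' := fun v w => by funext i; simp [cj]
      map_smul' := fun c v => by funext i; simp [cj] }

lemma lam_neg (ν : ℝ) (k : K3) : lam ν (-k) = lam ν k := by
  unfold lam
  rw [sq_neg]

lemma Setup.gs_herm (h : Setup ν b M rinf η CV φ S V E) (n : ℕ) (t : ℝ) :
    Herm (fun k => gs ν V E n k t) ∧ Herm (fun k => zn ν V E n k t) := by
  have key : ∀ n, (∀ t, Herm (fun k => gs ν V E n k t)) → ∀ t, Herm (fun k => zn ν V E n k t) := by
    intro n hn t k
    show -duh (lam ν (-k)) (gs ν V E n (-k)) t = cj (-duh (lam ν k) (gs ν V E n k) t)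
    have e : cj (-duh (lam ν k) (gs ν V E n k) t) = -(cjL (duh (lam ν k) (gs ν V E n k) t)) := by
      rw [← map_neg]; rfl
    rw [e, duh_clm cjL _ ((h.fs n).cont k), lam_neg]
    congr 2
    funext s
    exact hn s k
  have main : ∀ n, ∀ t, Herm (fun k => gs ν V E n k t) := by
    intro n
    induction n with
    | zero =>
      intro t k
      show (0 : C3) = cj 0
      funext i
      simp [cj]
    | succ n ih =>
      intro t
      have hz := key n ih t
      have f1 := h.hV.mono (Sn_base S n)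
      have f2 := (h.fs n).Tm ν
      have hVz : Herm (fun k => V k t + zn ν V E n k t) := by
        intro k
        show V (-k) t + zn ν V E n (-k) t = cj (V k t + zn ν V E n k t)
        have a := h.hermV t k
        have b := hz k
        simp only at a b
        rw [a, b]
        funext i
        simp [cj]
      have b1 := Herm_Bf hVz hVz ((f1.add f2).summ' t) ((f1.add f2).summ' t)
      have b2 := Herm_Bf (h.hermV t) (h.hermV t) (h.hV.summ' t) (h.hV.summ' t)
      intro k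
      have a1 := b1 k
      have a2 := b2 k
      have a3 := h.hermE t k
      simp only at a3
      show Bf (fun l => V l t + zn ν V E n l t) (fun l => V l t + zn ν V E n l t) (-k) -
        Bf (fun l => V l t) (fun l => V l t) (-k) + E (-k) t = cj (Bf (fun l => V l t + zn ν V E n l t)
          (fun l => V l t + zn ν V E n l t) k - Bf (fun l => V l t) (fun l => V l t) k + E k t)
      rw [a1, a2, a3]
      funext i
      simp [cj]
  exact ⟨main n t, key n (main n) t⟩

lemma Setup.zf_herm (h : Setup ν b M rinf η CV φ S V E) {t : ℝ} (ht : 0 ≤ t) :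
    Herm (fun k => zf ν V E k t) := by
  intro k
  show zf ν V E (-k) t = cj (zf ν V E k t)
  rw [h.zf_eq k ht, h.zf_eq (-k) ht]
  have h1 := h.tends (-k) ht
  have h2 := (cjL.continuous.tendsto _).comp (h.tends k ht)
  refine tendsto_nhds_unique h1 ?_
  refine h2.congr fun n => ?_
  exact ((h.gs_herm n t).2 k).symm

lemma Setup.zf_bd (h : Setup ν b M rinf η CV φ S V E) (k : K3) {t : ℝ} (ht : 0 ≤ t) :
    ‖zf ν V E k t‖ ≤ 2 * cB η rinf b k := by
  rw [h.zf_eq k ht]
  exact h.zl_bd k ht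

lemma Setup.zf_small (h : Setup ν b M rinf η CV φ S V E) (F : Finset K3) {t : ℝ} (ht : 0 ≤ t) :
    ∑ k ∈ F, FM.mk b k * ‖zf ν V E k t‖ ≤ 2 * η / rinf := by
  have h1 : Tendsto (fun n => ∑ k ∈ F, FM.mk b k * ‖zn ν V E n k t‖) atTop
      (𝓝 (∑ k ∈ F, FM.mk b k * ‖zf ν V E k t‖)) := by
    refine tendsto_finsetSum _ fun k _ => ?_
    rw [h.zf_eq k ht]
    exact ((h.tends k ht).norm).const_mul _
  refine le_of_tendsto' h1 fun n => ?_
  have f := h.fs n
  have hr := h.hr
  rw [le_div_iff₀ hr]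
  have a1 := Tm_bd1 h.hM h.hν.le h.hφ h.h0 f ht (b := b)
  have a2 := h.DDle ht n
  have a3 : ∑ k ∈ F, FM.mk b k * ‖zn ν V E n k t‖ ≤ ∑' k, FM.mk b k * ‖Tm ν (gs ν V E n) k t‖ :=
    ((f.Tm ν).summ (FM.mk b) t).sum_le_tsum F fun k _ => mul_nonneg (mk_nonneg b k) (norm_nonneg _)
  have a4 : 0 ≤ ∑ k ∈ F, FM.mk b k * ‖zn ν V E n k t‖ :=
    Finset.sum_nonneg fun k _ => mul_nonneg (mk_nonneg b k) (norm_nonneg _)
  have a5 := h.hrt t ht
  calc (∑ k ∈ F, FM.mk b k * ‖zn ν V E n k t‖) * rinf ≤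
      (∑ k ∈ F, FM.mk b k * ‖zn ν V E n k t‖) * rho M φ t := by gcongr
    _ ≤ (∑' k, FM.mk b k * ‖Tm ν (gs ν V E n) k t‖) * rho M φ t := by
        gcongr
        exact (rho_pos M φ t).le
    _ ≤ 2 * η := by linarith

end

end Pool.Agent.X97.FM
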