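import Pool.Agent.X97.FM.Core
import Pool.Agent.H459R3.NS.High2

/-!
Global smooth solutions with prescribed low modes.
-/

open MeasureTheory Set Filter Topology
open scoped ContDiff

namespace Pool.Agent.X97.FM

open H459R3.NS

lemma gw_sq (s : ℝ) (k : K3) : (1 + sq k) ^ (-s) = gw s k ^ 2 := by
  unfold gw
  have h : 0 < 1 + sq k := by have := sq_nonneg' k; linarith
  rw [← Real.rpow_natCast, ← Real.rpow_mul h.le]
  congr 1
  push_cast
  ring

lemma sum_sq_le (v : C3) : ∑ i, ‖v i‖ ^ 2 ≤ 3 * ‖v‖ ^ 2 := by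
  have h : ∀ i ∈ (Finset.univ : Finset (Fin 3)), ‖v i‖ ^ 2 ≤ ‖v‖ ^ 2 := fun i _ => by
    have := norm_le_pi_norm v i
    gcongr
  refine (Finset.sum_le_sum h).trans (le_of_eq ?_)
  simp

lemma tsum_sq_le {a : K3 → ℝ} (ha : ∀ k, 0 ≤ a k) (hs : Summable a) :
    Summable (fun k => a k ^ 2) ∧ ∑' k, a k ^ 2 ≤ (∑' k, a k) ^ 2 := by
  have h1 : ∀ k, a k ^ 2 ≤ (∑' k, a k) * a k := by
    intro k
    have := hs.le_tsum k fun j _ => ha j
    have := ha k
    nlinarith
  have s1 : Summable fun k => (∑' k, a k) * a k := hs.mul_left _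
  have s2 : Summable fun k => a k ^ 2 := Summable.of_nonneg_of_le (fun k => sq_nonneg _) h1 s1
  refine ⟨s2, (s2.tsum_le_tsum h1 s1).trans (le_of_eq ?_)⟩
  rw [tsum_mul_left]
  ring

lemma enstrophy_nonneg' (v : V → V) : 0 ≤ enstrophy v :=
  Finset.sum_nonneg fun _ _ => Finset.sum_nonneg fun _ _ => integral_nonneg fun _ => sq_nonneg _

lemma energy_anti {ν T : ℝ} {u : ℝ → V → V} {p : ℝ → V → ℝ} (h : IsSol ν T u p) (hν : 0 < ν)
    {s t : ℝ} (hs : 0 < s) (hst : s ≤ t) (htT : t < T) : energy (u t) ≤ energy (u s) := by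
  have hd : ∀ r ∈ Icc s t, HasDerivAt (fun s => energy (u s)) (-(2 * ν * enstrophy (u r))) r :=
    fun r hr => h.energy_hasDerivAt ⟨hs.trans_le hr.1, hr.2.trans_lt htT⟩
  have ha : AntitoneOn (fun s => energy (u s)) (Icc s t) := by
    refine antitoneOn_of_deriv_nonpos (convex_Icc s t)
      (fun r hr => (hd r hr).continuousAt.continuousWithinAt) (fun r hr =>
        (hd r (interior_subset hr)).differentiableAt.differentiableWithinAt) fun r hr => ?_
    rw [(hd r (interior_subset hr)).deriv]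
    have := enstrophy_nonneg' (u r)
    have : 0 ≤ 2 * ν * enstrophy (u r) := by positivity
    linarith
  exact ha (left_mem_Icc.2 hst) (right_mem_Icc.2 hst) hst

lemma energy_le_of_small {ν : ℝ} {w : K3 → ℝ → C3} (h : FSol ν w) {t δ : ℝ} (ht : 0 ≤ t)
    (hδ : ∑' k, ‖w k t‖ ≤ δ) : energy (uP w t) ≤ 3 * δ ^ 2 := by
  have hS := h.summ ht
  have hb : ∀ x i, |uP w t x i| ≤ δ := by
    intro x i
    unfold uP
    refine (Complex.abs_re_le_norm _).trans ?_
    have h1 : ‖SS (fun k t => w k t i) (t, x)‖ ≤ ∑' k, ‖w k t i‖ :=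
      norm_S_le ((h.nice0 i).summable ht) x
    have h2 : ∑' k, ‖w k t i‖ ≤ ∑' k, ‖w k t‖ :=
      ((h.nice0 i).summable ht).norm.tsum_le_tsum (fun k => norm_le_pi_norm _ i) hS
    linarith
  have hδ0 : 0 ≤ δ := (tsum_nonneg fun _ => norm_nonneg _).trans hδ
  have hi : ∀ i, ∫ x in cube, uP w t x i ^ 2 ≤ δ ^ 2 := by
    intro i
    have hv : volume.real cube = 1 := by
      unfold cube
      rw [Measure.real, Real.volume_Icc_pi]
      simp
    have h3 : ∫ x in cube, uP w t x i ^ 2 ≤ ∫ _x in cube, δ ^ 2 := by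
      refine integral_mono_of_nonneg (Filter.Eventually.of_forall fun x => sq_nonneg _)
        ?_ (Filter.Eventually.of_forall fun x => ?_)
      · have := cube_finite
        exact integrable_const _
      · have := hb x i
        show uP w t x i ^ 2 ≤ δ ^ 2
        rw [← sq_abs]
        have := abs_nonneg (uP w t x i)
        gcongr
    refine h3.trans (le_of_eq ?_)
    rw [setIntegral_const, hv, one_smul]
  unfold energy
  refine (Finset.sum_le_sum fun i _ => hi i).trans (le_of_eq ?_)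
  simp

theorem main {ν : ℝ} (hν : 0 < ν) {c : K3 → C3} (hh : Herm c) (h0 : c 0 = 0)
    (hdiv : ∀ k, kdot k (c k) = 0) {s ε : ℝ} (hs : 1 < s)
    (hc : Summable fun k => (1 + sq k) ^ (-s) * ∑ i, ‖c k i‖ ^ 2) (K : ℕ) (hε : 0 < ε) :
    ∃ (u : ℝ → V → V) (p : ℝ → V → ℝ), (∀ T, IsSol ν T u p) ∧
      (∀ k, N k ≤ K → ∀ i, fr (fun x => u 0 x i) k = c k i) ∧
      ((Summable fun k => (1 + sq k) ^ (-s) * ∑ i, ‖fr (fun x => u 0 x i) k - c k i‖ ^ 2) ∧
        ∑' k, (1 + sq k) ^ (-s) * ∑ i, ‖fr (fun x => u 0 x i) k - c k i‖ ^ 2 ≤ ε ^ 2) ∧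
      ∀ t, ε ≤ t → energy (u t) ≤ ε := by
  classical
  set f : K3 → ℝ := fun k => (1 + sq k) ^ (-s) * ∑ i, ‖c k i‖ ^ 2 with hf
  have f0 : ∀ k, 0 ≤ f k := fun k => mul_nonneg
    (Real.rpow_nonneg (by have := sq_nonneg' k; linarith) _) (Finset.sum_nonneg fun _ _ => sq_nonneg _)
  -- the tail
  obtain ⟨F, hF⟩ : ∃ F : Finset K3, ∑' k, f k - ∑ k ∈ F, f k < ε ^ 2 / 4 := by
    have h1 : Tendsto (fun F : Finset K3 => ∑' k, f k - ∑ k ∈ F, f k) atTop (𝓝 0) := by
      have h := (hc.hasSum : Tendsto (fun F : Finset K3 => ∑ k ∈ F, f k) atTop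
        (𝓝 (∑' k, f k))).const_sub (∑' k, f k)
      rwa [sub_self] at h
    exact (h1.eventually (gt_mem_nhds (by positivity))).exists
  set K' : ℕ := max K (F.sup N) with hK'
  have hFK : ∀ k ∈ F, N k ≤ K' := fun k hk => (Finset.le_sup hk).trans (le_max_right _ _)
  set f1 : K3 → ℝ := fun k => if N k ≤ K' then 0 else f k with hf1
  have f10 : ∀ k, 0 ≤ f1 k := fun k => by
    simp only [hf1]
    split_ifs
    · exact le_rfl
    · exact f0 k
  have sf1 : Summable f1 := Summable.of_nonneg_of_le f10 (fun k => by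
    simp only [hf1]
    split_ifs
    · exact f0 k
    · exact le_rfl) hc
  have tail : ∑' k, f1 k ≤ ε ^ 2 / 4 := by
    have s2 : Summable fun k => if k ∈ F then f k else 0 :=
      summable_of_ne_finset_zero (s := F) fun k hk => if_neg hk
    have e2 : ∑' k, (if k ∈ F then f k else 0) = ∑ k ∈ F, f k := by
      rw [tsum_eq_sum (s := F) fun k hk => if_neg hk]
      exact Finset.sum_congr rfl fun k hk => if_pos hk
    have h3 : ∑' k, (f1 k + if k ∈ F then f k else 0) ≤ ∑' k, f k := by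
      refine (sf1.add s2).tsum_le_tsum (fun k => ?_) hc
      simp only [hf1]
      by_cases hk : k ∈ F
      · rw [if_pos (hFK k hk), if_pos hk, zero_add]
      · rw [if_neg hk, add_zero]
        split_ifs
        · exact f0 k
        · exact le_rfl
    rw [sf1.tsum_add s2, e2] at h3
    linarith
  set δ : ℝ := min (ε / 4) 1 with hδ
  have hδ0 : 0 < δ := lt_min (by positivity) one_pos
  have hδ1 : δ ≤ ε / 4 := min_le_left _ _
  have hδ2 : δ ≤ 1 := min_le_right _ _
  obtain ⟨w, hw, hlow, ⟨X, sX, hX, hwX⟩, t, ht, hwt⟩ := core hν hh h0 hdiv K' hs hδ0 hε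
  refine ⟨uP w, pP w, hw.isSol, ?_, ?_, ?_⟩
  · intro k hk i
    rw [hw.fr_eq le_rfl i k, hlow k (hk.trans (le_max_left _ _))]
  · simp only [hw.fr_eq le_rfl]
    have g0 : ∀ k, 0 ≤ gw s k * ‖X k‖ := fun k => mul_nonneg (gw_nonneg s k) (norm_nonneg _)
    obtain ⟨sX2, hX2⟩ := tsum_sq_le g0 sX
    have hle : ∀ k, (1 + sq k) ^ (-s) * ∑ i, ‖w k 0 i - c k i‖ ^ 2 ≤
        6 * (gw s k * ‖X k‖) ^ 2 + 2 * f1 k := by
      intro k
      have hg : 0 ≤ (1 + sq k) ^ (-s) := Real.rpow_nonneg (by have := sq_nonneg' k; linarith) _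
      have h5 := sum_sq_le (X k)
      by_cases hk : N k ≤ K'
      · have e : w k 0 = c k := hlow k hk
        rw [e]
        simp only [sub_self, norm_zero]
        have := f10 k
        have : 0 ≤ (gw s k * ‖X k‖) ^ 2 := sq_nonneg _
        simp
        positivity
      · have e : w k 0 = X k := by rw [hwX, if_neg hk, zero_add]
        have e2 : f1 k = f k := by simp only [hf1]; rw [if_neg hk]
        rw [e, e2]
        have h6 : ∑ i, ‖X k i - c k i‖ ^ 2 ≤ 2 * ∑ i, ‖X k i‖ ^ 2 + 2 * ∑ i, ‖c k i‖ ^ 2 := by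
          rw [Finset.mul_sum, Finset.mul_sum, ← Finset.sum_add_distrib]
          refine Finset.sum_le_sum fun i _ => ?_
          have := norm_sub_le (X k i) (c k i)
          have := norm_nonneg (X k i - c k i)
          nlinarith [sq_nonneg (‖X k i‖ - ‖c k i‖)]
        calc (1 + sq k) ^ (-s) * ∑ i, ‖X k i - c k i‖ ^ 2 ≤
            (1 + sq k) ^ (-s) * (2 * (3 * ‖X k‖ ^ 2) + 2 * ∑ i, ‖c k i‖ ^ 2) := by
              gcongr
              linarith
          _ = 6 * ((1 + sq k) ^ (-s) * ‖X k‖ ^ 2) + 2 * f k := by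
              simp only [hf]
              ring
          _ = _ := by rw [gw_sq]; ring
    have s3 : Summable fun k => 6 * (gw s k * ‖X k‖) ^ 2 + 2 * f1 k :=
      (sX2.mul_left 6).add (sf1.mul_left 2)
    have hn : ∀ k, 0 ≤ (1 + sq k) ^ (-s) * ∑ i, ‖w k 0 i - c k i‖ ^ 2 := fun k => mul_nonneg
      (Real.rpow_nonneg (by have := sq_nonneg' k; linarith) _)
      (Finset.sum_nonneg fun _ _ => sq_nonneg _)
    have s4 := Summable.of_nonneg_of_le hn hle s3
    refine ⟨s4, (s4.tsum_le_tsum hle s3).trans ?_⟩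
    rw [(sX2.mul_left 6).tsum_add (sf1.mul_left 2), tsum_mul_left, tsum_mul_left]
    have h7 : (∑' k, gw s k * ‖X k‖) ^ 2 ≤ δ ^ 2 := by
      have : 0 ≤ ∑' k, gw s k * ‖X k‖ := tsum_nonneg g0
      gcongr
    have h8 : δ ^ 2 ≤ (ε / 4) ^ 2 := by gcongr
    nlinarith
  · intro r hr
    have ht0 : 0 < t := by linarith [ht.1]
    have h1 := energy_anti (hw.isSol (r + 1)) hν ht0 (ht.2.trans hr) (by linarith)
    have h2 := energy_le_of_small hw ht0.le hwt
    nlinarith

end Pool.Agent.X97.FM
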