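import Pool.Agent.X97.FM.Iter

/-!
Families of functions of time which are smooth on `[0, ∞)` and decay exponentially in the frequency.
-/

open MeasureTheory Set Filter Topology
open scoped ContDiff

namespace Pool.Agent.X97.FM

open H459R3.NS

/-- Continuous on `[0, ∞)` with exponential decay in the frequency, uniformly in time. -/
def Nice0 (f : K3 → ℝ → ℂ) : Prop :=
  (∀ k, ContinuousOn (f k) (Ici 0)) ∧ ∃ C b : ℝ, 0 ≤ C ∧ 0 < b ∧
    ∀ k t, 0 ≤ t → ‖f k t‖ ≤ C * Real.exp (-(b * N k))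

/-- The same for the derivatives of order at most `n`. -/
def Nice : ℕ → (K3 → ℝ → ℂ) → Prop
  | 0, f => Nice0 f
  | n + 1, f => Nice0 f ∧ ∃ f' : K3 → ℝ → ℂ,
      (∀ k t, 0 ≤ t → HasDerivWithinAt (f k) (f' k t) (Ici 0) t) ∧ Nice n f'

lemma Nice.nice0 {n : ℕ} {f : K3 → ℝ → ℂ} (h : Nice n f) : Nice0 f := by
  cases n with
  | zero => exact h
  | succ n => exact h.1

lemma Nice.pred {n : ℕ} {f : K3 → ℝ → ℂ} (h : Nice (n + 1) f) : Nice n f := by
  induction n generalizing f with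
  | zero => exact h.1
  | succ n ih =>
    obtain ⟨h0, f', h1, h2⟩ := h
    exact ⟨h0, f', h1, ih h2⟩

lemma Nice0.congr {f g : K3 → ℝ → ℂ} (h : Nice0 f) (e : ∀ k t, 0 ≤ t → g k t = f k t) : Nice0 g := by
  obtain ⟨hc, C, b, hC, hb, hd⟩ := h
  refine ⟨fun k => (hc k).congr fun t ht => e k t ht, C, b, hC, hb, fun k t ht => ?_⟩
  rw [e k t ht]
  exact hd k t ht

lemma Nice.congr {n : ℕ} {f g : K3 → ℝ → ℂ} (h : Nice n f) (e : ∀ k t, 0 ≤ t → g k t = f k t) :
    Nice n g := by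
  cases n with
  | zero => exact Nice0.congr h e
  | succ n =>
    obtain ⟨h0, f', h1, h2⟩ := h
    exact ⟨h0.congr e, f', fun k t ht => (h1 k t ht).congr (fun s hs => e k s hs) (e k t ht), h2⟩

lemma exp_mono_b {b c : ℝ} (h : b ≤ c) (k : K3) :
    Real.exp (-(c * N k)) ≤ Real.exp (-(b * N k)) := by
  apply Real.exp_le_exp.2
  have : (0 : ℝ) ≤ N k := by positivity
  nlinarith

lemma Nice0.add {f g : K3 → ℝ → ℂ} (hf : Nice0 f) (hg : Nice0 g) :
    Nice0 fun k t => f k t + g k t := by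
  obtain ⟨hc, C, b, hC, hb, hd⟩ := hf
  obtain ⟨hc', C', b', hC', hb', hd'⟩ := hg
  refine ⟨fun k => (hc k).add (hc' k), C + C', min b b', by positivity, lt_min hb hb',
    fun k t ht => ?_⟩
  have h1 := exp_mono_b (min_le_left b b') k
  have h2 := exp_mono_b (min_le_right b b') k
  calc ‖f k t + g k t‖ ≤ ‖f k t‖ + ‖g k t‖ := norm_add_le _ _
    _ ≤ C * Real.exp (-(b * N k)) + C' * Real.exp (-(b' * N k)) := add_le_add (hd k t ht) (hd' k t ht)
    _ ≤ C * Real.exp (-(min b b' * N k)) + C' * Real.exp (-(min b b' * N k)) := by gcongr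
    _ = _ := by ring

lemma Nice.add {n : ℕ} {f g : K3 → ℝ → ℂ} (hf : Nice n f) (hg : Nice n g) :
    Nice n fun k t => f k t + g k t := by
  induction n generalizing f g with
  | zero => exact Nice0.add hf hg
  | succ n ih =>
    obtain ⟨h0, f', h1, h2⟩ := hf
    obtain ⟨i0, g', i1, i2⟩ := hg
    exact ⟨h0.add i0, fun k t => f' k t + g' k t, fun k t ht => (h1 k t ht).add (i1 k t ht),
      ih h2 i2⟩

lemma Nice.zero (n : ℕ) : Nice n fun _ _ => 0 := by
  have h0 : Nice0 fun _ _ => 0 := ⟨fun _ => continuousOn_const, 0, 1, le_rfl, one_pos,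
    fun k t _ => by simp⟩
  induction n with
  | zero => exact h0
  | succ n ih => exact ⟨h0, fun _ _ => 0, fun k t _ => hasDerivWithinAt_const _ _ _, ih⟩

lemma Nice.sum {n : ℕ} {ι : Type*} (s : Finset ι) {f : ι → K3 → ℝ → ℂ} (hf : ∀ i ∈ s, Nice n (f i)) :
    Nice n fun k t => ∑ i ∈ s, f i k t := by
  classical
  induction s using Finset.induction_on with
  | empty => simpa using Nice.zero n
  | insert a s ha ih =>
    have h1 := (hf a (Finset.mem_insert_self a s)).add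
      (ih fun i hi => hf i (Finset.mem_insert_of_mem hi))
    refine h1.congr fun k t _ => ?_
    rw [Finset.sum_insert ha]

/-- multipliers of polynomial growth -/
def PolyG (c : K3 → ℂ) : Prop := ∃ A : ℝ, ∃ m : ℕ, 0 ≤ A ∧ ∀ k, ‖c k‖ ≤ A * (1 + N k) ^ m

lemma Nice0.mul {f : K3 → ℝ → ℂ} (hf : Nice0 f) {c : K3 → ℂ} (hc : PolyG c) :
    Nice0 fun k t => c k * f k t := by
  obtain ⟨hcf, C, b, hC, hb, hd⟩ := hf
  obtain ⟨A, m, hA, hm⟩ := hc
  obtain ⟨B, hB, hBx⟩ := pow_exp_le hb m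
  refine ⟨fun k => continuousOn_const.mul (hcf k), A * C * (B * Real.exp b), b / 2, by positivity,
    half_pos hb, fun k t ht => ?_⟩
  have h1 := hBx (1 + N k) (by positivity)
  have e1 : Real.exp (-(b * N k)) = Real.exp b * Real.exp (-(b * (1 + N k))) := by
    rw [← Real.exp_add]; congr 1; ring
  have e2 : Real.exp (-(b / 2 * (1 + N k))) ≤ Real.exp (-(b / 2 * N k)) := by
    apply Real.exp_le_exp.2
    nlinarith
  rw [norm_mul]
  calc ‖c k‖ * ‖f k t‖ ≤ (A * (1 + N k) ^ m) * (C * Real.exp (-(b * N k))) :=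
        mul_le_mul (hm k) (hd k t ht) (norm_nonneg _) (by positivity)
    _ = A * C * (Real.exp b * ((1 + N k) ^ m * Real.exp (-(b * (1 + N k))))) := by
        rw [e1]; ring
    _ ≤ A * C * (Real.exp b * (B * Real.exp (-(b / 2 * N k)))) :=
        mul_le_mul_of_nonneg_left (mul_le_mul_of_nonneg_left
          (h1.trans (mul_le_mul_of_nonneg_left e2 hB.le)) (Real.exp_pos b).le) (by positivity)
    _ = _ := by ring

lemma Nice.mul {n : ℕ} {f : K3 → ℝ → ℂ} (hf : Nice n f) {c : K3 → ℂ} (hc : PolyG c) :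
    Nice n fun k t => c k * f k t := by
  induction n generalizing f with
  | zero => exact Nice0.mul hf hc
  | succ n ih =>
    obtain ⟨h0, f', h1, h2⟩ := hf
    exact ⟨h0.mul hc, fun k t => c k * f' k t, fun k t ht => (h1 k t ht).const_mul _, ih h2⟩

lemma polyG_const (c : ℂ) : PolyG fun _ => c := ⟨‖c‖, 0, norm_nonneg _, fun k => by simp⟩

lemma polyG_coord (j : Fin 3) : PolyG fun k => (k j : ℂ) := by
  refine ⟨1, 1, zero_le_one, fun k => ?_⟩
  have := abs_le_N' k j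
  rw [Complex.norm_intCast]
  linarith

lemma PolyG.mul {c d : K3 → ℂ} (hc : PolyG c) (hd : PolyG d) : PolyG fun k => c k * d k := by
  obtain ⟨A, m, hA, h⟩ := hc
  obtain ⟨B, l, hB, h'⟩ := hd
  refine ⟨A * B, m + l, by positivity, fun k => ?_⟩
  rw [norm_mul]
  calc ‖c k‖ * ‖d k‖ ≤ (A * (1 + N k) ^ m) * (B * (1 + N k) ^ l) :=
        mul_le_mul (h k) (h' k) (norm_nonneg _) (by positivity)
    _ = _ := by rw [pow_add]; ring

lemma polyG_inv_sq : PolyG fun k => ((sq k : ℂ))⁻¹ := by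
  refine ⟨1, 0, zero_le_one, fun k => ?_⟩
  rw [norm_inv, Complex.norm_real, Real.norm_of_nonneg (sq_nonneg' k)]
  by_cases hk : k = 0
  · subst hk
    simp [sq]
  · have h1 : N k ≠ 0 := fun h => hk (N_eq_zero.1 h)
    have h2 : (1 : ℝ) ≤ N k := by exact_mod_cast Nat.one_le_iff_ne_zero.2 h1
    have h3 := N_sq_le k
    have h4 : 1 ≤ sq k := by nlinarith
    simpa using inv_le_one_of_one_le₀ h4

lemma polyG_lam (ν : ℝ) : PolyG fun k => ((lam ν k : ℝ) : ℂ) := by
  have e : ∀ k, ((lam ν k : ℝ) : ℂ) = ((ν * (4 * Real.pi ^ 2) : ℝ) : ℂ) * ∑ j, (k j : ℂ) * (k j : ℂ) := by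
    intro k
    have e2 : ∑ j, (k j : ℂ) * (k j : ℂ) = ((sq k : ℝ) : ℂ) := by
      unfold sq
      push_cast
      exact Finset.sum_congr rfl fun j _ => by ring
    rw [e2]
    unfold lam
    push_cast
    ring
  have h : PolyG fun k => ∑ j, (k j : ℂ) * (k j : ℂ) := by
    refine ⟨3, 2, by norm_num, fun k => ?_⟩
    refine (norm_sum_le _ _).trans ?_
    have : ∀ j ∈ (Finset.univ : Finset (Fin 3)), ‖(k j : ℂ) * (k j : ℂ)‖ ≤ (1 + N k : ℝ) ^ 2 := by
      intro j _
      have := abs_le_N' k j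
      rw [norm_mul, Complex.norm_intCast]
      have h0 := abs_nonneg (k j : ℝ)
      nlinarith
    refine (Finset.sum_le_sum this).trans (le_of_eq ?_)
    simp
  have := (polyG_const ((ν * (4 * Real.pi ^ 2) : ℝ) : ℂ)).mul h
  obtain ⟨A, m, hA, hm⟩ := this
  refine ⟨A, m, hA, fun k => ?_⟩
  show ‖((lam ν k : ℝ) : ℂ)‖ ≤ _
  rw [e k]
  exact hm k

/-- the extension to negative times by the tangent -/
noncomputable def tex {E : Type*} [NormedAddCommGroup E] [NormedSpace ℝ E] (f f' : ℝ → E) (s : ℝ) : E :=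
  if 0 ≤ s then f s else f 0 + s • f' 0

lemma tex_hasDerivAt {E : Type*} [NormedAddCommGroup E] [NormedSpace ℝ E] {f f' : ℝ → E}
    (hf : ∀ t, 0 ≤ t → HasDerivWithinAt f (f' t) (Ici 0) t) (s : ℝ) :
    HasDerivAt (tex f f') (f' (max s 0)) s := by
  have hlin : ∀ s, HasDerivAt (fun s : ℝ => f 0 + s • f' 0) (f' 0) s := by
    intro s
    simpa using ((hasDerivAt_id s).smul_const (f' 0)).const_add (f 0)
  rcases lt_trichotomy s 0 with hs | hs | hs
  · rw [max_eq_right hs.le]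
    refine (hlin s).congr_of_eventuallyEq ?_
    filter_upwards [gt_mem_nhds hs] with r hr
    simp [tex, not_le.2 hr]
  · subst hs
    rw [max_self]
    have h1 : HasDerivWithinAt (tex f f') (f' 0) (Ici 0) 0 := by
      refine (hf 0 le_rfl).congr (fun r hr => ?_) ?_
      · simp [tex, mem_Ici.1 hr]
      · simp [tex]
    have h2 : HasDerivWithinAt (tex f f') (f' 0) (Iic 0) 0 := by
      refine ((hlin 0).hasDerivWithinAt (s := Iic 0)).congr (fun r hr => ?_) ?_
      · rcases lt_or_eq_of_le (mem_Iic.1 hr) with h | h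
        · simp [tex, not_le.2 h]
        · subst h; simp [tex]
      · simp [tex]
    have h3 := h2.union h1
    rw [Iic_union_Ici] at h3
    exact hasDerivWithinAt_univ.1 h3
  · rw [max_eq_left hs.le]
    refine ((hf s hs.le).hasDerivAt (Ici_mem_nhds hs)).congr_of_eventuallyEq ?_
    filter_upwards [lt_mem_nhds hs] with r hr
    simp [tex, hr.le]

lemma tex_of_nonneg {E : Type*} [NormedAddCommGroup E] [NormedSpace ℝ E] (f f' : ℝ → E) {s : ℝ}
    (hs : 0 ≤ s) : tex f f' s = f s := if_pos hs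

/-- Term by term differentiation on `[0, ∞)`. -/
lemma hasDerivWithinAt_tsum_Ici {ι : Type*} {E : Type*} [NormedAddCommGroup E] [NormedSpace ℝ E]
    [CompleteSpace E] {f f' : ι → ℝ → E} {u : ι → ℝ} (hu : Summable u)
    (hf : ∀ i t, 0 ≤ t → HasDerivWithinAt (f i) (f' i t) (Ici 0) t)
    (hb : ∀ i t, 0 ≤ t → ‖f' i t‖ ≤ u i) (h0 : Summable fun i => f i 0) {t : ℝ} (ht : 0 ≤ t) :
    HasDerivWithinAt (fun s => ∑' i, f i s) (∑' i, f' i t) (Ici 0) t := by
  have h0' : Summable fun i => tex (f i) (f' i) 0 := by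
    simpa only [tex_of_nonneg _ _ (le_refl (0:ℝ))] using h0
  have key := hasDerivAt_tsum hu (fun i s => tex_hasDerivAt (hf i) s)
    (fun i s => hb i _ (le_max_right s 0)) h0' t
  rw [max_eq_left ht] at key
  refine key.hasDerivWithinAt.congr (fun r hr => tsum_congr fun i => ?_) (tsum_congr fun i => ?_)
  · rw [tex_of_nonneg _ _ (mem_Ici.1 hr)]
  · rw [tex_of_nonneg _ _ ht]

/-- convolution -/
noncomputable def cv (f g : K3 → ℝ → ℂ) (k : K3) (t : ℝ) : ℂ := ∑' l, f (k - l) t * g l t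

lemma exp_conv {b : ℝ} (hb : 0 < b) (k l : K3) :
    Real.exp (-(b * N (k - l))) * Real.exp (-(b * N l)) ≤
      Real.exp (-(b / 2 * N k)) * Real.exp (-(b / 2 * N l)) := by
  rw [← Real.exp_add, ← Real.exp_add]
  apply Real.exp_le_exp.2
  have := N_le_sub k l
  have h1 : (0 : ℝ) ≤ N l := by positivity
  have h2 : (0 : ℝ) ≤ N (k - l) := by positivity
  nlinarith

/-- common constants for two families -/
lemma Nice0.common {f g : K3 → ℝ → ℂ} (hf : Nice0 f) (hg : Nice0 g) : ∃ C b : ℝ, 0 ≤ C ∧ 0 < b ∧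
    (∀ k t, 0 ≤ t → ‖f k t‖ ≤ C * Real.exp (-(b * N k))) ∧
    ∀ k t, 0 ≤ t → ‖g k t‖ ≤ C * Real.exp (-(b * N k)) := by
  obtain ⟨hc, C, b, hC, hb, hd⟩ := hf
  obtain ⟨hc', C', b', hC', hb', hd'⟩ := hg
  refine ⟨C + C', min b b', by positivity, lt_min hb hb', fun k t ht => ?_, fun k t ht => ?_⟩
  · have h1 := exp_mono_b (min_le_left b b') k
    calc ‖f k t‖ ≤ C * Real.exp (-(b * N k)) := hd k t ht
      _ ≤ (C + C') * Real.exp (-(min b b' * N k)) := by
        gcongr
        linarith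
  · have h1 := exp_mono_b (min_le_right b b') k
    calc ‖g k t‖ ≤ C' * Real.exp (-(b' * N k)) := hd' k t ht
      _ ≤ (C + C') * Real.exp (-(min b b' * N k)) := by
        gcongr
        linarith

lemma cv_term_bd {f g : K3 → ℝ → ℂ} {C b : ℝ} (hC : 0 ≤ C) (hb : 0 < b)
    (h1 : ∀ k t, 0 ≤ t → ‖f k t‖ ≤ C * Real.exp (-(b * N k)))
    (h2 : ∀ k t, 0 ≤ t → ‖g k t‖ ≤ C * Real.exp (-(b * N k))) (k l : K3) {t : ℝ} (ht : 0 ≤ t) :
    ‖f (k - l) t * g l t‖ ≤ C ^ 2 * Real.exp (-(b / 2 * N k)) * Real.exp (-(b / 2 * N l)) := by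
  rw [norm_mul]
  calc ‖f (k - l) t‖ * ‖g l t‖ ≤ (C * Real.exp (-(b * N (k - l)))) * (C * Real.exp (-(b * N l))) :=
        mul_le_mul (h1 _ t ht) (h2 _ t ht) (norm_nonneg _) (by positivity)
    _ = C ^ 2 * (Real.exp (-(b * N (k - l))) * Real.exp (-(b * N l))) := by ring
    _ ≤ C ^ 2 * (Real.exp (-(b / 2 * N k)) * Real.exp (-(b / 2 * N l))) :=
        mul_le_mul_of_nonneg_left (exp_conv hb k l) (by positivity)
    _ = _ := by ring

lemma Nice0.cv_summable {f g : K3 → ℝ → ℂ} (hf : Nice0 f) (hg : Nice0 g) (k : K3) {t : ℝ}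
    (ht : 0 ≤ t) : Summable fun l => f (k - l) t * g l t := by
  obtain ⟨C, b, hC, hb, h1, h2⟩ := hf.common hg
  exact Summable.of_norm_bounded ((summable_exp (half_pos hb)).mul_left _)
    fun l => cv_term_bd hC hb h1 h2 k l ht

lemma Nice0.cv {f g : K3 → ℝ → ℂ} (hf : Nice0 f) (hg : Nice0 g) : Nice0 (cv f g) := by
  obtain ⟨C, b, hC, hb, h1, h2⟩ := hf.common hg
  have hs := summable_exp (half_pos hb)
  have hT : 0 ≤ ∑' l : K3, Real.exp (-(b / 2 * N l)) := tsum_nonneg fun _ => (Real.exp_pos _).le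
  refine ⟨fun k => ?_, C ^ 2 * ∑' l : K3, Real.exp (-(b / 2 * N l)), b / 2, by positivity,
    half_pos hb, fun k t ht => ?_⟩
  · unfold FM.cv
    exact continuousOn_tsum (fun l => (hf.1 (k - l)).mul (hg.1 l)) (hs.mul_left _)
      (fun l t ht => cv_term_bd hC hb h1 h2 k l ht)
  · unfold FM.cv
    have h3 := tsum_of_norm_bounded ((hs.mul_left (C ^ 2 * Real.exp (-(b / 2 * N k)))).hasSum)
      (fun l => cv_term_bd hC hb h1 h2 k l ht)
    rw [tsum_mul_left] at h3
    refine h3.trans (le_of_eq (by ring))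

lemma Nice.cv {n : ℕ} {f g : K3 → ℝ → ℂ} (hf : Nice n f) (hg : Nice n g) : Nice n (cv f g) := by
  induction n generalizing f g with
  | zero => exact Nice0.cv hf hg
  | succ n ih =>
    have pf := hf.pred
    have pg := hg.pred
    obtain ⟨h0, f', h1, h2⟩ := hf
    obtain ⟨i0, g', i1, i2⟩ := hg
    refine ⟨h0.cv i0, fun k t => FM.cv f' g k t + FM.cv f g' k t, fun k t ht => ?_,
      (ih h2 pg).add (ih pf i2)⟩
    obtain ⟨C, b, hC, hb, b1, b2⟩ := h2.nice0.common i0
    obtain ⟨C', b', hC', hb', b1', b2'⟩ := h0.common i2.nice0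
    have hs := summable_exp (half_pos hb)
    have hs' := summable_exp (half_pos hb')
    have key := hasDerivWithinAt_tsum_Ici
      (f := fun l s => f (k - l) s * g l s)
      (f' := fun l s => f' (k - l) s * g l s + f (k - l) s * g' l s)
      ((hs.mul_left (C ^ 2 * Real.exp (-(b / 2 * N k)))).add
        (hs'.mul_left (C' ^ 2 * Real.exp (-(b' / 2 * N k)))))
      (fun l s hs => (h1 (k - l) s hs).mul (i1 l s hs))
      (fun l s hs => (norm_add_le _ _).trans (add_le_add (cv_term_bd hC hb b1 b2 k l hs)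
        (cv_term_bd hC' hb' b1' b2' k l hs)))
      (h0.cv_summable i0 k le_rfl) ht
    have e : FM.cv f' g k t + FM.cv f g' k t =
        ∑' l, (f' (k - l) t * g l t + f (k - l) t * g' l t) := by
      unfold FM.cv
      rw [(h2.nice0.cv_summable i0 k ht).tsum_add (h0.cv_summable i2.nice0 k ht)]
    show HasDerivWithinAt (fun s => ∑' l, f (k - l) s * g l s)
      (FM.cv f' g k t + FM.cv f g' k t) (Ici 0) t
    rw [e]
    exact key

end Pool.Agent.X97.FM
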