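import Pool.Agent.X97.FM.Nice

/-!
Smoothness of the Fourier series with coefficients in the classes `Nice`.
-/

open MeasureTheory Set Filter Topology
open scoped ContDiff

namespace Pool.Agent.X97.FM

open H459R3.NS

/-- the series -/
noncomputable def SS (f : K3 → ℝ → ℂ) (z : ℝ × V) : ℂ := ∑' k, f k z.1 * ee k z.2

/-- `2 π i k_j` -/
noncomputable def dj (j : Fin 3) (k : K3) : ℂ := 2 * Real.pi * Complex.I * (k j : ℂ)

lemma polyG_dj (j : Fin 3) : PolyG (dj j) := (polyG_const _).mul (polyG_coord j)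

lemma norm_dj (j : Fin 3) (k : K3) : ‖dj j k‖ ≤ 7 * N k := by
  unfold dj
  have h1 : ‖(2 * Real.pi * Complex.I : ℂ)‖ = 2 * Real.pi := by
    rw [norm_mul, norm_mul, Complex.norm_I, mul_one, Complex.norm_real, Complex.norm_ofNat,
      Real.norm_of_nonneg Real.pi_pos.le]
  rw [norm_mul, h1, Complex.norm_intCast]
  have := Real.pi_lt_d2
  have := abs_le_N' k j
  have h0 := abs_nonneg (k j : ℝ)
  nlinarith [Real.pi_pos]

lemma Nice0.summable {f : K3 → ℝ → ℂ} (hf : Nice0 f) {t : ℝ} (ht : 0 ≤ t) :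
    Summable fun k => f k t := by
  obtain ⟨hc, C, b, hC, hb, hd⟩ := hf
  exact Summable.of_norm_bounded ((summable_exp hb).mul_left C) fun k => hd k t ht

lemma Nice0.contOn {f : K3 → ℝ → ℂ} (hf : Nice0 f) : ContinuousOn (SS f) (Ici 0 ×ˢ univ) := by
  obtain ⟨hc, C, b, hC, hb, hd⟩ := hf
  unfold SS
  refine continuousOn_tsum (fun k => ?_) ((summable_exp hb).mul_left C) fun k z hz => ?_
  · refine ContinuousOn.mul ?_ ((ee_continuous k).comp continuous_snd).continuousOn
    exact (hc k).comp continuous_fst.continuousOn fun z hz => hz.1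
  · rw [norm_mul, norm_ee, mul_one]
    exact hd k _ hz.1

/-- the derivative of a character -/
noncomputable def dee (k : K3) (x : V) : V →L[ℝ] ℂ :=
  ∑ j, (ContinuousLinearMap.proj (R := ℝ) (φ := fun _ : Fin 3 => ℝ) j).smulRight (dj j k * ee k x)

lemma hasFDerivAt_ee (k : K3) (x : V) : HasFDerivAt (ee k) (dee k x) x := by
  have h := ((ee_contDiff k (n := 1)).differentiable (by norm_num) x).hasFDerivAt
  refine h.congr_fderiv ?_
  refine ContinuousLinearMap.ext fun v => ?_
  have e : v = ∑ j, v j • (Pi.single j (1:ℝ) : V) := by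
    funext i
    simp [Finset.sum_apply, Pi.single_apply]
  conv_lhs => rw [e]
  rw [map_sum]
  unfold dee
  rw [sum_apply]
  refine Finset.sum_congr rfl fun j _ => ?_
  rw [map_smul]
  have := pd_ee k j x
  unfold pd at this
  rw [this]
  simp [dj]

lemma norm_dee (k : K3) (x : V) : ‖dee k x‖ ≤ 21 * N k := by
  unfold dee
  refine (norm_sum_le _ _).trans ?_
  have : ∀ j ∈ (Finset.univ : Finset (Fin 3)),
      ‖(ContinuousLinearMap.proj (R := ℝ) (φ := fun _ : Fin 3 => ℝ) j).smulRight (dj j k * ee k x)‖ ≤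
        7 * N k := by
    intro j _
    rw [ContinuousLinearMap.norm_smulRight_apply, norm_mul, norm_ee, mul_one]
    have h1 : ‖(ContinuousLinearMap.proj (R := ℝ) (φ := fun _ : Fin 3 => ℝ) j)‖ ≤ 1 := by
      refine ContinuousLinearMap.opNorm_le_bound _ zero_le_one fun v => ?_
      rw [one_mul]
      exact norm_le_pi_norm v j
    calc ‖(ContinuousLinearMap.proj (R := ℝ) (φ := fun _ : Fin 3 => ℝ) j)‖ * ‖dj j k‖ ≤
        1 * (7 * N k) := mul_le_mul h1 (norm_dj j k) (norm_nonneg _) zero_le_one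
      _ = _ := one_mul _
  refine (Finset.sum_le_sum this).trans (le_of_eq ?_)
  simp
  ring

/-- the derivative of the series -/
noncomputable def dSS (f f' : K3 → ℝ → ℂ) (z : ℝ × V) : (ℝ × V) →L[ℝ] ℂ :=
  (ContinuousLinearMap.fst ℝ ℝ V).smulRight (SS f' z) +
    ∑ j, ((ContinuousLinearMap.proj (R := ℝ) (φ := fun _ : Fin 3 => ℝ) j).comp
      (ContinuousLinearMap.snd ℝ ℝ V)).smulRight (SS (fun k t => dj j k * f k t) z)

lemma hasFDerivWithinAt_SS {f f' : K3 → ℝ → ℂ} (h0 : Nice0 f)
    (h1 : ∀ k t, 0 ≤ t → HasDerivWithinAt (f k) (f' k t) (Ici 0) t) (h2 : Nice0 f') {z : ℝ × V}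
    (hz : z ∈ Ici (0:ℝ) ×ˢ (univ : Set V)) :
    HasFDerivWithinAt (SS f) (dSS f f' z) (Ici 0 ×ˢ univ) z := by
  obtain ⟨C, b, hC, hb, b1, b2⟩ := h0.common h2
  set W : Set (ℝ × V) := {w | -1 < w.1} with hW
  have hWo : IsOpen W := isOpen_lt continuous_const continuous_fst
  have hWc : Convex ℝ W := by
    have : W = (ContinuousLinearMap.fst ℝ ℝ V) ⁻¹' Ioi (-1) := rfl
    rw [this]
    exact (convex_Ioi _).is_linear_preimage (ContinuousLinearMap.fst ℝ ℝ V).isBoundedLinearMap.toIsLinearMap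
  set G : K3 → ℝ × V → ℂ := fun k w => tex (f k) (f' k) w.1 * ee k w.2 with hG
  set G' : K3 → ℝ × V → (ℝ × V) →L[ℝ] ℂ := fun k w =>
    tex (f k) (f' k) w.1 • (dee k w.2).comp (ContinuousLinearMap.snd ℝ ℝ V) +
      ee k w.2 • (ContinuousLinearMap.fst ℝ ℝ V).smulRight (f' k (max w.1 0)) with hG'
  have hd : ∀ k w, w ∈ W → HasFDerivAt (G k) (G' k w) w := by
    intro k w _
    have e1 : HasFDerivAt (fun w : ℝ × V => tex (f k) (f' k) w.1)
        ((ContinuousLinearMap.fst ℝ ℝ V).smulRight (f' k (max w.1 0))) w := by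
      have := (tex_hasDerivAt (h1 k) w.1).hasFDerivAt.comp w (hasFDerivAt_fst (𝕜 := ℝ) (p := w))
      refine this.congr_fderiv ?_
      refine ContinuousLinearMap.ext fun v => ?_
      simp
    have e2 : HasFDerivAt (fun w : ℝ × V => ee k w.2)
        ((dee k w.2).comp (ContinuousLinearMap.snd ℝ ℝ V)) w :=
      (hasFDerivAt_ee k w.2).comp w (hasFDerivAt_snd (𝕜 := ℝ) (p := w))
    exact e1.mul e2
  have htex : ∀ k (w : ℝ × V), w ∈ W → ‖tex (f k) (f' k) w.1‖ ≤ 2 * C * Real.exp (-(b * N k)) := by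
    intro k w hw
    by_cases h : 0 ≤ w.1
    · rw [tex_of_nonneg _ _ h]
      have := b1 k _ h
      have : 0 ≤ C * Real.exp (-(b * N k)) := by positivity
      linarith
    · have hw' : -1 < w.1 := hw
      have e : tex (f k) (f' k) w.1 = f k 0 + w.1 • f' k 0 := if_neg h
      rw [e]
      have a1 := b1 k 0 le_rfl
      have a2 := b2 k 0 le_rfl
      have a3 : ‖w.1 • f' k 0‖ ≤ 1 * (C * Real.exp (-(b * N k))) := by
        rw [norm_smul]
        refine mul_le_mul ?_ a2 (norm_nonneg _) zero_le_one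
        rw [Real.norm_eq_abs, abs_le]
        constructor <;> linarith [not_le.1 h]
      refine (norm_add_le _ _).trans ?_
      linarith
  have hbd : ∀ k (w : ℝ × V), w ∈ W → ‖G' k w‖ ≤
      2 * C * 21 * ((N k : ℝ) ^ 1 * Real.exp (-(b * N k))) + C * Real.exp (-(b * N k)) := by
    intro k w hw
    refine (norm_add_le _ _).trans (add_le_add ?_ ?_)
    · rw [norm_smul]
      have a1 := htex k w hw
      have a2 : ‖(dee k w.2).comp (ContinuousLinearMap.snd ℝ ℝ V)‖ ≤ 21 * N k := by
        refine (ContinuousLinearMap.opNorm_comp_le _ _).trans ?_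
        have a3 := norm_dee k w.2
        have a4 := ContinuousLinearMap.norm_snd_le ℝ ℝ V
        have : (0:ℝ) ≤ 21 * N k := by positivity
        calc ‖dee k w.2‖ * ‖ContinuousLinearMap.snd ℝ ℝ V‖ ≤ 21 * N k * 1 := by gcongr
          _ = _ := mul_one _
      calc ‖tex (f k) (f' k) w.1‖ * ‖(dee k w.2).comp (ContinuousLinearMap.snd ℝ ℝ V)‖ ≤
          (2 * C * Real.exp (-(b * N k))) * (21 * N k) :=
            mul_le_mul a1 a2 (norm_nonneg _) (by positivity)
        _ = _ := by ring
    · rw [norm_smul, norm_ee, one_mul, ContinuousLinearMap.norm_smulRight_apply]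
      have a4 := ContinuousLinearMap.norm_fst_le ℝ ℝ V
      have a5 := b2 k (max w.1 0) (le_max_right _ _)
      calc ‖ContinuousLinearMap.fst ℝ ℝ V‖ * ‖f' k (max w.1 0)‖ ≤ 1 * (C * Real.exp (-(b * N k))) :=
            mul_le_mul a4 a5 (norm_nonneg _) zero_le_one
        _ = _ := one_mul _
  have hsum : Summable fun k : K3 =>
      2 * C * 21 * ((N k : ℝ) ^ 1 * Real.exp (-(b * N k))) + C * Real.exp (-(b * N k)) :=
    ((summable_pow_exp hb 1).mul_left _).add ((summable_exp hb).mul_left _)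
  have hzW : z ∈ W := by
    have : (0:ℝ) ≤ z.1 := hz.1
    show -1 < z.1
    linarith
  have hG0 : Summable fun k => G k z := by
    have := (h0.summable hz.1)
    refine Summable.of_norm_bounded ((summable_exp hb).mul_left C) fun k => ?_
    rw [hG]
    simp only
    rw [norm_mul, norm_ee, mul_one, tex_of_nonneg _ _ hz.1]
    exact b1 k _ hz.1
  have key := hasFDerivAt_tsum_of_isPreconnected hsum hWo hWc.isPreconnected hd hbd hzW hG0 hzW
  have hGs : Summable fun k => G' k z := Summable.of_norm_bounded hsum fun k => hbd k z hzW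
  have e : ∑' k, G' k z = dSS f f' z := by
    refine ContinuousLinearMap.ext fun v => ?_
    have ea : (∑' k, G' k z) v = ∑' k, G' k z v :=
      (ContinuousLinearMap.apply ℝ ℂ v).map_tsum hGs
    rw [ea]
    have hm : max z.1 0 = z.1 := max_eq_left hz.1
    have hs1 : Summable fun k => f' k z.1 * ee k z.2 :=
      Summable.of_norm_bounded ((summable_exp hb).mul_left C) fun k => by
        rw [norm_mul, norm_ee, mul_one]; exact b2 k _ hz.1
    have hs2 : ∀ j : Fin 3, Summable fun k => (dj j k * f k z.1) * ee k z.2 := by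
      intro j
      have := ((h0.mul (polyG_dj j)).summable hz.1).norm
      refine Summable.of_norm_bounded this fun k => ?_
      rw [norm_mul _ (ee k z.2), norm_ee, mul_one]
    have e3 : ∀ k, G' k z v = (v.1 : ℂ) * (f' k z.1 * ee k z.2) +
        ∑ j, (v.2 j : ℂ) * ((dj j k * f k z.1) * ee k z.2) := by
      intro k
      simp only [hG', hm, tex_of_nonneg _ _ hz.1, dee]
      simp only [add_apply, smul_apply,
        ContinuousLinearMap.comp_apply, sum_apply,
        ContinuousLinearMap.smulRight_apply, ContinuousLinearMap.coe_snd',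
        ContinuousLinearMap.coe_fst', ContinuousLinearMap.proj_apply, Complex.real_smul, smul_eq_mul,
        Finset.mul_sum]
      rw [add_comm]
      congr 1
      · ring
      · exact Finset.sum_congr rfl fun j _ => by ring
    rw [tsum_congr e3]
    have hs3 : Summable fun k => ∑ j, (v.2 j : ℂ) * ((dj j k * f k z.1) * ee k z.2) :=
      summable_sum fun j _ => (hs2 j).mul_left _
    rw [(hs1.mul_left _).tsum_add hs3, Summable.tsum_finsetSum fun j _ => (hs2 j).mul_left _,
      tsum_mul_left]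
    simp only [tsum_mul_left]
    unfold dSS SS
    simp only [add_apply, ContinuousLinearMap.comp_apply,
      sum_apply,
      ContinuousLinearMap.smulRight_apply, ContinuousLinearMap.coe_snd',
      ContinuousLinearMap.coe_fst', ContinuousLinearMap.proj_apply, Complex.real_smul]
  rw [e] at key
  refine key.hasFDerivWithinAt.congr (fun w hw => ?_) ?_
  · refine tsum_congr fun k => ?_
    simp only [hG]
    rw [tex_of_nonneg _ _ hw.1]
  · refine tsum_congr fun k => ?_
    simp only [hG]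
    rw [tex_of_nonneg _ _ hz.1]

lemma uniq_half : UniqueDiffOn ℝ (Ici (0:ℝ) ×ˢ (univ : Set V)) :=
  (uniqueDiffOn_Ici 0).prod uniqueDiffOn_univ

lemma Nice.contDiffOn_SS {n : ℕ} {f : K3 → ℝ → ℂ} (hf : Nice n f) :
    ContDiffOn ℝ n (SS f) (Ici 0 ×ˢ univ) := by
  induction n generalizing f with
  | zero =>
    rw [Nat.cast_zero, contDiffOn_zero]
    exact Nice0.contOn hf
  | succ n ih =>
    have pf := hf.pred
    obtain ⟨h0, f', h1, h2⟩ := hf
    have : ((n + 1 : ℕ) : WithTop ℕ∞) = (n : WithTop ℕ∞) + 1 := by push_cast; rfl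
    rw [this, contDiffOn_succ_iff_hasFDerivWithinAt_of_uniqueDiffOn uniq_half]
    refine ⟨fun h => absurd h (by simp), dSS f f', ?_, fun z hz =>
      hasFDerivWithinAt_SS h0 h1 h2.nice0 hz⟩
    refine ContDiffOn.add ?_ (ContDiffOn.sum fun j _ => ?_)
    · exact contDiffOn_const.smulRight (ih h2)
    · exact contDiffOn_const.smulRight (ih (pf.mul (polyG_dj j)))

lemma contDiffOn_SS {f : K3 → ℝ → ℂ} (hf : ∀ n, Nice n f) :
    ContDiffOn ℝ ∞ (SS f) (Ici 0 ×ˢ univ) :=
  contDiffOn_infty.2 fun n => (hf n).contDiffOn_SS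

end Pool.Agent.X97.FM
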