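import Pool.Agent.X97.FM.Phys

/-!
Pairs of modes with exponential decay in time.
-/

open MeasureTheory Set Filter Topology
open scoped Pointwise

namespace Pool.Agent.X97.FM

open H459R3.NS

/-- a single mode -/
noncomputable def sg (n : K3) (v : C3) (γ : ℝ) (k : K3) (t : ℝ) : C3 :=
  if k = n then Real.exp (-(γ * t)) • v else 0

/-- the bilinear symbol -/
noncomputable def bl (m : K3) (v w : C3) : C3 :=
  lp m ((2 * Real.pi * Complex.I * kdot m v : ℂ) • w)

lemma lp_zero (m : K3) : lp m 0 = 0 := by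
  funext i
  simp [lp, kdot]

lemma bl_of_kdot {m : K3} {v : C3} (h : kdot m v = 0) (w : C3) : bl m v w = 0 := by
  unfold bl
  rw [h, mul_zero, zero_smul, lp_zero]

lemma kdot_rsmul (k : K3) (c : ℝ) (v : C3) : kdot k (c • v) = (c : ℂ) * kdot k v := by
  have : c • v = (c : ℂ) • v := by
    funext i
    simp
  rw [this, kdot_smul]

lemma kdot_zero (k : K3) : kdot k 0 = 0 := by simp [kdot]

lemma sg_zero_of_ne {n : K3} {v : C3} {γ : ℝ} {k : K3} {t : ℝ} (h : k ≠ n) : sg n v γ k t = 0 :=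
  if_neg h

lemma sg_self (n : K3) (v : C3) (γ t : ℝ) : sg n v γ n t = Real.exp (-(γ * t)) • v := if_pos rfl

lemma Bf_sg (n n' : K3) (v v' : C3) (γ γ' t : ℝ) (k : K3) :
    Bf (fun l => sg n v γ l t) (fun l => sg n' v' γ' l t) k =
      sg (n + n') (bl (n + n') v v') (γ + γ') k t := by
  have hQ : Qf (fun l => sg n v γ l t) (fun l => sg n' v' γ' l t) k =
      kdot k (sg n v γ (k - n') t) • sg n' v' γ' n' t := by
    unfold Qf
    refine tsum_eq_single n' fun l hl => ?_
    show kdot k (sg n v γ (k - l) t) • sg n' v' γ' l t = 0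
    rw [sg_zero_of_ne hl, smul_zero]
  unfold Bf
  rw [hQ]
  by_cases hk : k = n + n'
  · have e : k - n' = n := by rw [hk]; abel
    rw [e, sg_self, sg_self, hk, sg_self, kdot_rsmul]
    unfold bl
    rw [smul_smul]
    have e2 : (2 * (Real.pi : ℂ) * Complex.I * (((Real.exp (-(γ * t)) : ℝ) : ℂ) * kdot (n + n') v)) •
        Real.exp (-(γ' * t)) • v' = ((Real.exp (-((γ + γ') * t)) : ℝ) : ℂ) •
        (2 * (Real.pi : ℂ) * Complex.I * kdot (n + n') v) • v' := by
      have : Real.exp (-((γ + γ') * t)) = Real.exp (-(γ * t)) * Real.exp (-(γ' * t)) := by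
        rw [← Real.exp_add]; congr 1; ring
      rw [this]
      funext i
      simp only [Pi.smul_apply, smul_eq_mul, Complex.real_smul]
      push_cast
      ring
    rw [e2, lp_smul]
    funext i
    simp
  · have h1 : k - n' ≠ n := fun h => hk (by rw [← h]; abel)
    rw [sg_zero_of_ne h1, sg_zero_of_ne hk, kdot_zero, zero_smul, smul_zero, lp_zero]

/-- a pair of conjugate modes -/
noncomputable def pr (n : K3) (v : C3) (γ : ℝ) (k : K3) (t : ℝ) : C3 :=
  sg n v γ k t + sg (-n) (cj v) γ k t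

lemma sg_summ (n : K3) (v : C3) (γ t : ℝ) (w : K3 → ℝ) : Summable fun k => w k * ‖sg n v γ k t‖ :=
  summable_of_ne_finset_zero (s := {n}) fun k hk => by
    rw [sg_zero_of_ne (fun h => hk (by simp [h])), norm_zero, mul_zero]

lemma sg_summ' (n : K3) (v : C3) (γ t : ℝ) : Summable fun k => ‖sg n v γ k t‖ :=
  summable_of_ne_finset_zero (s := {n}) fun k hk => by
    rw [sg_zero_of_ne (fun h => hk (by simp [h])), norm_zero]

lemma norm_cj' (v : C3) : ‖cj v‖ = ‖v‖ := norm_cj v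

lemma pr_summ (n : K3) (v : C3) (γ t : ℝ) (w : K3 → ℝ) (hw : ∀ k, 0 ≤ w k) :
    Summable fun k => w k * ‖pr n v γ k t‖ := by
  refine Summable.of_nonneg_of_le (fun k => mul_nonneg (hw k) (norm_nonneg _)) (fun k => ?_)
    ((sg_summ n v γ t w).add (sg_summ (-n) (cj v) γ t w))
  rw [← mul_add]
  exact mul_le_mul_of_nonneg_left (norm_add_le _ _) (hw k)

lemma tsum_sg (n : K3) (v : C3) (γ t : ℝ) (w : K3 → ℝ) :
    ∑' k, w k * ‖sg n v γ k t‖ = w n * (‖v‖ * Real.exp (-(γ * t))) := by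
  rw [tsum_eq_single n fun k hk => by rw [sg_zero_of_ne hk, norm_zero, mul_zero], sg_self, norm_smul,
    Real.norm_of_nonneg (Real.exp_pos _).le, mul_comm ‖v‖]

lemma tsum_pr_le (n : K3) (v : C3) (γ t : ℝ) (w : K3 → ℝ) (hw : ∀ k, 0 ≤ w k)
    (hwn : w (-n) = w n) :
    ∑' k, w k * ‖pr n v γ k t‖ ≤ 2 * (w n * (‖v‖ * Real.exp (-(γ * t)))) := by
  have h := (pr_summ n v γ t w hw).tsum_le_tsum (fun k => (?_ : _ ≤
    w k * ‖sg n v γ k t‖ + w k * ‖sg (-n) (cj v) γ k t‖))
    ((sg_summ n v γ t w).add (sg_summ (-n) (cj v) γ t w))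
  · rw [(sg_summ n v γ t w).tsum_add (sg_summ (-n) (cj v) γ t w), tsum_sg, tsum_sg, hwn, norm_cj'] at h
    linarith
  · rw [← mul_add]
    exact mul_le_mul_of_nonneg_left (norm_add_le _ _) (hw k)

lemma N_neg (k : K3) : N (-k) = N k := by
  refine le_antisymm ?_ ?_
  · rw [N_le_iff]
    intro j
    have := (N_le_iff k (N k)).1 le_rfl j
    simpa using this
  · rw [N_le_iff]
    intro j
    have := (N_le_iff (-k) (N (-k))).1 le_rfl j
    simpa using this

lemma om_neg (b : ℝ) (k : K3) : om b (-k) = om b k := by unfold om; rw [N_neg]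

lemma mk_neg (b : ℝ) (k : K3) : mk b (-k) = mk b k := by unfold mk; rw [N_neg, om_neg]

lemma cj_smul_real (c : ℝ) (v : C3) : cj (c • v) = c • cj v := by
  funext i
  simp [cj]

lemma cj_cj (v : C3) : cj (cj v) = v := by
  funext i
  simp [cj]

lemma cj_zero : cj 0 = 0 := by
  funext i
  simp [cj]

lemma cj_add (v w : C3) : cj (v + w) = cj v + cj w := by
  funext i
  simp [cj]

lemma cj_sg (n : K3) (v : C3) (γ : ℝ) (k : K3) (t : ℝ) :
    cj (sg n v γ k t) = sg (-n) (cj v) γ (-k) t := by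
  unfold sg
  by_cases h : k = n
  · rw [if_pos h, if_pos (by rw [h]), cj_smul_real]
  · rw [if_neg h, if_neg (fun h' => h (neg_injective h')), cj_zero]

lemma pr_herm (n : K3) (v : C3) (γ t : ℝ) : Herm fun k => pr n v γ k t := by
  intro k
  show pr n v γ (-k) t = cj (pr n v γ k t)
  unfold pr
  rw [cj_add, cj_sg, cj_sg, neg_neg, cj_cj, add_comm]

lemma sg_cont (n : K3) (v : C3) (γ : ℝ) (k : K3) : Continuous (sg n v γ k) := by
  unfold sg
  by_cases h : k = n
  · simp only [if_pos h]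
    fun_prop
  · simp only [if_neg h]
    exact continuous_const

lemma pr_FS {n : K3} (hn : n ≠ 0) (v : C3) (γ : ℝ) : FS {n, -n} (pr n v γ) := by
  refine ⟨fun k => (sg_cont _ _ _ _).add (sg_cont _ _ _ _), fun k hk t => ?_, fun t => ?_⟩
  · simp only [Finset.mem_insert, Finset.mem_singleton, not_or] at hk
    unfold pr
    rw [sg_zero_of_ne hk.1, sg_zero_of_ne hk.2, add_zero]
  · unfold pr
    rw [sg_zero_of_ne (Ne.symm hn), sg_zero_of_ne (fun h => hn (neg_eq_zero.1 h.symm)), add_zero]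

lemma sg_deriv (n : K3) (v : C3) (γ : ℝ) (k : K3) (t : ℝ) :
    HasDerivAt (sg n v γ k) (-(γ • sg n v γ k t)) t := by
  unfold sg
  by_cases h : k = n
  · simp only [if_pos h]
    have h1 : HasDerivAt (fun t : ℝ => Real.exp (-(γ * t))) (Real.exp (-(γ * t)) * (-γ)) t := by
      have := ((hasDerivAt_id t).const_mul γ).neg
      simpa using this.exp
    refine (h1.smul_const v).congr_deriv ?_
    rw [smul_smul, ← neg_smul]
    congr 1
    ring
  · simp only [if_neg h, smul_zero, neg_zero]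
    exact hasDerivAt_const _ _

lemma pr_deriv (n : K3) (v : C3) (γ : ℝ) (k : K3) (t : ℝ) :
    HasDerivAt (pr n v γ k) (-(γ • pr n v γ k t)) t := by
  refine ((sg_deriv n v γ k t).add (sg_deriv (-n) (cj v) γ k t)).congr_deriv ?_
  unfold pr
  rw [smul_add, neg_add]

lemma kdot_sg {n : K3} {v : C3} (h : kdot n v = 0) (γ : ℝ) (k : K3) (t : ℝ) :
    kdot k (sg n v γ k t) = 0 := by
  unfold sg
  by_cases hk : k = n
  · rw [if_pos hk, kdot_rsmul, hk, h, mul_zero]
  · rw [if_neg hk, kdot_zero]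

lemma kdot_pr {n : K3} {v : C3} (h : kdot n v = 0) (γ : ℝ) (k : K3) (t : ℝ) :
    kdot k (pr n v γ k t) = 0 := by
  unfold pr
  rw [kdot_add, kdot_sg h, kdot_sg (by rw [kdot_neg_cj, h]; simp), add_zero]

lemma lam_pr (ν : ℝ) (n : K3) (v : C3) (γ : ℝ) (k : K3) (t : ℝ) :
    lam ν k • pr n v γ k t = lam ν n • pr n v γ k t := by
  by_cases h1 : k = n
  · rw [h1]
  · by_cases h2 : k = -n
    · rw [h2, lam_neg]
    · unfold pr
      rw [sg_zero_of_ne h1, sg_zero_of_ne h2, add_zero, smul_zero, smul_zero]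

lemma pr_smul (n : K3) (v : C3) (γ c : ℝ) (k : K3) (t : ℝ) :
    c • pr n v γ k t = pr n (c • v) γ k t := by
  unfold pr sg
  rw [cj_smul_real]
  by_cases h1 : k = n <;> by_cases h2 : k = -n <;> simp only [h1, h2, if_true, if_false, smul_add,
    smul_zero] <;> simp [smul_comm c]

lemma bl_neg (m : K3) (v w : C3) : bl (-m) (cj v) (cj w) = cj (bl m v w) := by
  unfold bl
  rw [← lp_neg_cj]
  congr 1
  rw [kdot_neg_cj]
  funext i
  simp only [cj, Pi.smul_apply, smul_eq_mul, map_mul, Complex.conj_I, Complex.conj_ofReal, map_ofNat]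
  ring

lemma Bf_pr (n n' : K3) (v v' : C3) (γ γ' t : ℝ) (k : K3) :
    Bf (fun l => pr n v γ l t) (fun l => pr n' v' γ' l t) k =
      pr (n + n') (bl (n + n') v v') (γ + γ') k t +
        pr (-n + n') (bl (-n + n') (cj v) v') (γ + γ') k t := by
  have s1 := sg_summ' n v γ t
  have s2 := sg_summ' (-n) (cj v) γ t
  have s3 := sg_summ' n' v' γ' t
  have s4 := sg_summ' (-n') (cj v') γ' t
  have s34 : Summable fun l => ‖sg n' v' γ' l t + sg (-n') (cj v') γ' l t‖ :=
    Summable.of_nonneg_of_le (fun _ => norm_nonneg _) (fun _ => norm_add_le _ _) (s3.add s4)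
  show Bf (fun l => sg n v γ l t + sg (-n) (cj v) γ l t)
    (fun l => sg n' v' γ' l t + sg (-n') (cj v') γ' l t) k = _
  rw [Bf_add_left s1 s2 s34, Bf_add_right s1 s3 s4, Bf_add_right s2 s3 s4, Bf_sg, Bf_sg, Bf_sg, Bf_sg]
  unfold pr
  have e1 : -(n + n') = -n + -n' := by abel
  have e2 : -(-n + n') = n + -n' := by abel
  rw [← bl_neg, ← bl_neg, cj_cj, e1, e2]
  abel

end Pool.Agent.X97.FM
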