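import Pool.Agent.X97.FM.NiceS

/-!
From the equations for the Fourier coefficients to smooth solutions.
-/

open MeasureTheory Set Filter Topology
open scoped ContDiff

namespace Pool.Agent.X97.FM

open H459R3.NS

lemma SS_summable {f : K3 → ℝ → ℂ} (hf : Nice0 f) {t : ℝ} (ht : 0 ≤ t) (x : V) :
    Summable fun k => f k t * ee k x :=
  summable_term (hf.summable ht) x

lemma SS_add {f g : K3 → ℝ → ℂ} (hf : Nice0 f) (hg : Nice0 g) {t : ℝ} (ht : 0 ≤ t) (x : V) :
    SS (fun k t => f k t + g k t) (t, x) = SS f (t, x) + SS g (t, x) := by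
  unfold SS
  rw [← (SS_summable hf ht x).tsum_add (SS_summable hg ht x)]
  exact tsum_congr fun k => add_mul _ _ _

lemma SS_const_mul (f : K3 → ℝ → ℂ) (c : ℂ) (z : ℝ × V) :
    SS (fun k t => c * f k t) z = c * SS f z := by
  unfold SS
  rw [← tsum_mul_left]
  exact tsum_congr fun k => by ring

lemma SS_sum {ι : Type*} (s : Finset ι) {f : ι → K3 → ℝ → ℂ} (hf : ∀ i ∈ s, Nice0 (f i)) {t : ℝ}
    (ht : 0 ≤ t) (x : V) :
    SS (fun k t => ∑ i ∈ s, f i k t) (t, x) = ∑ i ∈ s, SS (f i) (t, x) := by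
  unfold SS
  rw [← Summable.tsum_finsetSum fun i hi => SS_summable (hf i hi) ht x]
  exact tsum_congr fun k => Finset.sum_mul _ _ _

lemma SS_congr {f g : K3 → ℝ → ℂ} {t : ℝ} (h : ∀ k, f k t = g k t) (x : V) :
    SS f (t, x) = SS g (t, x) := tsum_congr fun k => by simp only [h k]

lemma cauchy {a b : K3 → ℂ} (ha : Summable a) (hb : Summable b) :
    ∑' k, ∑' l, a (k - l) * b l = (∑' k, a k) * ∑' k, b k := by
  have h2 : Summable fun p : K3 × K3 => a p.1 * b p.2 :=
    summable_mul_of_summable_norm ha.norm hb.norm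
  have h3 : Summable ((fun p : K3 × K3 => a p.1 * b p.2) ∘ shear) :=
    (Equiv.summable_iff shear).2 h2
  rw [ha.tsum_mul_tsum hb h2, ← shear.tsum_eq (fun p : K3 × K3 => a p.1 * b p.2)]
  exact h3.tsum_prod.symm

lemma SS_mul {f g : K3 → ℝ → ℂ} (hf : Nice0 f) (hg : Nice0 g) {t : ℝ} (ht : 0 ≤ t) (x : V) :
    SS (cv f g) (t, x) = SS f (t, x) * SS g (t, x) := by
  have h := cauchy (SS_summable hf ht x) (SS_summable hg ht x)
  have e : SS (cv f g) (t, x) = ∑' k, ∑' l, (f (k - l) t * ee (k - l) x) * (g l t * ee l x) := by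
    unfold SS cv
    refine tsum_congr fun k => ?_
    rw [← tsum_mul_right]
    refine tsum_congr fun l => ?_
    have : ee k x = ee (k - l) x * ee l x := by rw [← ee_add_left, sub_add_cancel]
    simp only
    rw [this]
    ring
  rw [e]
  exact h

/-- The coefficients of a real function. -/
def HermS (f : K3 → ℝ → ℂ) (t : ℝ) : Prop := ∀ k, f (-k) t = (starRingEnd ℂ) (f k t)

lemma SS_real {f : K3 → ℝ → ℂ} {t : ℝ} (h : HermS f t) (x : V) : (SS f (t, x)).im = 0 := by
  rw [← Complex.conj_eq_iff_im]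
  unfold SS
  rw [Complex.conj_tsum, ← (Equiv.neg K3).tsum_eq]
  refine tsum_congr fun k => ?_
  simp only [Equiv.neg_apply]
  rw [map_mul, ← ee_neg, neg_neg, h k, Complex.conj_conj]

lemma hasFDerivAt_SS_x {f f' : K3 → ℝ → ℂ} (h0 : Nice0 f)
    (h1 : ∀ k t, 0 ≤ t → HasDerivWithinAt (f k) (f' k t) (Ici 0) t) (h2 : Nice0 f') {t : ℝ}
    (ht : 0 ≤ t) (x : V) :
    HasFDerivAt (fun y => SS f (t, y)) ((dSS f f' (t, x)).comp (ContinuousLinearMap.inr ℝ ℝ V)) x := by
  have h := hasFDerivWithinAt_SS h0 h1 h2 (z := (t, x)) ⟨ht, mem_univ _⟩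
  have h3 : HasFDerivWithinAt (fun y : V => (t, y)) (ContinuousLinearMap.inr ℝ ℝ V) univ x :=
    (hasFDerivAt_prodMk_right t x).hasFDerivWithinAt
  have := h.comp x h3 fun y _ => ⟨ht, mem_univ _⟩
  exact hasFDerivWithinAt_univ.1 this

lemma pd_SS_re {f : K3 → ℝ → ℂ} (hf : Nice 1 f) {t : ℝ} (ht : 0 ≤ t) (x : V) (j : Fin 3) :
    pd j (fun y => (SS f (t, y)).re) x = (SS (fun k t => dj j k * f k t) (t, x)).re := by
  obtain ⟨h0, f', h1, h2⟩ := hf
  have h := (Complex.reCLM.hasFDerivAt (x := SS f (t, x))).comp x (hasFDerivAt_SS_x h0 h1 h2 ht x)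
  unfold pd
  have e : HasFDerivAt (fun y => (SS f (t, y)).re) (Complex.reCLM.comp
      ((dSS f f' (t, x)).comp (ContinuousLinearMap.inr ℝ ℝ V))) x := h
  rw [e.fderiv]
  unfold dSS
  simp [Pi.single_apply]

lemma hasDerivAt_SS {f f' : K3 → ℝ → ℂ} (h0 : Nice0 f)
    (h1 : ∀ k t, 0 ≤ t → HasDerivWithinAt (f k) (f' k t) (Ici 0) t) (h2 : Nice0 f') {t : ℝ}
    (ht : 0 < t) (x : V) : HasDerivAt (fun s => (SS f (s, x)).re) (SS f' (t, x)).re t := by
  have h := hasFDerivWithinAt_SS h0 h1 h2 (z := (t, x)) ⟨ht.le, mem_univ _⟩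
  have h3 : HasFDerivWithinAt (fun s : ℝ => (s, x)) (ContinuousLinearMap.inl ℝ ℝ V) (Ici 0) t :=
    (hasFDerivAt_prodMk_left t x).hasFDerivWithinAt
  have hm : MapsTo (fun s : ℝ => (s, x)) (Ici 0) (Ici (0:ℝ) ×ˢ (univ : Set V)) :=
    fun y hy => ⟨hy, mem_univ _⟩
  have h4 := h.comp t h3 hm
  have h5 := (Complex.reCLM.hasFDerivAt (x := SS f (t, x))).comp_hasFDerivWithinAt t h4
  have h6 := (h5.hasFDerivAt (Ici_mem_nhds ht)).hasDerivAt
  refine h6.congr_deriv ?_
  unfold dSS
  simp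

/-- the hypotheses: a solution of the equations for the Fourier coefficients -/
structure FSol (ν : ℝ) (w : K3 → ℝ → C3) : Prop where
  deriv : ∀ k t, 0 ≤ t → HasDerivAt (w k) (-(lam ν k • w k t) - Bf (fun l => w l t) (fun l => w l t) k) t
  bd : ∃ C b : ℝ, 0 ≤ C ∧ 0 < b ∧ ∀ k t, 0 ≤ t → ‖w k t‖ ≤ C * Real.exp (-(b * N k))
  div : ∀ k t, 0 ≤ t → kdot k (w k t) = 0
  herm : ∀ t, 0 ≤ t → Herm fun k => w k t

section
variable {ν : ℝ} {w : K3 → ℝ → C3}

lemma FSol.nice0 (h : FSol ν w) (i : Fin 3) : Nice0 fun k t => w k t i := by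
  obtain ⟨C, b, hC, hb, hd⟩ := h.bd
  refine ⟨fun k t ht => ?_, C, b, hC, hb, fun k t ht => (norm_le_pi_norm _ i).trans (hd k t ht)⟩
  have := (h.deriv k t ht).continuousAt.continuousWithinAt (s := Ici (0:ℝ))
  exact (continuous_apply i).continuousAt.comp_continuousWithinAt this

/-- the quadratic term without projection -/
noncomputable def qc (w : K3 → ℝ → C3) (i : Fin 3) (k : K3) (t : ℝ) : ℂ :=
  ∑ j, (k j : ℂ) * cv (fun k t => w k t j) (fun k t => w k t i) k t

/-- the quadratic term -/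
noncomputable def bc (w : K3 → ℝ → C3) (i : Fin 3) (k : K3) (t : ℝ) : ℂ :=
  2 * Real.pi * Complex.I * qc w i k t -
    (k i : ℂ) * ((sq k : ℂ))⁻¹ * ∑ m, (k m : ℂ) * (2 * Real.pi * Complex.I * qc w m k t)

lemma FSol.summ (h : FSol ν w) {t : ℝ} (ht : 0 ≤ t) : Summable fun k => ‖w k t‖ := by
  obtain ⟨C, b, hC, hb, hd⟩ := h.bd
  exact Summable.of_nonneg_of_le (fun _ => norm_nonneg _) (fun k => hd k t ht)
    ((summable_exp hb).mul_left C)

lemma FSol.Q_eq (h : FSol ν w) {t : ℝ} (ht : 0 ≤ t) (k : K3) (i : Fin 3) :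
    Qf (fun l => w l t) (fun l => w l t) k i = qc w i k t := by
  have hs := (Qf_summable (h.summ ht) (h.summ ht) k).of_norm
  unfold Qf qc
  rw [tsum_apply hs]
  unfold cv
  have h0 := fun i => h.nice0 i
  rw [← Finset.sum_congr rfl fun j _ => tsum_mul_left,
    ← Summable.tsum_finsetSum fun j _ => ((h0 j).cv_summable (h0 i) k ht).mul_left _]
  refine tsum_congr fun l => ?_
  rw [Pi.smul_apply, smul_eq_mul]
  unfold kdot
  rw [Finset.sum_mul]
  exact Finset.sum_congr rfl fun j _ => by ring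

lemma FSol.B_eq (h : FSol ν w) {t : ℝ} (ht : 0 ≤ t) (k : K3) (i : Fin 3) :
    Bf (fun l => w l t) (fun l => w l t) k i = bc w i k t := by
  unfold Bf lp bc
  rw [Pi.smul_apply, h.Q_eq ht k i, smul_eq_mul, kdot_smul]
  have e : kdot k (Qf (fun l => w l t) (fun l => w l t) k) = ∑ m, (k m : ℂ) * qc w m k t := by
    unfold kdot
    exact Finset.sum_congr rfl fun m _ => by rw [h.Q_eq ht k m]
  rw [e]
  have e2 : ∑ m, (k m : ℂ) * (2 * Real.pi * Complex.I * qc w m k t) =
      2 * Real.pi * Complex.I * ∑ m, (k m : ℂ) * qc w m k t := by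
    rw [Finset.mul_sum]
    exact Finset.sum_congr rfl fun m _ => by ring
  rw [e2]
  ring

lemma nice_qc {n : ℕ} (h : ∀ i, Nice n fun k t => w k t i) (i : Fin 3) : Nice n (qc w i) :=
  Nice.sum _ fun j _ => ((h j).cv (h i)).mul (polyG_coord j)

lemma nice_bc {n : ℕ} (h : ∀ i, Nice n fun k t => w k t i) (i : Fin 3) : Nice n (bc w i) := by
  have h1 := (nice_qc h i).mul (polyG_const (2 * Real.pi * Complex.I))
  have h2 : Nice n fun k t => ∑ m, (k m : ℂ) * (2 * Real.pi * Complex.I * qc w m k t) :=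
    Nice.sum _ fun m _ => ((nice_qc h m).mul (polyG_const _)).mul (polyG_coord m)
  have h3 := h2.mul (((polyG_const (-1)).mul (polyG_coord i)).mul polyG_inv_sq)
  refine (h1.add h3).congr fun k t _ => ?_
  unfold bc
  ring

/-- the time derivative -/
noncomputable def dc (ν : ℝ) (w : K3 → ℝ → C3) (i : Fin 3) (k : K3) (t : ℝ) : ℂ :=
  -((lam ν k : ℝ) : ℂ) * w k t i + (-1) * bc w i k t

lemma nice_dc {n : ℕ} (h : ∀ i, Nice n fun k t => w k t i) (i : Fin 3) : Nice n (dc ν w i) := by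
  have h1 := (h i).mul ((polyG_const (-1)).mul (polyG_lam ν))
  refine (h1.add ((nice_bc h i).mul (polyG_const (-1)))).congr fun k t _ => ?_
  unfold dc
  ring

lemma FSol.hasDeriv (h : FSol ν w) (i : Fin 3) (k : K3) (t : ℝ) (ht : 0 ≤ t) :
    HasDerivWithinAt (fun t => w k t i) (dc ν w i k t) (Ici 0) t := by
  have h1 := ((hasDerivAt_pi.1 (h.deriv k t ht)) i).hasDerivWithinAt (s := Ici (0:ℝ))
  refine h1.congr_deriv ?_
  rw [Pi.sub_apply, Pi.neg_apply, Pi.smul_apply, h.B_eq ht k i]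
  unfold dc
  rw [Complex.real_smul]
  ring

lemma FSol.nice (h : FSol ν w) (n : ℕ) : ∀ i, Nice n fun k t => w k t i := by
  induction n with
  | zero => exact fun i => h.nice0 i
  | succ n ih => exact fun i => ⟨h.nice0 i, dc ν w i, h.hasDeriv i, nice_dc ih i⟩

/-- the coefficients of the pressure -/
noncomputable def pc (w : K3 → ℝ → C3) (k : K3) (t : ℝ) : ℂ :=
  -((sq k : ℂ))⁻¹ * ∑ m, (k m : ℂ) * qc w m k t

lemma nice_pc {n : ℕ} (h : ∀ i, Nice n fun k t => w k t i) : Nice n (pc w) := by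
  have h2 : Nice n fun k t => ∑ m, (k m : ℂ) * qc w m k t :=
    Nice.sum _ fun m _ => (nice_qc h m).mul (polyG_coord m)
  have h3 := h2.mul ((polyG_const (-1)).mul polyG_inv_sq)
  refine h3.congr fun k t _ => ?_
  unfold pc
  ring

/-- the velocity -/
noncomputable def uP (w : K3 → ℝ → C3) (t : ℝ) (x : V) : V := fun i => (SS (fun k t => w k t i) (t, x)).re

/-- the pressure -/
noncomputable def pP (w : K3 → ℝ → C3) (t : ℝ) (x : V) : ℝ := (SS (pc w) (t, x)).re

lemma SS_per (f : K3 → ℝ → ℂ) (t : ℝ) (i : Fin 3) (x : V) :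
    SS f (t, x + Pi.single i 1) = SS f (t, x) :=
  tsum_congr fun k => by
    simp only
    rw [ee_per k i x]

lemma FSol.hermS (h : FSol ν w) {t : ℝ} (ht : 0 ≤ t) (i : Fin 3) : HermS (fun k t => w k t i) t :=
  fun k => congrFun (h.herm t ht k) i

lemma herm_dj {f : K3 → ℝ → ℂ} {t : ℝ} (h : HermS f t) (j : Fin 3) :
    HermS (fun k t => dj j k * f k t) t := by
  intro k
  simp only
  rw [h k, map_mul]
  congr 1
  unfold dj
  rw [map_mul, map_mul, map_mul, map_intCast, Complex.conj_I, Complex.conj_ofReal, Pi.neg_apply,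
    map_ofNat]
  push_cast
  ring

lemma FSol.mom (h : FSol ν w) {t : ℝ} (ht : 0 ≤ t) (i : Fin 3) (k : K3) :
    dc ν w i k t + ∑ j, cv (fun k t => w k t j) (fun k t => dj j k * w k t i) k t =
      ν * (∑ j, dj j k * (dj j k * w k t i)) + (-1) * (dj i k * pc w k t) := by
  have e1 : ∑ j, cv (fun k t => w k t j) (fun k t => dj j k * w k t i) k t =
      2 * Real.pi * Complex.I * qc w i k t := by
    unfold qc cv
    have h0 := fun i => h.nice0 i
    have h1 : ∀ j, Summable fun l => w (k - l) t j * (dj j l * w l t i) := fun j =>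
      (h0 j).cv_summable ((h0 i).mul (polyG_dj j)) k ht
    rw [← Summable.tsum_finsetSum fun j _ => h1 j]
    rw [← Finset.sum_congr rfl fun j _ => tsum_mul_left,
      ← Summable.tsum_finsetSum fun j _ => ((h0 j).cv_summable (h0 i) k ht).mul_left _,
      ← tsum_mul_left]
    refine tsum_congr fun l => ?_
    have hd := h.div (k - l) t ht
    unfold kdot at hd
    have e3 : ∑ j, w (k - l) t j * (dj j l * w l t i) =
        (2 * Real.pi * Complex.I * w l t i) * ∑ j, ((l j : ℤ) : ℂ) * w (k - l) t j := by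
      rw [Finset.mul_sum]
      refine Finset.sum_congr rfl fun j _ => ?_
      unfold dj
      ring
    have e4 : 2 * Real.pi * Complex.I * ∑ j, (k j : ℂ) * (w (k - l) t j * w l t i) =
        (2 * Real.pi * Complex.I * w l t i) * ∑ j, (k j : ℂ) * w (k - l) t j := by
      rw [Finset.mul_sum, Finset.mul_sum]
      exact Finset.sum_congr rfl fun j _ => by ring
    rw [e3, e4]
    congr 1
    have e5 : ∑ j, (k j : ℂ) * w (k - l) t j - ∑ j, ((l j : ℤ) : ℂ) * w (k - l) t j = 0 := by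
      rw [← Finset.sum_sub_distrib, ← hd]
      refine Finset.sum_congr rfl fun j _ => ?_
      rw [Pi.sub_apply]
      push_cast
      ring
    exact (sub_eq_zero.1 e5).symm
  have e2 : (ν : ℂ) * ∑ j, dj j k * (dj j k * w k t i) = -((lam ν k : ℝ) : ℂ) * w k t i := by
    unfold lam sq dj
    push_cast
    simp only [Fin.sum_univ_three]
    have := Complex.I_sq
    linear_combination (4 * (ν : ℂ) * Real.pi ^ 2 * w k t i *
      ((k 0 : ℂ) ^ 2 + (k 1 : ℂ) ^ 2 + (k 2 : ℂ) ^ 2)) * this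
  rw [e1, e2]
  unfold dc bc pc dj
  have e6 : ∑ m, (k m : ℂ) * (2 * Real.pi * Complex.I * qc w m k t) =
      2 * Real.pi * Complex.I * ∑ m, (k m : ℂ) * qc w m k t := by
    rw [Finset.mul_sum]
    exact Finset.sum_congr rfl fun m _ => by ring
  rw [e6]
  ring

theorem FSol.isSol (h : FSol ν w) (T : ℝ) : IsSol ν T (uP w) (pP w) where
  smooth_u := by
    rw [contDiffOn_pi]
    intro i
    have hsub : Ico 0 T ×ˢ (univ : Set V) ⊆ Ici 0 ×ˢ univ := fun z hz => ⟨hz.1.1, mem_univ _⟩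
    have h1 := (contDiffOn_SS (h.nice · i)).mono hsub
    exact Complex.reCLM.contDiff.comp_contDiffOn h1
  smooth_p := by
    have hsub : Ico 0 T ×ˢ (univ : Set V) ⊆ Ici 0 ×ˢ univ := fun z hz => ⟨hz.1.1, mem_univ _⟩
    have h1 := (contDiffOn_SS (fun n => nice_pc (h.nice n))).mono hsub
    exact Complex.reCLM.contDiff.comp_contDiffOn h1
  per_u := fun t _ i x => by
    funext m
    unfold uP
    rw [SS_per]
  per_p := fun t _ i x => by
    unfold pP
    rw [SS_per]
  divfree := by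
    intro t ht x
    have e : ∀ i, pd i (fun y => uP w t y i) x =
        (SS (fun k t => dj i k * w k t i) (t, x)).re := fun i => pd_SS_re (h.nice 1 i) ht.1 x i
    simp only [e]
    rw [← Complex.re_sum]
    have h0 := fun i => (h.nice0 i).mul (polyG_dj i)
    rw [← SS_sum _ (fun i _ => h0 i) ht.1 x]
    have e2 : SS (fun k t => ∑ i, dj i k * w k t i) (t, x) = SS (fun _ _ => 0) (t, x) := by
      refine SS_congr (fun k => ?_) x
      have := h.div k t ht.1
      unfold kdot at this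
      have e3 : ∑ i, dj i k * w k t i = 2 * Real.pi * Complex.I * ∑ j, (k j : ℂ) * w k t j := by
        rw [Finset.mul_sum]
        refine Finset.sum_congr rfl fun j _ => ?_
        unfold dj
        ring
      rw [e3, this, mul_zero]
    rw [e2]
    simp [SS]
  momentum := by
    intro t ht x i
    have ht0 := ht.1.le
    have h0 := fun i => h.nice0 i
    have d1 : _root_.deriv (fun s => uP w s x i) t = (SS (dc ν w i) (t, x)).re :=
      (hasDerivAt_SS (h0 i) (h.hasDeriv i) (nice_dc (h.nice 0) i).nice0 ht.1 x).deriv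
    have d2 : ∀ j y, pd j (fun y => uP w t y i) y =
        (SS (fun k t => dj j k * w k t i) (t, y)).re := fun j y => pd_SS_re (h.nice 1 i) ht0 y j
    have d3 : ∀ j, pd j (pd j (fun y => uP w t y i)) x =
        (SS (fun k t => dj j k * (dj j k * w k t i)) (t, x)).re := by
      intro j
      have e : pd j (fun y => uP w t y i) = fun y => (SS (fun k t => dj j k * w k t i) (t, y)).re :=
        funext fun y => d2 j y
      rw [e]
      exact pd_SS_re ((h.nice 1 i).mul (polyG_dj j)) ht0 x j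
    have d4 : pd i (pP w t) x = (SS (fun k t => dj i k * pc w k t) (t, x)).re :=
      pd_SS_re (nice_pc (h.nice 1)) ht0 x i
    have d5 : ∀ j, uP w t x j * pd j (fun y => uP w t y i) x =
        (SS (cv (fun k t => w k t j) (fun k t => dj j k * w k t i)) (t, x)).re := by
      intro j
      rw [SS_mul (h0 j) ((h0 i).mul (polyG_dj j)) ht0 x, Complex.mul_re,
        SS_real (h.hermS ht0 j) x, zero_mul, sub_zero, d2]
      rfl
    rw [d1, d4]
    simp only [d3, d5]
    rw [← Complex.re_sum, ← Complex.re_sum, ← Complex.re_ofReal_mul, ← Complex.add_re,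
      ← Complex.sub_re]
    congr 1
    have n1 : Nice0 (dc ν w i) := (nice_dc (h.nice 0) i).nice0
    have n2 : ∀ j, Nice0 (cv (fun k t => w k t j) (fun k t => dj j k * w k t i)) := fun j =>
      (h0 j).cv ((h0 i).mul (polyG_dj j))
    have n3 : ∀ j, Nice0 (fun k t => dj j k * (dj j k * w k t i)) := fun j =>
      ((h0 i).mul (polyG_dj j)).mul (polyG_dj j)
    have n4 : Nice0 (fun k t => dj i k * pc w k t) := Nice0.mul (nice_pc (h.nice 0)).nice0 (polyG_dj i)
    have n5 : Nice0 (fun k t => ∑ j, cv (fun k t => w k t j) (fun k t => dj j k * w k t i) k t) :=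
      Nice.sum (n := 0) _ fun j _ => n2 j
    have n6 : Nice0 (fun k t => ∑ j, dj j k * (dj j k * w k t i)) :=
      Nice.sum (n := 0) _ fun j _ => n3 j
    rw [← SS_sum _ (fun j _ => n2 j) ht0 x, ← SS_sum _ (fun j _ => n3 j) ht0 x, ← SS_add n1 n5 ht0 x,
      ← SS_const_mul]
    have e7 : SS (fun k t => ↑ν * ∑ j, dj j k * (dj j k * w k t i)) (t, x) -
        SS (fun k t => dj i k * pc w k t) (t, x) =
        SS (fun k t => ν * (∑ j, dj j k * (dj j k * w k t i)) + (-1) * (dj i k * pc w k t)) (t, x) := by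
      rw [SS_add (n6.mul (polyG_const (ν : ℂ))) (n4.mul (polyG_const (-1))) ht0 x,
        SS_const_mul (fun k t => dj i k * pc w k t)]
      ring
    rw [e7]
    exact SS_congr (fun k => h.mom ht0 i k) x

lemma FSol.fr_eq (h : FSol ν w) {t : ℝ} (ht : 0 ≤ t) (i : Fin 3) (k : K3) :
    fr (fun x => uP w t x i) k = w k t i := by
  unfold fr fc
  have e : ∀ x, ((uP w t x i : ℝ) : ℂ) = S (fun k => w k t i) x := by
    intro x
    have h1 : S (fun k => w k t i) x = SS (fun k t => w k t i) (t, x) := rfl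
    rw [h1]
    apply Complex.ext
    · rfl
    · rw [Complex.ofReal_im, SS_real (h.hermS ht i) x]
  simp only [e]
  rw [integral_ee_S (-k) ((h.nice0 i).summable ht), neg_neg]

end

end Pool.Agent.X97.FM
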