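import Pool.Agent.X97.FM.Contr

/-!
The source of the perturbation: support, continuity and the contraction estimate.
-/

open MeasureTheory Set Filter Topology
open scoped Pointwise

namespace Pool.Agent.X97.FM

open H459R3.NS

lemma Qf_fin {S : Finset K3} {u w : K3 → C3} (hw : ∀ k, k ∉ S → w k = 0) (k : K3) :
    Qf u w k = ∑ l ∈ S, kdot k (u (k - l)) • w l :=
  tsum_eq_sum fun l hl => by rw [hw l hl, smul_zero]

lemma kdot_cont {X : Type*} [TopologicalSpace X] (k : K3) {f : X → C3} (hf : Continuous f) :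
    Continuous fun x => kdot k (f x) := by
  unfold kdot
  fun_prop

lemma lp_cont {X : Type*} [TopologicalSpace X] (k : K3) {f : X → C3} (hf : Continuous f) :
    Continuous fun x => lp k (f x) := by
  unfold lp
  have := kdot_cont k hf
  fun_prop

lemma Bf_cont {S : Finset K3} {u w : K3 → ℝ → C3} (hu : FS S u) (hw : FS S w) (k : K3) :
    Continuous fun s => Bf (fun l => u l s) (fun l => w l s) k := by
  unfold Bf
  have e : ∀ s, Qf (fun l => u l s) (fun l => w l s) k = ∑ l ∈ S, kdot k (u (k - l) s) • w l s :=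
    fun s => Qf_fin (fun k hk => hw.supp k hk s) k
  simp only [e]
  have hc : Continuous fun s => ∑ l ∈ S, kdot k (u (k - l) s) • w l s := by
    refine continuous_finsetSum _ fun l _ => ?_
    have h1 := kdot_cont k (hu.cont (k - l))
    have h2 := hw.cont l
    exact h1.fun_smul h2
  exact lp_cont k (hc.fun_const_smul _)

lemma Bf_supp {S : Finset K3} {u w : K3 → C3} (hu : ∀ k, k ∉ S → u k = 0)
    (hw : ∀ k, k ∉ S → w k = 0) (k : K3) (hk : k ∉ S + S) : Bf u w k = 0 := by
  unfold Bf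
  have : Qf u w k = 0 := by
    rw [Qf_fin hw]
    refine Finset.sum_eq_zero fun l hl => ?_
    have h1 : k - l ∉ S := fun h => hk (by
      have := Finset.add_mem_add h hl
      rwa [sub_add_cancel] at this)
    rw [hu _ h1]
    simp [kdot]
  rw [this, smul_zero]
  funext i
  simp [lp, kdot]

/-- the source of the perturbation `z` of the approximate solution `V` with residual `E` -/
noncomputable def src (V E z : K3 → ℝ → C3) (k : K3) (s : ℝ) : C3 :=
  Bf (fun l => V l s + z l s) (fun l => V l s + z l s) k -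
    Bf (fun l => V l s) (fun l => V l s) k + E k s

lemma FS.Bf {S : Finset K3} {u w : K3 → ℝ → C3} (hu : FS S u) (hw : FS S w) :
    FS (S + S) (fun k s => FM.Bf (fun l => u l s) (fun l => w l s) k) :=
  ⟨Bf_cont hu hw, fun k hk s => Bf_supp (fun k hk => hu.supp k hk s) (fun k hk => hw.supp k hk s) k hk,
    fun _ => Bf_zero_freq _ _⟩

lemma FS.src {S : Finset K3} {V E z : K3 → ℝ → C3} (hV : FS S V) (hE : FS S E) (hz : FS S z) :
    FS ((S + S) ∪ S) (src V E z) := by
  have h1 := (FS.Bf (hV.add hz) (hV.add hz)).mono (S' := (S + S) ∪ S) Finset.subset_union_left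
  have h2 := (FS.Bf hV hV).mono (S' := (S + S) ∪ S) Finset.subset_union_left
  exact (h1.sub h2).add (hE.mono Finset.subset_union_right)

lemma src_sub {S : Finset K3} {V E z z' : K3 → ℝ → C3} (hV : FS S V) (hz : FS S z) (hz' : FS S z')
    (k : K3) (s : ℝ) : src V E z k s - src V E z' k s =
      (Bf (fun l => V l s) (fun l => z l s - z' l s) k +
        Bf (fun l => z l s) (fun l => z l s - z' l s) k) +
      (Bf (fun l => z l s - z' l s) (fun l => V l s) k +
        Bf (fun l => z l s - z' l s) (fun l => z' l s) k) := by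
  have sV := hV.summ' s
  have sz := hz.summ' s
  have sz' := hz'.summ' s
  have sd := (hz.sub hz').summ' s
  have s1 := (hV.add hz).summ' s
  have s2 := (hV.add hz').summ' s
  rw [← Bf_add_left sV sz sd, ← Bf_add_right sd sV sz']
  have h1 := Bf_sub_right s1 s1 s2 k
  have h2 := Bf_sub_left s1 s2 s2 k
  have e : (fun l => (V l s + z l s) - (V l s + z' l s)) = fun l => z l s - z' l s := by
    funext l
    abel
  rw [e] at h1 h2
  rw [h1, h2]
  unfold src
  abel

section
variable {b M ν : ℝ} {φ : ℝ → ℝ} {S : Finset K3}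

lemma src_norm {V E z z' : K3 → ℝ → C3} (hb : 0 ≤ b) (hV : FS S V) (hE : FS S E) (hz : FS S z)
    (hz' : FS S z') (s : ℝ) :
    ∑' k, mk b k * ‖src V E z k s - src V E z' k s‖ ≤
      76 * ((2 * (∑' k, om b k * ‖V k s‖) + (∑' k, om b k * ‖z k s‖) +
        ∑' k, om b k * ‖z' k s‖) * ∑' k, om b k * ‖z k s - z' k s‖) := by
  have hd := hz.sub hz'
  have sV := hV.summ (om b) s
  have sz := hz.summ (om b) s
  have sz' := hz'.summ (om b) s
  have sd := hd.summ (om b) s
  have t1 := summable_mk_Bf hb sV sd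
  have t2 := summable_mk_Bf hb sz sd
  have t3 := summable_mk_Bf hb sd sV
  have t4 := summable_mk_Bf hb sd sz'
  have b1 := tsum_mk_Bf hb sV sd
  have b2 := tsum_mk_Bf hb sz sd
  have b3 := tsum_mk_Bf hb sd sV
  have b4 := tsum_mk_Bf hb sd sz'
  have hs := ((hV.src hE hz).sub ((hV.src hE hz'))).summ (mk b) s
  have h := hs.tsum_le_tsum (fun k => (?_ : _ ≤ (mk b k * ‖Bf (fun l => V l s) (fun l => z l s - z' l s) k‖ +
      mk b k * ‖Bf (fun l => z l s) (fun l => z l s - z' l s) k‖) +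
      (mk b k * ‖Bf (fun l => z l s - z' l s) (fun l => V l s) k‖ +
      mk b k * ‖Bf (fun l => z l s - z' l s) (fun l => z' l s) k‖)))
    ((t1.add t2).add (t3.add t4))
  · rw [(t1.add t2).tsum_add (t3.add t4), t1.tsum_add t2, t3.tsum_add t4] at h
    refine h.trans ?_
    linarith
  · rw [src_sub hV hz hz', ← mul_add, ← mul_add, ← mul_add]
    refine mul_le_mul_of_nonneg_left ?_ (mk_nonneg b k)
    exact (norm_add_le _ _).trans (add_le_add (norm_add_le _ _) (norm_add_le _ _))

lemma lin_bd (hν : 0 < ν) (hMν : M * ν = 2400) (h0 : ∀ t, 0 ≤ φ t)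
    {d : K3 → ℝ → C3} (hd : FS S d) (s : ℝ) {v : ℝ} (hv : v ≤ Real.sqrt (φ s)) :
    152 * (v * ∑' k, om b k * ‖d k s‖) ≤
      (∑' k, mk b k * ((M * φ s + lam ν k) * ‖d k s‖)) / 4 := by
  have hn : 0 ≤ ∑' k, om b k * ‖d k s‖ :=
    tsum_nonneg fun k => mul_nonneg (om_pos b k).le (norm_nonneg _)
  have h1 : 152 * (v * ∑' k, om b k * ‖d k s‖) ≤
      152 * (Real.sqrt (φ s) * ∑' k, om b k * ‖d k s‖) := by
    have := mul_le_mul_of_nonneg_right hv hn
    linarith
  refine h1.trans ?_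
  rw [le_div_iff₀ (by norm_num : (0:ℝ) < 4), ← tsum_mul_left, ← tsum_mul_left, ← tsum_mul_right]
  refine Summable.tsum_le_tsum (fun k => ?_)
    (summ_fin (S := S) fun k hk => by simp [hd.supp k hk])
    (summ_fin (S := S) fun k hk => by simp [hd.supp k hk])
  by_cases hk : k = 0
  · subst hk
    simp [hd.zero]
  rw [← N_mul_mk hk]
  have h2 := lam_ge hν.le k
  have h3 := Real.sq_sqrt (h0 s)
  have h4 := Real.sqrt_nonneg (φ s)
  set x := Real.sqrt (φ s)
  have hM : M = 2400 / ν := by field_simp; linarith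
  have key : 608 * x * N k ≤ M * φ s + 39 * ν * (N k : ℝ) ^ 2 := by
    rw [← h3, hM]
    have e : 2400 / ν * x ^ 2 + 39 * ν * (N k : ℝ) ^ 2 - 608 * x * N k =
        (2400 * x ^ 2 + 39 * (ν * N k) ^ 2 - 608 * x * (ν * N k)) / ν := by
      field_simp
    have h5 : 0 ≤ (2400 * x ^ 2 + 39 * (ν * N k) ^ 2 - 608 * x * (ν * N k)) / ν := by
      refine div_nonneg ?_ hν.le
      nlinarith [sq_nonneg (x - 608 / 4800 * (ν * N k)), sq_nonneg (ν * (N k : ℝ))]
    linarith
  have h6 : 0 ≤ mk b k * ‖d k s‖ := mul_nonneg (mk_nonneg b k) (norm_nonneg _)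
  calc 152 * (x * (N k * mk b k * ‖d k s‖)) * 4 = (608 * x * N k) * (mk b k * ‖d k s‖) := by ring
    _ ≤ (M * φ s + lam ν k) * (mk b k * ‖d k s‖) := by
        gcongr
        linarith
    _ = _ := by ring

/-- **The contraction estimate** -/
theorem contr {rinf κ t : ℝ} (hb : 0 ≤ b) (hν : 0 < ν) (hMν : M * ν = 2400) (hφ : Continuous φ)
    (h0 : ∀ t, 0 ≤ φ t) (hr : 0 < rinf) (ht : 0 ≤ t) (hrt : ∀ s, 0 ≤ s → s ≤ t → rinf ≤ rho M φ s)
    (hκ : κ = ν * rinf / 16) {V E g g' : K3 → ℝ → C3} (hV : FS S V) (hE : FS S E) (hg : FS S g)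
    (hg' : FS S g') (hVφ : ∀ s, 0 ≤ s → ∑' k, om b k * ‖V k s‖ ≤ Real.sqrt (φ s))
    (h1 : DD b M φ t g ≤ κ) (h2 : DD b M φ t g' ≤ κ) :
    DD b M φ t (fun k s => src V E (Tm ν g) k s - src V E (Tm ν g') k s) ≤
      (1 / 2) * DD b M φ t (fun k s => g k s - g' k s) := by
  have hM : 0 ≤ M := by
    have : M = 2400 / ν := by field_simp; linarith
    rw [this]; positivity
  have hρ := rho_continuous M hφ
  set z := Tm ν g with hz'
  set z' := Tm ν g' with hz''
  set γ : K3 → ℝ → C3 := fun k s => g k s - g' k s with hγ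
  have fγ : FS S γ := hg.sub hg'
  have fz : FS S z := hg.Tm ν
  have fz' : FS S z' := hg'.Tm ν
  have fd : FS S (fun k s => z k s - z' k s) := fz.sub fz'
  have ed : ∀ k s, z k s - z' k s = Tm ν γ k s := fun k s => (Tm_sub hg hg' ν k s).symm
  set Dγ := DD b M φ t γ with hDγ
  have hDγ0 : 0 ≤ Dγ := DD_nonneg ht
  have hκ0 : 0 ≤ κ := le_trans (DD_nonneg ht) h1
  -- notation
  set az : ℝ → ℝ := fun s => ∑' k, mk b k * ‖z k s‖ with haz
  set az' : ℝ → ℝ := fun s => ∑' k, mk b k * ‖z' k s‖ with haz'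
  set ad : ℝ → ℝ := fun s => ∑' k, mk b k * ‖z k s - z' k s‖ with had
  set cz : ℝ → ℝ := fun s => ∑' k, (N k : ℝ) ^ 2 * mk b k * ‖z k s‖ with hcz
  set cz' : ℝ → ℝ := fun s => ∑' k, (N k : ℝ) ^ 2 * mk b k * ‖z' k s‖ with hcz'
  set cd : ℝ → ℝ := fun s => ∑' k, (N k : ℝ) ^ 2 * mk b k * ‖z k s - z' k s‖ with hcd
  set pd : ℝ → ℝ := fun s => ∑' k, mk b k * ((M * φ s + lam ν k) * ‖z k s - z' k s‖) with hpd
  have nn : ∀ (w : K3 → ℝ) (y : K3 → C3), (∀ k, 0 ≤ w k) → 0 ≤ ∑' k, w k * ‖y k‖ :=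
    fun w y hw => tsum_nonneg fun k => mul_nonneg (hw k) (norm_nonneg _)
  have nnN : ∀ k : K3, 0 ≤ (N k : ℝ) ^ 2 * mk b k := fun k => mul_nonneg (by positivity) (mk_nonneg b k)
  have bound : ∀ (G : K3 → ℝ → C3), FS S G → ∀ s, 0 ≤ s → s ≤ t →
      ∑' k, mk b k * ‖Tm ν G k s‖ ≤ DD b M φ t G / rinf := by
    intro G hG s hs hst
    rw [le_div_iff₀ hr]
    have a1 := Tm_bd1 hM hν.le hφ h0 hG hs (b := b)
    have a2 := DD_mono hφ hG hs hst (b := b) (M := M)
    have a3 := nn (mk b) (fun k => Tm ν G k s) (mk_nonneg b)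
    have a4 := mul_le_mul_of_nonneg_right (hrt s hs hst) a3
    linarith
  have haz_le : ∀ s, 0 ≤ s → s ≤ t → az s ≤ κ / rinf := fun s hs hst =>
    (bound g hg s hs hst).trans (div_le_div_of_nonneg_right h1 hr.le)
  have haz'_le : ∀ s, 0 ≤ s → s ≤ t → az' s ≤ κ / rinf := fun s hs hst =>
    (bound g' hg' s hs hst).trans (div_le_div_of_nonneg_right h2 hr.le)
  have had_le : ∀ s, 0 ≤ s → s ≤ t → ad s ≤ Dγ / rinf := fun s hs hst => by
    have := bound γ fγ s hs hst
    simp only [had, ed]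
    exact this
  -- continuity
  have ccz : Continuous cz := tsum_cont (S := S) (fun k => by have := fz.cont k; fun_prop)
    (fun k hk s => by rw [fz.supp k hk]; simp)
  have ccz' : Continuous cz' := tsum_cont (S := S) (fun k => by have := fz'.cont k; fun_prop)
    (fun k hk s => by rw [fz'.supp k hk]; simp)
  have ccd : Continuous cd := tsum_cont (S := S) (fun k => by have := fd.cont k; fun_prop)
    (fun k hk s => by rw [fd.supp k hk]; simp)
  have cpd : Continuous pd := tsum_cont (S := S) (fun k => by have := fd.cont k; fun_prop)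
    (fun k hk s => by rw [fd.supp k hk]; simp)
  have fs := (hV.src hE fz).sub (hV.src hE fz')
  have csrc : Continuous fun s => ∑' k, mk b k * ‖src V E z k s - src V E z' k s‖ :=
    tsum_cont (S := (S + S) ∪ S) (fun k => by have := fs.cont k; fun_prop)
    (fun k hk s => by rw [fs.supp k hk]; simp)
  -- pointwise
  have hpt : ∀ s, 0 ≤ s → s ≤ t → ∑' k, mk b k * ‖src V E z k s - src V E z' k s‖ ≤
      pd s / 4 + 38 * ((cz s + cz' s) * (Dγ / rinf) + (2 * (κ / rinf)) * cd s) := by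
    intro s hs hst
    have b1 := src_norm hb hV hE fz fz' s
    have b2 := lin_bd (b := b) hν hMν h0 fd s (hVφ s hs)
    have b3 := amgm (b := b) (S := S) (a := fun k => ‖z k s‖) (c := fun k => ‖z k s - z' k s‖)
      (fun k => norm_nonneg _) (fun k => norm_nonneg _)
      (fun k hk => by rw [fz.supp k hk, norm_zero]) (fun k hk => by rw [fd.supp k hk, norm_zero])
      (by rw [fz.zero, norm_zero]) (by rw [fd.zero, norm_zero])
    have b4 := amgm (b := b) (S := S) (a := fun k => ‖z' k s‖) (c := fun k => ‖z k s - z' k s‖)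
      (fun k => norm_nonneg _) (fun k => norm_nonneg _)
      (fun k hk => by rw [fz'.supp k hk, norm_zero]) (fun k hk => by rw [fd.supp k hk, norm_zero])
      (by rw [fz'.zero, norm_zero]) (by rw [fd.zero, norm_zero])
    have c1 : 0 ≤ cz s := nn _ (fun k => z k s) nnN
    have c2 : 0 ≤ cz' s := nn _ (fun k => z' k s) nnN
    have c3 : 0 ≤ cd s := nn _ (fun k => z k s - z' k s) nnN
    have d1 := mul_le_mul_of_nonneg_left (had_le s hs hst) c1
    have d2 := mul_le_mul_of_nonneg_left (had_le s hs hst) c2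
    have d3 := mul_le_mul_of_nonneg_right (haz_le s hs hst) c3
    have d4 := mul_le_mul_of_nonneg_right (haz'_le s hs hst) c3
    simp only [hcz, hcz', hcd, had, haz, haz', hpd] at *
    nlinarith
  -- integrate
  rw [DD_int hφ fs]
  have i1 : ∫ s in (0:ℝ)..t, rho M φ s * ∑' k, mk b k * ‖src V E z k s - src V E z' k s‖ ≤
      ∫ s in (0:ℝ)..t, ((1 / 4) * (rho M φ s * pd s) +
        38 * ((Dγ / rinf) * (rho M φ s * cz s + rho M φ s * cz' s) +
          (2 * (κ / rinf)) * (rho M φ s * cd s))) := by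
    refine intervalIntegral.integral_mono_on ht (Continuous.intervalIntegrable (by fun_prop) _ _)
      (Continuous.intervalIntegrable (by fun_prop) _ _) fun s hs => ?_
    have := mul_le_mul_of_nonneg_left (hpt s hs.1 hs.2) (rho_pos M φ s).le
    refine this.trans (le_of_eq ?_)
    ring
  have ii : ∀ f : ℝ → ℝ, Continuous f → IntervalIntegrable f volume 0 t :=
    fun f hf => hf.intervalIntegrable _ _
  rw [intervalIntegral.integral_add (ii _ (by fun_prop)) (ii _ (by fun_prop)),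
    intervalIntegral.integral_const_mul, intervalIntegral.integral_const_mul,
    intervalIntegral.integral_add (ii _ (by fun_prop)) (ii _ (by fun_prop)),
    intervalIntegral.integral_const_mul, intervalIntegral.integral_const_mul,
    intervalIntegral.integral_add (ii _ (by fun_prop)) (ii _ (by fun_prop))] at i1
  have j1 : ∫ s in (0:ℝ)..t, rho M φ s * pd s ≤ Dγ := by
    have := Tm_bd2 hM hν.le hφ h0 fγ ht (b := b)
    simp only [hpd, ed]
    exact this
  have j2 : ∫ s in (0:ℝ)..t, rho M φ s * cz s ≤ κ / (39 * ν) :=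
    (Tm_bd3 hM hν hφ h0 hg ht (b := b)).trans (div_le_div_of_nonneg_right h1 (by positivity))
  have j3 : ∫ s in (0:ℝ)..t, rho M φ s * cz' s ≤ κ / (39 * ν) :=
    (Tm_bd3 hM hν hφ h0 hg' ht (b := b)).trans (div_le_div_of_nonneg_right h2 (by positivity))
  have j4 : ∫ s in (0:ℝ)..t, rho M φ s * cd s ≤ Dγ / (39 * ν) := by
    have := Tm_bd3 hM hν hφ h0 fγ ht (b := b)
    simp only [hcd, ed]
    exact this
  have k1 : (Dγ / rinf) * ((∫ s in (0:ℝ)..t, rho M φ s * cz s) + ∫ s in (0:ℝ)..t, rho M φ s * cz' s) ≤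
      (Dγ / rinf) * (κ / (39 * ν) + κ / (39 * ν)) :=
    mul_le_mul_of_nonneg_left (add_le_add j2 j3) (by positivity)
  have k2 : (2 * (κ / rinf)) * ∫ s in (0:ℝ)..t, rho M φ s * cd s ≤
      (2 * (κ / rinf)) * (Dγ / (39 * ν)) :=
    mul_le_mul_of_nonneg_left j4 (by positivity)
  have e1 : (Dγ / rinf) * (κ / (39 * ν) + κ / (39 * ν)) = Dγ / 312 := by
    rw [hκ]
    field_simp
    ring
  have e2 : (2 * (κ / rinf)) * (Dγ / (39 * ν)) = Dγ / 312 := by
    rw [hκ]
    field_simp
    ring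
  rw [e1] at k1
  rw [e2] at k2
  refine i1.trans ?_
  linarith

end

end Pool.Agent.X97.FM
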