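import Pool.Agent.X97.FM.Fin

/-!
The perturbation is small at some time.
-/

open MeasureTheory Set Filter Topology
open scoped Pointwise

namespace Pool.Agent.X97.FM

open H459R3.NS Blk

section
variable {ν b M rinf η CV : ℝ} {φ : ℝ → ℝ} {S : Finset K3} {V E : K3 → ℝ → C3}

lemma Setup.zn_int (h : Setup ν b M rinf η CV φ S V E) (n : ℕ) {τ : ℝ} (hτ : 0 ≤ τ) :
    ∫ s in (0:ℝ)..τ, ∑' k, ‖zn ν V E n k s‖ ≤ 2 * η / (39 * ν * rinf) := by
  have f := (h.fs n)
  have fz := f.Tm ν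
  have hν := h.hν
  have hr := h.hr
  have h1 := Tm_bd3 (b := b) h.hM hν h.hφ h.h0 f hτ
  have h2 := h.DDle hτ n
  have hρ := rho_continuous M h.hφ
  have c1 : Continuous fun s => ∑' k, ‖zn ν V E n k s‖ :=
    tsum_cont (S := Sn S n) (fun k => (fz.cont k).norm)
      (fun k hk s => by
        show ‖Tm ν (gs ν V E n) k s‖ = 0
        rw [fz.supp k hk, norm_zero])
  have c2 : Continuous fun s => ∑' k, (N k : ℝ) ^ 2 * FM.mk b k * ‖Tm ν (gs ν V E n) k s‖ :=
    tsum_cont (S := Sn S n) (fun k => by have := fz.cont k; fun_prop)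
      (fun k hk s => by rw [fz.supp k hk]; simp)
  have h3 : ∫ s in (0:ℝ)..τ, rinf * ∑' k, ‖zn ν V E n k s‖ ≤
      ∫ s in (0:ℝ)..τ, rho M φ s * ∑' k, (N k : ℝ) ^ 2 * FM.mk b k * ‖Tm ν (gs ν V E n) k s‖ := by
    refine intervalIntegral.integral_mono_on hτ ((continuous_const.mul c1).intervalIntegrable _ _)
      ((hρ.mul c2).intervalIntegrable _ _) fun s hs => ?_
    have a1 : ∑' k, ‖zn ν V E n k s‖ ≤
        ∑' k, (N k : ℝ) ^ 2 * FM.mk b k * ‖Tm ν (gs ν V E n) k s‖ := by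
      refine Summable.tsum_le_tsum (fun k => ?_) (fz.summ' s) (summ_fin (S := Sn S n) fun k hk => by
        simp [fz.supp k hk])
      by_cases hk : k = 0
      · subst hk
        have e : zn ν V E n 0 s = 0 := fz.zero s
        rw [e, fz.zero]
        simp
      · have hN : N k ≠ 0 := fun h => hk (N_eq_zero.1 h)
        have hN1 : (1 : ℝ) ≤ N k := by exact_mod_cast Nat.one_le_iff_ne_zero.2 hN
        have e : (N k : ℝ) ^ 2 * FM.mk b k = N k * om b k := by
          rw [pow_two, mul_assoc, N_mul_mk hk]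
        have h5 := one_le_om h.hb.le k
        have h6 : 1 ≤ (N k : ℝ) ^ 2 * FM.mk b k := by
          rw [e]
          nlinarith
        have h7 : 0 ≤ ‖Tm ν (gs ν V E n) k s‖ := norm_nonneg _
        show ‖Tm ν (gs ν V E n) k s‖ ≤ _
        nlinarith
    have a2 : 0 ≤ ∑' k, ‖zn ν V E n k s‖ := tsum_nonneg fun _ => norm_nonneg _
    exact mul_le_mul (h.hrt s hs.1) a1 a2 (rho_pos _ _ _).le
  rw [intervalIntegral.integral_const_mul] at h3
  have h4 : DD b M φ τ (gs ν V E n) / (39 * ν) ≤ 2 * η / (39 * ν) := by gcongr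
  have h5 : 2 * η / (39 * ν * rinf) = 2 * η / (39 * ν) / rinf := by field_simp
  rw [h5, le_div_iff₀ hr]
  linarith

theorem Setup.z_time (h : Setup ν b M rinf η CV φ S V E) {τ δ : ℝ} (hτ : 0 < τ) (hδ : 0 < δ) :
    ∃ t ∈ Icc (τ / 2) τ, ∑' k, ‖zf ν V E k t‖ ≤ 4 * η / (39 * ν * rinf * τ) + δ := by
  have hη := h.hη0
  have hν := h.hν
  have hr := h.hr
  set T0 : ℝ := ∑' k, 2 * cB η rinf b k with hT0
  have hcs : Summable fun k => 2 * cB η rinf b k := h.cB_summ.mul_left 2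
  obtain ⟨n, hn⟩ : ∃ n : ℕ, T0 * (1 / 2) ^ n < δ / 2 := by
    have h1 : Tendsto (fun n : ℕ => T0 * (1 / 2 : ℝ) ^ n) atTop (𝓝 0) := by
      simpa using half_tendsto.const_mul T0
    exact (h1.eventually (gt_mem_nhds (half_pos hδ))).exists
  have fz := (h.fs n).Tm ν
  have c1 : Continuous fun s => ∑' k, ‖zn ν V E n k s‖ :=
    tsum_cont (S := Sn S n) (fun k => (fz.cont k).norm)
      (fun k hk s => by
        show ‖Tm ν (gs ν V E n) k s‖ = 0
        rw [fz.supp k hk, norm_zero])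
  obtain ⟨t, ht, hle⟩ : ∃ t ∈ Icc (τ / 2) τ,
      ∑' k, ‖zn ν V E n k t‖ ≤ 4 * η / (39 * ν * rinf * τ) + δ / 2 := by
    by_contra hcon
    push Not at hcon
    have i1 := h.zn_int n hτ.le
    have i2 : ∫ s in (τ / 2)..τ, (4 * η / (39 * ν * rinf * τ) + δ / 2) ≤
        ∫ s in (τ / 2)..τ, ∑' k, ‖zn ν V E n k s‖ :=
      intervalIntegral.integral_mono_on (by linarith) (continuous_const.intervalIntegrable _ _)
        (c1.intervalIntegrable _ _) fun s hs => (hcon s hs).le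
    have i3 : ∫ s in (τ / 2)..τ, ∑' k, ‖zn ν V E n k s‖ ≤
        ∫ s in (0:ℝ)..τ, ∑' k, ‖zn ν V E n k s‖ := by
      refine intervalIntegral.integral_mono_interval (by linarith) (by linarith) le_rfl
        (Filter.Eventually.of_forall fun s => tsum_nonneg fun _ => norm_nonneg _)
        (c1.intervalIntegrable _ _)
    rw [intervalIntegral.integral_const, smul_eq_mul] at i2
    have e : (τ - τ / 2) * (4 * η / (39 * ν * rinf * τ) + δ / 2) =
        2 * η / (39 * ν * rinf) + δ * τ / 4 := by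
      field_simp
      ring
    rw [e] at i2
    have : 0 < δ * τ / 4 := by positivity
    linarith
  refine ⟨t, ht, ?_⟩
  have ht0 : 0 ≤ t := by linarith [ht.1]
  have s1 : Summable fun k => ‖zn ν V E n k t‖ := fz.summ' t
  have hd : ∀ k, ‖zf ν V E k t‖ ≤ ‖zn ν V E n k t‖ + 2 * cB η rinf b k * (1 / 2) ^ n := by
    intro k
    have a := h.zn_zl n k ht0
    rw [h.zf_eq k ht0]
    have := norm_le_norm_add_norm_sub (zn ν V E n k t) (zl ν V E k t)
    linarith
  have s2 : Summable fun k => 2 * cB η rinf b k * (1 / 2 : ℝ) ^ n := hcs.mul_right _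
  have s3 : Summable fun k => ‖zf ν V E k t‖ :=
    Summable.of_nonneg_of_le (fun _ => norm_nonneg _) hd (s1.add s2)
  have h9 := s3.tsum_le_tsum hd (s1.add s2)
  rw [s1.tsum_add s2, tsum_mul_right] at h9
  linarith

end

/-- `n exp (- c n² t)` is small for large `n` -/
lemma nex_le {ν : ℝ} (hν : 0 < ν) {n : ℕ} (hn : n ≠ 0) {R t : ℝ} (hR : 0 < R) (hRn : R ≤ n)
    (ht : 0 < t) : (n : ℝ) * ex ν n t ≤ 1 / (cc ν * t * R) := by
  have hc := cc_pos hν
  have hn0 : (0 : ℝ) < n := by exact_mod_cast Nat.pos_of_ne_zero hn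
  have h1 : ex ν n t ≤ 1 / (cc ν * (n : ℝ) ^ 2 * t) := by
    unfold ex
    rw [Real.exp_neg, ← one_div]
    have hp : 0 < cc ν * (n : ℝ) ^ 2 * t := by positivity
    refine one_div_le_one_div_of_le hp ?_
    have := Real.add_one_le_exp (cc ν * (n : ℝ) ^ 2 * t)
    linarith
  calc (n : ℝ) * ex ν n t ≤ n * (1 / (cc ν * (n : ℝ) ^ 2 * t)) := by gcongr
    _ = 1 / (cc ν * t * n) := by field_simp
    _ ≤ _ := by gcongr

end Pool.Agent.X97.FM
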